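/-
MP_12179d_EM : exceptional minimal sets of C^2 group actions on the circle.
Definitions.  Everything is written on the line: circle diffeomorphisms are lifts ℝ → ℝ commuting with
the unit translation `T`, and `T` belongs to the group.
-/
import Mathlib

set_option autoImplicit false

namespace Pool.Agent.H42.EM

open Set

/-- The unit translation of the line (the same term as in the frozen statement). -/
abbrev T : Equiv.Perm ℝ := Equiv.addRight (1 : ℝ)

/-- The group generated by `T` and the maps `f i` (the same term as in the frozen statement). -/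
abbrev Grp {n : ℕ} (f : Fin n → Equiv.Perm ℝ) : Subgroup (Equiv.Perm ℝ) :=
  Subgroup.closure (insert (Equiv.addRight (1 : ℝ) : Equiv.Perm ℝ) (Set.range f))

/-- lifts of orientation preserving `C²` diffeomorphisms of the circle -/
def Good (g : Equiv.Perm ℝ) : Prop :=
  ContDiff ℝ 2 (⇑g) ∧ (∀ x, 0 < deriv (⇑g) x) ∧ ∀ x, g (x + 1) = g x + 1

/-- a finitely generated group of lifts together with an exceptional minimal set -/
structure Sys where
  n : ℕ
  f : Fin n → Equiv.Perm ℝ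
  hf : ∀ i, Good (f i)
  L : Set ℝ
  closed : IsClosed L
  ne : L.Nonempty
  inv : ∀ g ∈ Grp f, ⇑g '' L ⊆ L
  mini : ∀ K : Set ℝ, K ⊆ L → IsClosed K → K.Nonempty → (∀ g ∈ Grp f, ⇑g '' K ⊆ K) → K = L
  nuniv : L ≠ Set.univ
  infi : (L ∩ Set.Ico (0 : ℝ) 1).Infinite

/-- the group of a system -/
abbrev Sys.G (A : Sys) : Subgroup (Equiv.Perm ℝ) := Grp A.f

/-- generators and their inverses (without `T`) -/
def Sys.S (A : Sys) : Set (Equiv.Perm ℝ) := {s | ∃ i, s = A.f i ∨ s = (A.f i)⁻¹}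

/-- `(a,b)` is a gap of `L` -/
def IsGap (L : Set ℝ) (a b : ℝ) : Prop := a < b ∧ a ∈ L ∧ b ∈ L ∧ ∀ t ∈ Set.Ioo a b, t ∉ L

/-- non-expandable: no element of the group has derivative `> 1` at `x` -/
def Sys.NE (A : Sys) (x : ℝ) : Prop := ∀ g ∈ A.G, deriv (⇑g) x ≤ 1

/-- the series `∑ g'(x)` over the orbit of `x` on the circle is bounded by `W` -/
def Sys.SumB (A : Sys) (x W : ℝ) : Prop :=
  ∀ s : Finset (Equiv.Perm ℝ), (∀ g ∈ s, g ∈ A.G) →
    (∀ g ∈ s, ∀ h ∈ s, g ≠ h → ∀ k : ℤ, g x ≠ h x + k) → ∑ g ∈ s, deriv (⇑g) x ≤ W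

/-- `L` is bilaterally porous at `x` -/
def Bip (L : Set ℝ) (x : ℝ) : Prop :=
  ∃ κ > 0, ∀ ρ > 0, ∃ r, 0 < r ∧ r < ρ ∧
    (∃ c, x - r ≤ c ∧ c + κ * r ≤ x ∧ ∀ t ∈ Set.Ioo c (c + κ * r), t ∉ L) ∧
    (∃ c, x ≤ c ∧ c + κ * r ≤ x + r ∧ ∀ t ∈ Set.Ioo c (c + κ * r), t ∉ L)

/-- `x` is an endpoint of a gap: `L` does not accumulate at `x` from one of the sides -/
def OneSided (L : Set ℝ) (x : ℝ) : Prop :=
  ∃ δ > 0, (∀ t ∈ Set.Ioo x (x + δ), t ∉ L) ∨ (∀ t ∈ Set.Ioo (x - δ) x, t ∉ L)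

/-- `L` accumulates at `x` from the right -/
def AccR (L : Set ℝ) (x : ℝ) : Prop := ∀ δ > 0, ∃ t ∈ Set.Ioo x (x + δ), t ∈ L

/-- a path in the Cayley graph (left multiplication by generators), starting at `1` -/
def Sys.Path (A : Sys) (n : ℕ) (w : ℕ → Equiv.Perm ℝ) : Prop :=
  w 0 = 1 ∧ ∀ i, i < n → ∃ s ∈ A.S, w (i + 1) = s * w i

/-- `a` and `b` agree on `Z` up to an integer translation -/
def Eqv (Z : Set ℝ) (a b : Equiv.Perm ℝ) : Prop := ∃ k : ℤ, ∀ z ∈ Z, a z = b z + k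

/-- `M` bounds the Lipschitz constant of the logarithm of the derivative of all generators -/
def Sys.LipS (A : Sys) (M : ℝ) : Prop :=
  0 ≤ M ∧ ∀ s ∈ A.S, ∀ u v : ℝ,
    |Real.log (deriv (⇑s) u) - Real.log (deriv (⇑s) v)| ≤ M * |u - v|

end Pool.Agent.H42.EM
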