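/-
BAS : basic facts on lifts of C^2 circle diffeomorphisms and on the group.
-/
import Mathlib
import Pool.Agent.H42.EM.Defs

set_option autoImplicit false

namespace Pool.Agent.H42.EM

open Set

lemma T_apply (x : ℝ) : T x = x + 1 := rfl

lemma T_zpow (k : ℤ) (x : ℝ) : (T ^ k) x = x + k := by
  induction k using Int.induction_on with
  | zero => simp
  | succ n ih =>
    rw [zpow_add_one, Equiv.Perm.mul_apply, T_apply]
    have h : ∀ (m : ℕ) (y : ℝ), (T ^ (m : ℤ)) y = y + m := by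
      intro m
      induction m with
      | zero => intro y; simp
      | succ m ihm =>
        intro y
        have : ((m + 1 : ℕ) : ℤ) = (m : ℤ) + 1 := by push_cast; ring
        rw [this, zpow_add_one, Equiv.Perm.mul_apply, ihm, T_apply]; push_cast; ring
    rw [h]; push_cast; ring
  | pred n ih =>
    have h1 : (T ^ (-(n : ℤ) - 1)) x = (T ^ (-(n : ℤ))) (T⁻¹ x) := by
      rw [zpow_sub_one, Equiv.Perm.mul_apply]
    have h : ∀ (m : ℕ) (y : ℝ), (T ^ (-(m : ℤ))) y = y - m := by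
      intro m
      induction m with
      | zero => intro y; simp
      | succ m ihm =>
        intro y
        have : (-((m + 1 : ℕ) : ℤ)) = -(m : ℤ) - 1 := by push_cast; ring
        rw [this, zpow_sub_one, Equiv.Perm.mul_apply, ihm]
        have : T⁻¹ y = y - 1 := by
          rw [Equiv.Perm.inv_eq_iff_eq]; rw [T_apply]; ring
        rw [this]; push_cast; ring
    rw [h1, h]
    have : T⁻¹ x = x - 1 := by
      rw [Equiv.Perm.inv_eq_iff_eq]; rw [T_apply]; ring
    rw [this]; push_cast; ring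

namespace Good

variable {g h : Equiv.Perm ℝ}

lemma diff (hg : Good g) : Differentiable ℝ (⇑g) := hg.1.differentiable (by norm_num)

lemma cont (hg : Good g) : Continuous (⇑g) := hg.1.continuous

lemma contDeriv (hg : Good g) : Continuous (deriv (⇑g)) := hg.1.continuous_deriv (by norm_num)

lemma mono (hg : Good g) : StrictMono (⇑g) := strictMono_of_deriv_pos hg.2.1

lemma pos (hg : Good g) (x : ℝ) : 0 < deriv (⇑g) x := hg.2.1 x

lemma add_int (hg : Good g) (x : ℝ) (k : ℤ) : g (x + k) = g x + k := by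
  induction k using Int.induction_on with
  | zero => simp
  | succ n ih =>
    have : x + ((n : ℤ) + 1 : ℤ) = (x + (n : ℤ)) + 1 := by push_cast; ring
    rw [this, hg.2.2, ih]; push_cast; ring
  | pred n ih =>
    have h1 := hg.2.2 (x + ((-(n : ℤ) - 1 : ℤ) : ℝ))
    have : x + ((-(n : ℤ) - 1 : ℤ) : ℝ) + 1 = x + ((-(n : ℤ) : ℤ) : ℝ) := by push_cast; ring
    rw [this, ih] at h1
    have h2 : g (x + ((-(n : ℤ) - 1 : ℤ) : ℝ)) = g x + ((-(n : ℤ) : ℤ) : ℝ) - 1 := by linarith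
    rw [h2]; push_cast; ring

lemma deriv_add_int (hg : Good g) (x : ℝ) (k : ℤ) : deriv (⇑g) (x + k) = deriv (⇑g) x := by
  have h1 : (fun y => g (y + k)) = fun y => g y + k := by
    funext y; exact hg.add_int y k
  have h2 : deriv (fun y => g (y + k)) x = deriv (⇑g) (x + k) := by
    rw [deriv_comp_add_const]
  rw [← h2, h1, deriv_add_const]

lemma one : Good 1 := by
  refine ⟨contDiff_id, fun x => ?_, fun x => rfl⟩
  have : (⇑(1 : Equiv.Perm ℝ)) = id := rfl
  rw [this]; simp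

lemma trans : Good T := by
  refine ⟨?_, fun x => ?_, fun x => rfl⟩
  · exact contDiff_id.add contDiff_const
  · have : (⇑T : ℝ → ℝ) = fun y => y + 1 := rfl
    rw [this]; simp

lemma mul (hg : Good g) (hh : Good h) : Good (g * h) := by
  refine ⟨hg.1.comp hh.1, fun x => ?_, fun x => ?_⟩
  · have : (⇑(g * h) : ℝ → ℝ) = ⇑g ∘ ⇑h := rfl
    rw [this, deriv_comp _ (hg.diff _) (hh.diff _)]
    exact mul_pos (hg.pos _) (hh.pos _)
  · rw [Equiv.Perm.mul_apply, hh.2.2, hg.2.2]; rfl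

lemma deriv_mul (hg : Good g) (hh : Good h) (x : ℝ) :
    deriv (⇑(g * h)) x = deriv (⇑g) (h x) * deriv (⇑h) x := by
  have : (⇑(g * h) : ℝ → ℝ) = ⇑g ∘ ⇑h := rfl
  rw [this, deriv_comp _ (hg.diff _) (hh.diff _)]

lemma hasDerivAt_inv (hg : Good g) (x : ℝ) :
    HasDerivAt (⇑g⁻¹) (deriv (⇑g) (g⁻¹ x))⁻¹ x := by
  have hc : Continuous (⇑g⁻¹) := by
    have h1 : Function.Surjective (⇑g) := g.surjective
    let e : ℝ ≃o ℝ := hg.mono.orderIsoOfSurjective _ h1
    have h2 : (⇑e.symm : ℝ → ℝ) = ⇑g⁻¹ := by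
      funext y
      apply g.injective
      have h3 : g (e.symm y) = y := e.apply_symm_apply y
      rw [h3]; simp
    rw [← h2]; exact e.symm.continuous
  have h1 : HasDerivAt (⇑g) (deriv (⇑g) (g⁻¹ x)) (g⁻¹ x) := (hg.diff _).hasDerivAt
  exact HasDerivAt.of_local_left_inverse hc.continuousAt h1 (hg.pos _).ne'
    (Filter.Eventually.of_forall fun y => by simp)

lemma deriv_inv (hg : Good g) (x : ℝ) : deriv (⇑g⁻¹) x = (deriv (⇑g) (g⁻¹ x))⁻¹ :=
  (hg.hasDerivAt_inv x).deriv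

lemma inv (hg : Good g) : Good g⁻¹ := by
  refine ⟨?_, fun x => ?_, fun x => ?_⟩
  · -- contDiff of the inverse
    have h1 : Function.Surjective (⇑g) := g.surjective
    let e : ℝ ≃ₜ ℝ := (hg.mono.orderIsoOfSurjective _ h1).toHomeomorph
    have h2 : (⇑e.symm : ℝ → ℝ) = ⇑g⁻¹ := by
      funext y
      apply g.injective
      have h3 : g (e.symm y) = y := e.apply_symm_apply y
      rw [h3]; simp
    rw [← h2]
    have h4 : ∀ a, HasDerivAt e (deriv (⇑g) a) a := fun a => (hg.diff a).hasDerivAt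
    exact Homeomorph.contDiff_symm_deriv (f := e) (f' := deriv (⇑g)) (fun a => (hg.pos a).ne') h4 hg.1
  · rw [hg.deriv_inv]; exact inv_pos.mpr (hg.pos _)
  · rw [Equiv.Perm.inv_eq_iff_eq, hg.2.2]; simp

lemma zpowT (k : ℤ) : Good (T ^ k) := by
  have hn : ∀ m : ℕ, Good (T ^ m) := by
    intro m
    induction m with
    | zero => exact one
    | succ m ih => rw [pow_succ]; exact ih.mul trans
  cases k with
  | ofNat m => simpa using hn m
  | negSucc m => rw [zpow_negSucc]; exact (hn _).inv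

/-- mean value theorem -/
lemma mvt (hg : Good g) {a b : ℝ} (hab : a < b) :
    ∃ ξ ∈ Set.Ioo a b, g b - g a = deriv (⇑g) ξ * (b - a) := by
  obtain ⟨ξ, hξ, h⟩ := exists_deriv_eq_slope (⇑g) hab hg.cont.continuousOn hg.diff.differentiableOn
  refine ⟨ξ, hξ, ?_⟩
  rw [h]; field_simp [sub_ne_zero.mpr hab.ne']

lemma commT (hg : Good g) (k : ℤ) : T ^ k * g = g * T ^ k := by
  ext x
  rw [Equiv.Perm.mul_apply, Equiv.Perm.mul_apply, T_zpow, T_zpow, hg.add_int]

/-- the logarithm of the derivative is Lipschitz -/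
lemma lip (hg : Good g) : ∃ M : ℝ, 0 ≤ M ∧ ∀ u v : ℝ,
    |Real.log (deriv (⇑g) u) - Real.log (deriv (⇑g) v)| ≤ M * |u - v| := by
  have hd1 : ContDiff ℝ 1 (deriv (⇑g)) := by
    have := hg.1
    rw [show (2 : WithTop ℕ∞) = 1 + 1 by norm_num] at this
    exact (contDiff_succ_iff_deriv.mp this).2.2
  have hl : ContDiff ℝ 1 (fun x => Real.log (deriv (⇑g) x)) :=
    hd1.log fun x => (hg.pos x).ne'
  set φ : ℝ → ℝ := fun x => Real.log (deriv (⇑g) x) with hφ
  have hc : Continuous (deriv φ) := hl.continuous_deriv le_rfl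
  have hper : ∀ x (k : ℤ), φ (x + k) = φ x := by
    intro x k; simp only [hφ]; rw [hg.deriv_add_int]
  have hperd : ∀ x (k : ℤ), deriv φ (x + k) = deriv φ x := by
    intro x k
    have h1 : (fun y => φ (y + k)) = φ := by funext y; exact hper y k
    have h2 : deriv (fun y => φ (y + k)) x = deriv φ (x + k) := by rw [deriv_comp_add_const]
    rw [← h2, h1]
  obtain ⟨M, hM⟩ : ∃ M, ∀ x ∈ Set.Icc (0:ℝ) 1, ‖deriv φ x‖ ≤ M :=
    isCompact_Icc.exists_bound_of_continuousOn hc.continuousOn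
  have hM' : ∀ x, ‖deriv φ x‖ ≤ M := by
    intro x
    have h1 := hperd (Int.fract x) ⌊x⌋
    rw [Int.fract_add_floor] at h1
    rw [h1]
    exact hM _ ⟨Int.fract_nonneg x, (Int.fract_lt_one x).le⟩
  refine ⟨M, (norm_nonneg _).trans (hM' 0), fun u v => ?_⟩
  have h := Convex.norm_image_sub_le_of_norm_deriv_le (f := φ) (s := Set.univ) (x := v) (y := u)
    (fun x _ => (hl.differentiable one_ne_zero) x) (fun x _ => hM' x) convex_univ (mem_univ _) (mem_univ _)
  simpa [Real.norm_eq_abs] using h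

end Good

namespace Sys

variable (A : Sys)

lemma T_mem : T ∈ A.G := Subgroup.subset_closure (mem_insert _ _)

lemma f_mem (i : Fin A.n) : A.f i ∈ A.G :=
  Subgroup.subset_closure (mem_insert_of_mem _ (mem_range_self i))

lemma Tz_mem (k : ℤ) : T ^ k ∈ A.G := Subgroup.zpow_mem _ A.T_mem k

lemma S_mem {s : Equiv.Perm ℝ} (hs : s ∈ A.S) : s ∈ A.G := by
  obtain ⟨i, rfl | rfl⟩ := hs
  · exact A.f_mem i
  · exact Subgroup.inv_mem _ (A.f_mem i)

lemma good {g : Equiv.Perm ℝ} (hg : g ∈ A.G) : Good g := by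
  induction hg using Subgroup.closure_induction with
  | mem x hx =>
    rcases hx with rfl | ⟨i, rfl⟩
    · exact Good.trans
    · exact A.hf i
  | one => exact Good.one
  | mul x y _ _ hx hy => exact hx.mul hy
  | inv x _ hx => exact hx.inv

lemma mem_iff {g : Equiv.Perm ℝ} (hg : g ∈ A.G) (x : ℝ) : g x ∈ A.L ↔ x ∈ A.L := by
  constructor
  · intro h
    have := A.inv g⁻¹ (Subgroup.inv_mem _ hg) ⟨g x, h, rfl⟩
    simpa using this
  · intro h; exact A.inv g hg ⟨x, h, rfl⟩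

lemma mem_add_int (x : ℝ) (k : ℤ) : x + k ∈ A.L ↔ x ∈ A.L := by
  rw [← T_zpow k x]; exact A.mem_iff (A.Tz_mem k) x

lemma exists_lip : ∃ M, A.LipS M := by
  have h1 : ∀ i, ∃ M : ℝ, 0 ≤ M ∧ ∀ u v : ℝ,
      |Real.log (deriv (⇑(A.f i)) u) - Real.log (deriv (⇑(A.f i)) v)| ≤ M * |u - v| :=
    fun i => (A.hf i).lip
  have h2 : ∀ i, ∃ M : ℝ, 0 ≤ M ∧ ∀ u v : ℝ,
      |Real.log (deriv (⇑(A.f i)⁻¹) u) - Real.log (deriv (⇑(A.f i)⁻¹) v)| ≤ M * |u - v| :=
    fun i => (A.hf i).inv.lip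
  choose M1 hM1 hM1' using h1
  choose M2 hM2 hM2' using h2
  have hs : ∀ i, M1 i ≤ ∑ j, (M1 j + M2 j) ∧ M2 i ≤ ∑ j, (M1 j + M2 j) := by
    intro i
    have h3 : M1 i + M2 i ≤ ∑ j, (M1 j + M2 j) :=
      Finset.single_le_sum (f := fun j => M1 j + M2 j)
        (fun j _ => add_nonneg (hM1 j) (hM2 j)) (Finset.mem_univ i)
    exact ⟨by linarith [hM2 i], by linarith [hM1 i]⟩
  refine ⟨∑ j, (M1 j + M2 j), Finset.sum_nonneg fun j _ => add_nonneg (hM1 j) (hM2 j), ?_⟩
  rintro s ⟨i, rfl | rfl⟩ u v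
  · exact (hM1' i u v).trans (mul_le_mul_of_nonneg_right (hs i).1 (abs_nonneg _))
  · exact (hM2' i u v).trans (mul_le_mul_of_nonneg_right (hs i).2 (abs_nonneg _))

end Sys

end Pool.Agent.H42.EM
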