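/-
GAP : gaps of an exceptional minimal set: elementary facts, total length, tails.

PROOFS.
* image: g is strictly increasing and preserves L (Sys.mem_iff, Good.mono).
* len: a + 1 ∈ L (Sys.mem_add_int), so a + 1 ∉ Ioo a b, hence b ≤ a + 1.
* eq_of_left / eq_or: trivial from the definition.
* gap_sum: WLOG (replace (a i, b i) by its integer translate, the sum does not change)
  a i ∈ [0,1).  Then the intervals Ioo (a i) (b i), i ∈ s, are pairwise disjoint (the a i are pairwise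
  distinct by hne with k = 0; eq_or), and ALSO disjoint from all integer translates of each other.
  Put J i = Ioo (a i) (b i) ⊆ [0,2).  If 1 ≤ some b i, say i0 is the one with a i0 largest; every gap with
  b i > 1 has a i < 1 < b i, so contains 1: only one such i0.  Easiest: order of points.  Alternative proof by
  measure: the sets E i = (J i ∩ [0,1)) ∪ ((J i - 1) ∩ [0,1)) are pairwise disjoint subsets of [0,1) with
  volume (E i) = b i - a i  (J i ∩ [0,1) and (J i - 1) ∩ [0,1) are disjoint because J i and J i - 1 are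
  disjoint as b i - a i ≤ 1).  Sum of the measures ≤ volume [0,1) = 1.
  (Disjointness of E i and E j, i ≠ j: a point of both gives t ∈ J i + k, t ∈ J j + l, so the gaps
  (a i + k, b i + k) and (a j + l, b j + l) meet, by eq_or they are equal, a i = a j + (l - k), contradiction.
  Note that this argument does not even need a i ∈ [0,1) if E i = ⋃_k ((J i + k) ∩ [0,1)).)
* gap_tail: let Q = {a ∈ Ico 0 1 | ∃ b, IsGap L a b}, len : Q → ℝ the length.  All finite sums are ≤ 1 by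
  gap_sum (distinct a's in Ico 0 1 never differ by an integer), so len is summable (summable_of_sum_le).
  Choose a finite F ⊆ Q such that every finite set disjoint from F has sum ≤ ε
  (summable_iff_vanishing_norm or Summable.vanishing / tsum compl), and ρ < min of len over F (ρ = 1 if F = ∅).
  Given a family with lengths ≤ ρ: map i ↦ fract (a i) ∈ Q is injective on s (hne), the image avoids F, and
  the lengths agree.
* gap_fin: N = ⌈1/η⌉₊ from gap_sum: card * η ≤ 1.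
-/
import Mathlib
import Pool.Agent.H42.EM.Bas

set_option autoImplicit false

namespace Pool.Agent.H42.EM

open Set

lemma IsGap.image (A : Sys) {a b : ℝ} (h : IsGap A.L a b) {g : Equiv.Perm ℝ} (hg : g ∈ A.G) :
    IsGap A.L (g a) (g b) := by
  obtain ⟨h1, h2, h3, h4⟩ := h
  have hgm := (A.good hg).mono
  refine ⟨hgm h1, (A.mem_iff hg a).mpr h2, (A.mem_iff hg b).mpr h3, fun t ht htL => ?_⟩
  have e1 : g (g⁻¹ t) = t := by simp
  rw [← e1] at ht htL
  exact h4 (g⁻¹ t) ⟨hgm.lt_iff_lt.mp ht.1, hgm.lt_iff_lt.mp ht.2⟩ ((A.mem_iff hg _).mp htL)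

lemma IsGap.add_int (A : Sys) {a b : ℝ} (h : IsGap A.L a b) (k : ℤ) :
    IsGap A.L (a + k) (b + k) := by
  have := h.image A (A.Tz_mem k)
  rwa [T_zpow, T_zpow] at this

lemma IsGap.len_le_one (A : Sys) {a b : ℝ} (h : IsGap A.L a b) : b - a ≤ 1 := by
  by_contra hcon
  push Not at hcon
  have h1 : a + ((1 : ℤ) : ℝ) ∈ A.L := (A.mem_add_int a 1).mpr h.2.1
  refine h.2.2.2 (a + ((1 : ℤ) : ℝ)) ⟨?_, ?_⟩ h1
  · push_cast; linarith
  · push_cast; linarith

lemma IsGap.eq_of_left {L : Set ℝ} {a b b' : ℝ} (h : IsGap L a b) (h' : IsGap L a b') : b = b' := by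
  rcases lt_trichotomy b b' with h1 | h1 | h1
  · exact absurd h.2.2.1 (h'.2.2.2 b ⟨h.1, h1⟩)
  · exact h1
  · exact absurd h'.2.2.1 (h.2.2.2 b' ⟨h'.1, h1⟩)

lemma IsGap.eq_of_right {L : Set ℝ} {a a' b : ℝ} (h : IsGap L a b) (h' : IsGap L a' b) : a = a' := by
  rcases lt_trichotomy a a' with h1 | h1 | h1
  · exact absurd h'.2.1 (h.2.2.2 a' ⟨h1, h'.1⟩)
  · exact h1
  · exact absurd h.2.1 (h'.2.2.2 a ⟨h1, h.1⟩)

lemma IsGap.eq_or {L : Set ℝ} {a b a' b' : ℝ} (h : IsGap L a b) (h' : IsGap L a' b') :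
    a = a' ∨ b ≤ a' ∨ b' ≤ a := by
  rcases lt_trichotomy a a' with h1 | h1 | h1
  · right; left
    by_contra hcon
    push Not at hcon
    exact h.2.2.2 a' ⟨h1, hcon⟩ h'.2.1
  · exact Or.inl h1
  · right; right
    by_contra hcon
    push Not at hcon
    exact h'.2.2.2 a ⟨h1, hcon⟩ h.2.1

lemma gap_disj {ι : Type} (s : Finset ι) (a b : ι → ℝ) (m : ℝ)
    (hlt : ∀ i ∈ s, a i < b i) (h1 : ∀ i ∈ s, m ≤ a i) (h2 : ∀ i ∈ s, b i ≤ m + 1)
    (hd : ∀ i ∈ s, ∀ j ∈ s, i ≠ j → b i ≤ a j ∨ b j ≤ a i) :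
    ∑ i ∈ s, (b i - a i) ≤ 1 := by
  have hpd : (s : Set ι).PairwiseDisjoint fun i => Ioo (a i) (b i) := by
    intro i hi j hj hij
    rw [Function.onFun, Set.disjoint_left]
    intro t ht ht'
    rcases hd i hi j hj hij with h | h
    · exact absurd (ht.2.trans_le h) (not_lt.mpr ht'.1.le)
    · exact absurd (ht'.2.trans_le h) (not_lt.mpr ht.1.le)
  have e1 := MeasureTheory.measure_biUnion_finset (μ := MeasureTheory.volume) hpd
    (fun i _ => measurableSet_Ioo)
  have e2 : MeasureTheory.volume (⋃ i ∈ s, Ioo (a i) (b i)) ≤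
      MeasureTheory.volume (Icc m (m + 1)) := by
    apply MeasureTheory.measure_mono
    intro t ht
    simp only [mem_iUnion] at ht
    obtain ⟨i, hi, ht⟩ := ht
    exact ⟨(h1 i hi).trans ht.1.le, ht.2.le.trans (h2 i hi)⟩
  rw [e1, Real.volume_Icc] at e2
  simp only [Real.volume_Ioo] at e2
  rw [← ENNReal.ofReal_sum_of_nonneg (fun i hi => by linarith [hlt i hi])] at e2
  have e3 : m + 1 - m = 1 := by ring
  rw [e3] at e2
  exact (ENNReal.ofReal_le_ofReal_iff zero_le_one).mp e2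

lemma gap_sum (A : Sys) {ι : Type} (s : Finset ι) (a b : ι → ℝ)
    (hgap : ∀ i ∈ s, IsGap A.L (a i) (b i))
    (hne : ∀ i ∈ s, ∀ j ∈ s, i ≠ j → ∀ k : ℤ, a i ≠ a j + k) :
    ∑ i ∈ s, (b i - a i) ≤ 1 := by
  rcases s.eq_empty_or_nonempty with hs | hs
  · rw [hs, Finset.sum_empty]; exact zero_le_one
  have hg' : ∀ i ∈ s, IsGap A.L (Int.fract (a i)) (b i - ⌊a i⌋) := by
    intro i hi
    have h1 := (hgap i hi).add_int A (-⌊a i⌋)
    have e1 : a i + ((-⌊a i⌋ : ℤ) : ℝ) = Int.fract (a i) := by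
      rw [Int.fract]; push_cast; ring
    have e2 : b i + ((-⌊a i⌋ : ℤ) : ℝ) = b i - ⌊a i⌋ := by push_cast; ring
    rwa [e1, e2] at h1
  obtain ⟨m, hm, hmin⟩ := s.exists_min_image (fun i => Int.fract (a i)) hs
  have hsum : ∑ i ∈ s, (b i - a i) = ∑ i ∈ s, ((b i - ⌊a i⌋) - Int.fract (a i)) := by
    refine Finset.sum_congr rfl fun i _ => ?_
    rw [Int.fract]; ring
  rw [hsum]
  refine gap_disj s (fun i => Int.fract (a i)) (fun i => b i - ⌊a i⌋) (Int.fract (a m))
    (fun i hi => (hg' i hi).1) hmin ?_ ?_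
  · intro i hi
    have h1 := (hg' m hm).add_int A 1
    push_cast at h1
    have f1 := Int.fract_lt_one (a i)
    have f2 := Int.fract_nonneg (a m)
    have f3 := (hg' m hm).1
    rcases (hg' i hi).eq_or h1 with h | h | h
    · linarith
    · exact h
    · linarith
  · intro i hi j hj hij
    rcases (hg' i hi).eq_or (hg' j hj) with h | h | h
    · exfalso
      refine hne i hi j hj hij (⌊a i⌋ - ⌊a j⌋) ?_
      rw [Int.fract, Int.fract] at h
      push_cast
      linarith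
    · exact Or.inl h
    · exact Or.inr h

lemma gap_pos_lt {α : Type} (F : Finset α) (f : α → ℝ) (hf : ∀ p ∈ F, 0 < f p) :
    ∃ ρ > 0, ∀ p ∈ F, ρ < f p := by
  classical
  induction F using Finset.induction_on with
  | empty => exact ⟨1, one_pos, fun p hp => absurd hp (Finset.notMem_empty p)⟩
  | insert q F hq ih =>
    obtain ⟨ρ, hρ, h⟩ := ih fun p hp => hf p (Finset.mem_insert_of_mem hp)
    have hfq := hf q (Finset.mem_insert_self q F)
    refine ⟨min ρ (f q / 2), lt_min hρ (by linarith), fun p hp => ?_⟩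
    rcases Finset.mem_insert.mp hp with rfl | hp
    · exact (min_le_right _ _).trans_lt (by linarith)
    · exact (min_le_left _ _).trans_lt (h p hp)

lemma gap_tail (A : Sys) {ε : ℝ} (hε : 0 < ε) : ∃ ρ > 0, ∀ {ι : Type} (s : Finset ι) (a b : ι → ℝ),
    (∀ i ∈ s, IsGap A.L (a i) (b i)) →
    (∀ i ∈ s, ∀ j ∈ s, i ≠ j → ∀ k : ℤ, a i ≠ a j + k) →
    (∀ i ∈ s, b i - a i ≤ ρ) → ∑ i ∈ s, (b i - a i) ≤ ε := by
  classical
  set Pr : ℝ × ℝ → Prop := fun p => IsGap A.L p.1 p.2 ∧ p.1 ∈ Ico (0 : ℝ) 1 with hPr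
  have hsum : ∀ F : Finset (ℝ × ℝ), (∀ p ∈ F, Pr p) → ∑ p ∈ F, (p.2 - p.1) ≤ 1 := by
    intro F hF
    refine gap_sum A F Prod.fst Prod.snd (fun p hp => (hF p hp).1) ?_
    intro p hp q hq hpq k hk
    have h1 := (hF p hp).2
    have h2 := (hF q hq).2
    have hk0 : k = 0 := by
      have h3 : (-1 : ℝ) < k := by linarith [h1.1, h2.2]
      have h4 : (k : ℝ) < 1 := by linarith [h1.2, h2.1]
      have h5 : -1 < k := by exact_mod_cast h3
      have h6 : k < 1 := by exact_mod_cast h4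
      omega
    rw [hk0, Int.cast_zero, add_zero] at hk
    have g1 := (hF p hp).1
    have g2 := (hF q hq).1
    rw [hk] at g1
    exact hpq (Prod.ext hk (g1.eq_of_left g2))
  set S : Set ℝ := {x | ∃ F : Finset (ℝ × ℝ), (∀ p ∈ F, Pr p) ∧ x = ∑ p ∈ F, (p.2 - p.1)} with hS
  have hSne : S.Nonempty := ⟨0, ∅, by simp, by simp⟩
  have hSb : BddAbove S := ⟨1, by
    rintro x ⟨F, hF, rfl⟩
    exact hsum F hF⟩
  obtain ⟨x, ⟨F, hF, rfl⟩, hx⟩ := exists_lt_of_lt_csSup hSne (show sSup S - ε < sSup S by linarith)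
  obtain ⟨ρ, hρ, hρF⟩ := gap_pos_lt F (fun p => p.2 - p.1) (fun p hp => by
    have := (hF p hp).1.1
    show 0 < p.2 - p.1
    linarith)
  refine ⟨ρ, hρ, fun {ι} s a b hgap hne hle => ?_⟩
  set φ : ι → ℝ × ℝ := fun i => (Int.fract (a i), b i - ⌊a i⌋) with hφ
  have hφP : ∀ i ∈ s, Pr (φ i) := by
    intro i hi
    refine ⟨?_, Int.fract_nonneg _, Int.fract_lt_one _⟩
    have h1 := (hgap i hi).add_int A (-⌊a i⌋)
    have e1 : a i + ((-⌊a i⌋ : ℤ) : ℝ) = Int.fract (a i) := by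
      rw [Int.fract]; push_cast; ring
    have e2 : b i + ((-⌊a i⌋ : ℤ) : ℝ) = b i - ⌊a i⌋ := by push_cast; ring
    rwa [e1, e2] at h1
  have hinj : Set.InjOn φ (s : Set ι) := by
    intro i hi j hj hij
    by_contra hcon
    have h1 : Int.fract (a i) = Int.fract (a j) := congrArg Prod.fst hij
    refine hne i hi j hj hcon (⌊a i⌋ - ⌊a j⌋) ?_
    rw [Int.fract, Int.fract] at h1
    push_cast
    linarith
  have hdisj : Disjoint F (s.image φ) := by
    rw [Finset.disjoint_left]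
    intro p hp hp'
    obtain ⟨i, hi, rfl⟩ := Finset.mem_image.mp hp'
    have h1 := hρF _ hp
    have h2 := hle i hi
    have h3 : (φ i).2 - (φ i).1 = b i - a i := by
      simp only [hφ, Int.fract]; ring
    have h4 : ρ < (φ i).2 - (φ i).1 := h1
    rw [h3] at h4
    linarith
  have hmem : ∑ p ∈ F ∪ s.image φ, (p.2 - p.1) ∈ S := by
    refine ⟨F ∪ s.image φ, fun p hp => ?_, rfl⟩
    rcases Finset.mem_union.mp hp with h | h
    · exact hF p h
    · obtain ⟨i, hi, rfl⟩ := Finset.mem_image.mp h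
      exact hφP i hi
  have h1 := le_csSup hSb hmem
  rw [Finset.sum_union hdisj, Finset.sum_image hinj] at h1
  have h2 : ∑ i ∈ s, ((φ i).2 - (φ i).1) = ∑ i ∈ s, (b i - a i) := by
    refine Finset.sum_congr rfl fun i _ => ?_
    simp only [hφ, Int.fract]; ring
  rw [h2] at h1
  linarith

lemma gap_fin (A : Sys) {η : ℝ} (hη : 0 < η) : ∃ N : ℕ, ∀ {ι : Type} (s : Finset ι) (a b : ι → ℝ),
    (∀ i ∈ s, IsGap A.L (a i) (b i)) →
    (∀ i ∈ s, ∀ j ∈ s, i ≠ j → ∀ k : ℤ, a i ≠ a j + k) →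
    (∀ i ∈ s, η ≤ b i - a i) → s.card ≤ N := by
  refine ⟨⌈1 / η⌉₊, fun {ι} s a b hgap hne hle => ?_⟩
  have h1 := gap_sum A s a b hgap hne
  have h2 : (s.card : ℝ) * η ≤ ∑ i ∈ s, (b i - a i) := by
    rw [← nsmul_eq_mul]
    exact Finset.card_nsmul_le_sum s _ η hle
  have h3 : (s.card : ℝ) ≤ 1 / η := by
    rw [le_div_iff₀ hη]
    linarith
  exact_mod_cast h3.trans (Nat.le_ceil _)

end Pool.Agent.H42.EM
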