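/-
FAM : maximal families.

PROOFS.
* gap_finset: take N from gap_fin.  Let P n := there is a Finset of reals F with card n, every q ∈ F is the LEFT
  endpoint of a gap of length ≥ η, and distinct elements of F do not differ by an integer.  P 0 holds, P n → n ≤ N.
  Take the largest n (Nat.findGreatest) and F.  If (a, b) is a gap of length ≥ η, then a = q + k for some q ∈ F:
  otherwise insert a F is larger.
* gap_finset_right: same with right endpoints (or: b = a + (b - a), and a ≡ q gives b ≡ q' where (q, q') is the gap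
  with left endpoint q; take the image of F under q ↦ q').
* sumB_finset: same argument: a family of elements of G with pairwise distinct values at x mod ℤ and derivative
  ≥ η at x has at most W/η elements.
-/
import Mathlib
import Pool.Agent.H42.EM.Gap

set_option autoImplicit false

namespace Pool.Agent.H42.EM

open Set

lemma Fam_max {α : Type} (P : Finset α → Prop) (h0 : P ∅) {N : ℕ}
    (hN : ∀ F, P F → F.card ≤ N) : ∃ F, P F ∧ ∀ F', P F' → F'.card ≤ F.card := by
  classical
  by_contra hcon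
  push Not at hcon
  have h1 : ∀ n : ℕ, ∃ F, P F ∧ n ≤ F.card := by
    intro n
    induction n with
    | zero => exact ⟨∅, h0, Nat.zero_le _⟩
    | succ n ih =>
      obtain ⟨F, hF, hn⟩ := ih
      obtain ⟨F', hF', hlt⟩ := hcon F hF
      exact ⟨F', hF', by omega⟩
  obtain ⟨F, hF, hn⟩ := h1 (N + 1)
  have := hN F hF
  omega

lemma gap_finset (A : Sys) {η : ℝ} (hη : 0 < η) : ∃ F : Finset ℝ, (∀ q ∈ F, ∃ b, IsGap A.L q b) ∧
    ∀ a b, IsGap A.L a b → η ≤ b - a → ∃ q ∈ F, ∃ k : ℤ, a = q + k := by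
  classical
  obtain ⟨N, hN⟩ := gap_fin A hη
  obtain ⟨F, ⟨hF1, hF2⟩, hmax⟩ := Fam_max (N := N)
    (fun F : Finset ℝ => (∀ q ∈ F, ∃ b, IsGap A.L q b ∧ η ≤ b - q) ∧
      ∀ q ∈ F, ∀ q' ∈ F, q ≠ q' → ∀ k : ℤ, q ≠ q' + k)
    ⟨fun q hq => absurd hq (Finset.notMem_empty q), fun q hq => absurd hq (Finset.notMem_empty q)⟩
    (by
      rintro F ⟨h1, h2⟩
      choose! b hb using h1
      exact hN F id b (fun q hq => (hb q hq).1) h2 (fun q hq => (hb q hq).2))
  refine ⟨F, fun q hq => ?_, fun a b hab hη' => ?_⟩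
  · obtain ⟨b, hb, -⟩ := hF1 q hq
    exact ⟨b, hb⟩
  · by_contra hcon
    push Not at hcon
    have haF : a ∉ F := by
      intro ha
      refine hcon a ha 0 ?_
      simp
    have h1 := hmax (insert a F) ⟨?_, ?_⟩
    · rw [Finset.card_insert_of_notMem haF] at h1
      omega
    · intro q hq
      rcases Finset.mem_insert.1 hq with rfl | hq
      · exact ⟨b, hab, hη'⟩
      · exact hF1 q hq
    · intro q hq q' hq' hne k
      rcases Finset.mem_insert.1 hq with rfl | hq2
      · rcases Finset.mem_insert.1 hq' with rfl | hq2'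
        · exact absurd rfl hne
        · exact hcon q' hq2' k
      · rcases Finset.mem_insert.1 hq' with rfl | hq2'
        · intro h
          refine hcon q hq2 (-k) ?_
          rw [h]
          push_cast
          ring
        · exact hF2 q hq2 q' hq2' hne k

lemma gap_finset_right (A : Sys) {η : ℝ} (hη : 0 < η) : ∃ F : Finset ℝ,
    ∀ a b, IsGap A.L a b → η ≤ b - a → ∃ q ∈ F, ∃ k : ℤ, b = q + k := by
  classical
  obtain ⟨F, hF1, hF2⟩ := gap_finset A hη
  choose! β hβ using hF1
  refine ⟨F.image β, fun a b hab hη' => ?_⟩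
  obtain ⟨q, hq, k, rfl⟩ := hF2 a b hab hη'
  exact ⟨β q, Finset.mem_image_of_mem _ hq, k, hab.eq_of_left ((hβ q hq).add_int A k)⟩

lemma sumB_finset (A : Sys) {x W η : ℝ} (hW : A.SumB x W) (hη : 0 < η) : ∃ F : Finset ℝ,
    ∀ g ∈ A.G, η ≤ deriv (⇑g) x → ∃ q ∈ F, ∃ k : ℤ, g x = q + k := by
  classical
  obtain ⟨s, ⟨hs1, hs2⟩, hmax⟩ := Fam_max (N := ⌈W / η⌉₊)
    (fun s : Finset (Equiv.Perm ℝ) => (∀ g ∈ s, g ∈ A.G ∧ η ≤ deriv (⇑g) x) ∧
      ∀ g ∈ s, ∀ h ∈ s, g ≠ h → ∀ k : ℤ, g x ≠ h x + k)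
    ⟨fun q hq => absurd hq (Finset.notMem_empty q), fun q hq => absurd hq (Finset.notMem_empty q)⟩
    (by
      rintro s ⟨h1, h2⟩
      have h3 := hW s (fun g hg => (h1 g hg).1) h2
      have h4 : (s.card : ℝ) * η ≤ ∑ g ∈ s, deriv (⇑g) x := by
        rw [← nsmul_eq_mul]
        exact Finset.card_nsmul_le_sum s _ η fun g hg => (h1 g hg).2
      have h5 : (s.card : ℝ) ≤ W / η := by
        rw [le_div_iff₀ hη]
        linarith
      exact_mod_cast h5.trans (Nat.le_ceil _))
  refine ⟨s.image fun g => g x, fun g hg hgη => ?_⟩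
  by_contra hcon
  push Not at hcon
  have hcon' : ∀ h ∈ s, ∀ k : ℤ, g x ≠ h x + k := fun h hh k =>
    hcon (h x) (Finset.mem_image_of_mem (fun g : Equiv.Perm ℝ => g x) hh) k
  have hgs : g ∉ s := by
    intro h
    refine hcon' g h 0 ?_
    simp
  have h1 := hmax (insert g s) ⟨?_, ?_⟩
  · rw [Finset.card_insert_of_notMem hgs] at h1
    omega
  · intro q hq
    rcases Finset.mem_insert.1 hq with rfl | hq
    · exact ⟨hg, hgη⟩
    · exact hs1 q hq
  · intro q hq q' hq' hne k
    rcases Finset.mem_insert.1 hq with rfl | hq2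
    · rcases Finset.mem_insert.1 hq' with rfl | hq2'
      · exact absurd rfl hne
      · exact hcon' q' hq2' k
    · rcases Finset.mem_insert.1 hq' with rfl | hq2'
      · intro h
        refine hcon' q hq2 (-k) ?_
        rw [h]
        push_cast
        ring
      · exact hs2 q hq2 q' hq2' hne k

end Pool.Agent.H42.EM
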