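/-
MINI : consequences of minimality.

PROOFS (A : Sys, L = A.L, G = A.G).
* dense_orbit: K = closure (G·x).  K ⊆ L (L closed, invariant), closed, nonempty, invariant (each g is
  continuous), so K = L ∋ y.
* inf_orbit: suppose every g x is y + k for some y ∈ F, k ∈ ℤ.  Then K = G·x is contained in F + ℤ, a closed
  discrete set; every subset of F + ℤ is closed (locally finite), so K is a nonempty closed invariant subset of
  L, so K = L, and L ∩ Ico 0 1 ⊆ (F + ℤ) ∩ Ico 0 1 is finite: contradiction with A.infi.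
* perfect: K = {x ∈ L | x is not isolated in L} (= derived set of L, e.g. {x | AccPt x (𝓟 L)}) is closed,
  invariant (homeomorphisms), contained in L, and nonempty: L ∩ Icc 0 1 is an infinite subset of a compact set
  (Set.Infinite.exists_accPt_of_subset_isCompact).  So K = L.
* nowhere: K = frontier L is closed, contained in L, invariant (homeomorphisms preserving L preserve the
  frontier); nonempty since L ≠ ∅, L ≠ univ and ℝ is connected.  So K = L: interior L = ∅.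
* exists_gap: a = sSup (L ∩ Iic t), b = sInf (L ∩ Ici t) : both sets are nonempty (L is nonempty and invariant
  under integer translations), closed, so a, b ∈ L.
* gap_between: choose t ∈ Ioo x y not in L (nowhere) and take the gap around t.
* acc: perfect.
-/
import Mathlib
import Pool.Agent.H42.EM.Gap

set_option autoImplicit false

namespace Pool.Agent.H42.EM

open Set

lemma Mini_closure_orbit (A : Sys) {x : ℝ} (hx : x ∈ A.L) :
    closure {z : ℝ | ∃ g ∈ A.G, z = g x} = A.L := by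
  refine A.mini _ ?_ isClosed_closure ?_ ?_
  · refine closure_minimal ?_ A.closed
    rintro z ⟨g, hg, rfl⟩
    exact (A.mem_iff hg x).2 hx
  · exact ⟨x, subset_closure ⟨1, A.G.one_mem, rfl⟩⟩
  · intro g hg
    refine (image_closure_subset_closure_image (A.good hg).cont).trans (closure_mono ?_)
    rintro _ ⟨z, ⟨h, hh, rfl⟩, rfl⟩
    exact ⟨g * h, A.G.mul_mem hg hh, rfl⟩

lemma Sys.dense_orbit (A : Sys) {x y : ℝ} (hx : x ∈ A.L) (hy : y ∈ A.L) {ε : ℝ} (hε : 0 < ε) :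
    ∃ g ∈ A.G, |g x - y| < ε := by
  rw [← Mini_closure_orbit A hx] at hy
  obtain ⟨z, ⟨g, hg, rfl⟩, hz⟩ := Metric.mem_closure_iff.1 hy ε hε
  refine ⟨g, hg, ?_⟩
  rw [Real.dist_eq, abs_sub_comm] at hz
  exact hz

lemma Mini_finite (y : ℝ) : {z : ℝ | z ∈ Ioo (-1 : ℝ) 2 ∧ ∃ k : ℤ, z = y + k}.Finite := by
  refine ((Set.finite_Icc ⌊-1 - y⌋ ⌈2 - y⌉).image fun k : ℤ => y + k).subset ?_
  rintro z ⟨⟨h1, h2⟩, k, rfl⟩
  refine ⟨k, ⟨?_, ?_⟩, rfl⟩
  · have h3 : (⌊-1 - y⌋ : ℝ) ≤ -1 - y := Int.floor_le _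
    have h4 : (⌊-1 - y⌋ : ℝ) ≤ (k : ℝ) := by linarith
    exact_mod_cast h4
  · have h3 : 2 - y ≤ (⌈2 - y⌉ : ℝ) := Int.le_ceil _
    have h4 : (k : ℝ) ≤ (⌈2 - y⌉ : ℝ) := by linarith
    exact_mod_cast h4

lemma Sys.inf_orbit (A : Sys) {x : ℝ} (hx : x ∈ A.L) (F : Finset ℝ) :
    ∃ g ∈ A.G, ∀ y ∈ F, ∀ k : ℤ, g x ≠ y + k := by
  by_contra hcon
  push Not at hcon
  have hfin : (⋃ y ∈ F, {z : ℝ | z ∈ Ioo (-1 : ℝ) 2 ∧ ∃ k : ℤ, z = y + k}).Finite :=
    F.finite_toSet.biUnion fun y _ => Mini_finite y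
  refine A.infi (hfin.subset ?_)
  rintro z ⟨hz, hz0, hz1⟩
  rw [← Mini_closure_orbit A hx] at hz
  have h1 : z ∈ Ioo (-1 : ℝ) 2 ∩ closure {z : ℝ | ∃ g ∈ A.G, z = g x} :=
    ⟨⟨by linarith, by linarith⟩, hz⟩
  have h2 := isOpen_Ioo.inter_closure h1
  have h3 : Ioo (-1 : ℝ) 2 ∩ {z : ℝ | ∃ g ∈ A.G, z = g x} ⊆
      ⋃ y ∈ F, {z : ℝ | z ∈ Ioo (-1 : ℝ) 2 ∧ ∃ k : ℤ, z = y + k} := by
    rintro w ⟨hw, g, hg, rfl⟩
    obtain ⟨y, hy, k, hk⟩ := hcon g hg
    exact mem_biUnion hy ⟨hw, k, hk⟩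
  exact closure_minimal h3 hfin.isClosed h2

lemma Sys.perfect (A : Sys) {x : ℝ} (hx : x ∈ A.L) {ε : ℝ} (hε : 0 < ε) :
    ∃ y ∈ A.L, y ≠ x ∧ |y - x| < ε := by
  have hK : derivedSet A.L = A.L := by
    refine A.mini _ ((isClosed_iff_derivedSet_subset _).1 A.closed) (isClosed_derivedSet _) ?_ ?_
    · obtain ⟨z, _, hz⟩ := A.infi.exists_accPt_of_subset_isCompact (isCompact_Icc (a := (0 : ℝ))
        (b := 1)) fun z hz => ⟨hz.2.1, hz.2.2.le⟩
      exact ⟨z, hz.mono (Filter.principal_mono.2 inter_subset_left)⟩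
    · rintro g hg _ ⟨z, hz, rfl⟩
      have h1 : AccPt (g z) (Filter.map g (Filter.principal A.L)) :=
        AccPt.map hz (A.good hg).cont.continuousAt g.injective
      rw [Filter.map_principal] at h1
      exact h1.mono (Filter.principal_mono.2 (A.inv g hg))
  rw [← hK] at hx
  obtain ⟨y, ⟨hy1, hy2⟩, hy3⟩ := accPt_iff_nhds.1 hx (Metric.ball x ε) (Metric.ball_mem_nhds x hε)
  refine ⟨y, hy2, hy3, ?_⟩
  rwa [Metric.mem_ball, Real.dist_eq] at hy1

lemma Sys.nowhere (A : Sys) {a b : ℝ} (hab : a < b) : ∃ t ∈ Ioo a b, t ∉ A.L := by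
  by_contra hcon
  push Not at hcon
  have hK : frontier A.L = A.L := by
    refine A.mini _ A.closed.frontier_subset isClosed_frontier ?_ ?_
    · rw [nonempty_iff_ne_empty]
      intro he
      rcases isClopen_iff.1 (isClopen_iff_frontier_eq_empty.2 he) with h | h
      · exact A.ne.ne_empty h
      · exact A.nuniv h
    · intro g hg
      have hg' : g⁻¹ ∈ A.G := A.G.inv_mem hg
      let e : ℝ ≃ₜ ℝ := { g with
        continuous_toFun := (A.good hg).cont
        continuous_invFun := (A.good hg').cont }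
      have he : ∀ z, e z = g z := fun _ => rfl
      have h1 : ⇑g '' A.L = A.L := by
        refine Subset.antisymm (A.inv g hg) fun z hz => ⟨g⁻¹ z, (A.mem_iff hg' z).2 hz, ?_⟩
        simp
      have h2 : ⇑e '' frontier A.L = frontier (⇑e '' A.L) := e.image_frontier A.L
      have h3 : ⇑e '' A.L = A.L := h1
      rw [h3] at h2
      exact h2.le
  have hm : (a + b) / 2 ∈ Ioo a b := ⟨by linarith, by linarith⟩
  have h1 : (a + b) / 2 ∈ interior A.L :=
    interior_maximal hcon isOpen_Ioo hm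
  have h2 : (a + b) / 2 ∈ frontier A.L := by
    rw [hK]
    exact hcon _ hm
  exact disjoint_interior_frontier.le_bot ⟨h1, h2⟩

lemma Sys.exists_gap (A : Sys) {t : ℝ} (ht : t ∉ A.L) : ∃ a b, IsGap A.L a b ∧ t ∈ Ioo a b := by
  obtain ⟨l, hl⟩ := A.ne
  have hn1 : (A.L ∩ Iic t).Nonempty := by
    refine ⟨l + (⌊t - l⌋ : ℤ), (A.mem_add_int l _).2 hl, ?_⟩
    have := Int.floor_le (t - l)
    rw [mem_Iic]
    linarith
  have hn2 : (A.L ∩ Ici t).Nonempty := by
    refine ⟨l + (⌈t - l⌉ : ℤ), (A.mem_add_int l _).2 hl, ?_⟩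
    have := Int.le_ceil (t - l)
    rw [mem_Ici]
    linarith
  have hb1 : BddAbove (A.L ∩ Iic t) := ⟨t, fun z hz => hz.2⟩
  have hb2 : BddBelow (A.L ∩ Ici t) := ⟨t, fun z hz => hz.2⟩
  have ha := (A.closed.inter isClosed_Iic).csSup_mem hn1 hb1
  have hb := (A.closed.inter isClosed_Ici).csInf_mem hn2 hb2
  have hat : sSup (A.L ∩ Iic t) < t := lt_of_le_of_ne ha.2 fun h => ht (h ▸ ha.1)
  have hbt : t < sInf (A.L ∩ Ici t) := lt_of_le_of_ne hb.2 fun h => ht (h ▸ hb.1)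
  refine ⟨_, _, ⟨hat.trans hbt, ha.1, hb.1, fun s hs hsL => ?_⟩, hat, hbt⟩
  rcases le_total s t with h | h
  · exact absurd (le_csSup hb1 ⟨hsL, h⟩) (not_le.2 hs.1)
  · exact absurd (csInf_le hb2 ⟨hsL, h⟩) (not_le.2 hs.2)

lemma Sys.gap_between (A : Sys) {x y : ℝ} (hx : x ∈ A.L) (hy : y ∈ A.L) (hxy : x < y) :
    ∃ a b, IsGap A.L a b ∧ x ≤ a ∧ b ≤ y := by
  obtain ⟨t, ht, htL⟩ := A.nowhere hxy
  obtain ⟨a, b, hab, hta, htb⟩ := A.exists_gap htL
  refine ⟨a, b, hab, ?_, ?_⟩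
  · by_contra h
    exact hab.2.2.2 x ⟨not_le.1 h, ht.1.trans htb⟩ hx
  · by_contra h
    exact hab.2.2.2 y ⟨hta.trans ht.2, not_le.1 h⟩ hy

/-- at every point of `L` the set accumulates from the right or from the left -/
lemma Mini_acc (A : Sys) {x : ℝ} (hx : x ∈ A.L) :
    AccR A.L x ∨ ∀ δ > 0, ∃ t ∈ Ioo (x - δ) x, t ∈ A.L := by
  by_contra hcon
  unfold AccR at hcon
  push Not at hcon
  obtain ⟨⟨δ₁, h1, h1'⟩, δ₂, h2, h2'⟩ := hcon
  obtain ⟨y, hy, hne, hd⟩ := A.perfect hx (lt_min h1 h2)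
  have hd1 := hd.trans_le (min_le_left _ _)
  have hd2 := hd.trans_le (min_le_right _ _)
  rw [abs_lt] at hd1 hd2
  rcases lt_or_gt_of_ne hne with h | h
  · exact h2' y ⟨by linarith, h⟩ hy
  · exact h1' y ⟨h, by linarith⟩ hy

/-- a right endpoint of a gap is accumulated from the right -/
lemma Sys.accR_of_gap (A : Sys) {a b : ℝ} (h : IsGap A.L a b) : AccR A.L b := by
  rcases Mini_acc A h.2.2.1 with h1 | h1
  · exact h1
  · obtain ⟨t, ht, htL⟩ := h1 (b - a) (by linarith [h.1])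
    exact absurd htL (h.2.2.2 t ⟨by linarith [ht.1], ht.2⟩)

/-- at every point of `L` the set accumulates from the right or from the left -/
lemma Sys.acc (A : Sys) {x : ℝ} (hx : x ∈ A.L) :
    AccR A.L x ∨ ∀ δ > 0, ∃ t ∈ Ioo (x - δ) x, t ∈ A.L := Mini_acc A hx

end Pool.Agent.H42.EM
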