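/-
PTH : paths.

PROOFS.
* Path.mem: induction on i, Sys.S_mem.
* Eqv.refl / symm / trans: obvious.  Eqv.mul: if s is Good then s (a z) = s (b z + k) = s (b z) + k.
* exists_path: Subgroup.closure_induction gives trouble for products; use instead
  Subgroup.closure_induction_left-type induction (`Subgroup.closure_induction_left`): the set of g of the form
  T^k * w n is stable under left multiplication by T^{±1} (T^{±1} T^k = T^{k±1}) and by (A.f i)^{±1} =: s
  (s * (T^k * w n) = T^k * (s * w n) by Good.commT, and the path is extended by one step: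
  w' i = w i for i ≤ n, w' i = s * w n for i > n).
* min_path: among all (n, w) with A.Path n w and Eqv Z (w n) g (nonempty by exists_path: T^k does not matter)
  take n minimal (Nat.find).  If i < j ≤ n and Eqv Z (w i) (w j), then the shorter path
  w' l = w l for l ≤ i, w' (i + m) = (w (j + m) * (w j)⁻¹) * w i for 0 ≤ m ≤ n - j  (length n - (j - i))
  ends at w' = u * w i where u = w n * (w j)⁻¹ is a product of generators, and Eqv Z (u * w i) (u * w j) = w n
  (Eqv.mul, u is Good), contradiction.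
* long_path: suppose x ∈ L, N given.  The set F of all w n x with n ≤ N and A.Path n w is finite: prove by
  induction on n that {w n x | A.Path n w} is finite (it is the union over s ∈ S (finite set) of the images
  under s of the previous one).  By Sys.inf_orbit there is g ∈ G with g x ≠ y + k for y ∈ F.  Let (n, w) be
  given by min_path for Z = {x}.  Then n > N (else w n x ∈ F), and the restriction to length N works.
-/
import Mathlib
import Pool.Agent.H42.EM.Mini

set_option autoImplicit false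

namespace Pool.Agent.H42.EM

open Set

lemma Sys.Path.mem {A : Sys} {n : ℕ} {w : ℕ → Equiv.Perm ℝ} (hw : A.Path n w) {i : ℕ} (hi : i ≤ n) :
    w i ∈ A.G := by
  induction i with
  | zero => rw [hw.1]; exact one_mem _
  | succ i ih =>
    obtain ⟨s, hs, he⟩ := hw.2 i (by omega)
    rw [he]
    exact mul_mem (A.S_mem hs) (ih (by omega))

lemma Sys.Path.mono {A : Sys} {n m : ℕ} {w : ℕ → Equiv.Perm ℝ} (hw : A.Path n w) (h : m ≤ n) :
    A.Path m w := by
  exact ⟨hw.1, fun i hi => hw.2 i (by omega)⟩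

lemma Eqv.refl (Z : Set ℝ) (a : Equiv.Perm ℝ) : Eqv Z a a := by
  exact ⟨0, fun z _ => by simp⟩

lemma Eqv.symm {Z : Set ℝ} {a b : Equiv.Perm ℝ} (h : Eqv Z a b) : Eqv Z b a := by
  obtain ⟨k, hk⟩ := h
  refine ⟨-k, fun z hz => ?_⟩
  rw [hk z hz]
  push_cast
  ring

lemma Eqv.trans {Z : Set ℝ} {a b c : Equiv.Perm ℝ} (h : Eqv Z a b) (h' : Eqv Z b c) : Eqv Z a c := by
  obtain ⟨k, hk⟩ := h
  obtain ⟨l, hl⟩ := h'
  refine ⟨k + l, fun z hz => ?_⟩
  rw [hk z hz, hl z hz]
  push_cast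
  ring

lemma Eqv.mul {Z : Set ℝ} {a b s : Equiv.Perm ℝ} (hs : Good s) (h : Eqv Z a b) :
    Eqv Z (s * a) (s * b) := by
  obtain ⟨k, hk⟩ := h
  refine ⟨k, fun z hz => ?_⟩
  rw [Equiv.Perm.mul_apply, Equiv.Perm.mul_apply, hk z hz, hs.add_int]

private lemma Pth_ext {A : Sys} {n : ℕ} {w : ℕ → Equiv.Perm ℝ} (hw : A.Path n w)
    {s : Equiv.Perm ℝ} (hs : s ∈ A.S) :
    A.Path (n + 1) (fun i => if i ≤ n then w i else s * w n) := by
  refine ⟨by simp [hw.1], ?_⟩
  intro i hi
  rcases Nat.lt_or_ge i n with h | h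
  · obtain ⟨t, ht, he⟩ := hw.2 i h
    refine ⟨t, ht, ?_⟩
    simp only [if_pos (show i + 1 ≤ n by omega), if_pos (show i ≤ n by omega)]
    exact he
  · have hi' : i = n := by omega
    subst hi'
    refine ⟨s, hs, ?_⟩
    simp

lemma Sys.exists_path (A : Sys) {g : Equiv.Perm ℝ} (hg : g ∈ A.G) :
    ∃ (n : ℕ) (w : ℕ → Equiv.Perm ℝ) (k : ℤ), A.Path n w ∧ g = T ^ k * w n := by
  induction hg using Subgroup.closure_induction_left with
  | one => exact ⟨0, fun _ => 1, 0, ⟨rfl, fun i hi => absurd hi (Nat.not_lt_zero i)⟩, by simp⟩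
  | mul_left x hx y hy ih =>
    obtain ⟨n, w, k, hw, rfl⟩ := ih
    rcases hx with rfl | ⟨i, rfl⟩
    · refine ⟨n, w, 1 + k, hw, ?_⟩
      rw [zpow_add, zpow_one, mul_assoc]
    · refine ⟨n + 1, _, k, Pth_ext hw ⟨i, Or.inl rfl⟩, ?_⟩
      rw [if_neg (by omega), ← mul_assoc, ← mul_assoc, (A.hf i).commT k]
  | inv_mul_cancel x hx y hy ih =>
    obtain ⟨n, w, k, hw, rfl⟩ := ih
    rcases hx with rfl | ⟨i, rfl⟩
    · refine ⟨n, w, -1 + k, hw, ?_⟩
      rw [zpow_add, zpow_neg_one, mul_assoc]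
    · refine ⟨n + 1, _, k, Pth_ext hw ⟨i, Or.inr rfl⟩, ?_⟩
      rw [if_neg (by omega), ← mul_assoc, ← mul_assoc, (A.hf i).inv.commT k]

lemma Sys.min_path (A : Sys) (Z : Set ℝ) {g : Equiv.Perm ℝ} (hg : g ∈ A.G) :
    ∃ (n : ℕ) (w : ℕ → Equiv.Perm ℝ), A.Path n w ∧ Eqv Z (w n) g ∧
      ∀ i j, i < j → j ≤ n → ¬ Eqv Z (w i) (w j) := by
  classical
  have hex : ∃ n : ℕ, ∃ w : ℕ → Equiv.Perm ℝ, A.Path n w ∧ Eqv Z (w n) g := by
    obtain ⟨n, w, k, hw, rfl⟩ := A.exists_path hg
    refine ⟨n, w, hw, -k, fun z _ => ?_⟩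
    rw [Equiv.Perm.mul_apply, T_zpow]
    push_cast
    ring
  obtain ⟨w, hw, he⟩ := Nat.find_spec hex
  refine ⟨Nat.find hex, w, hw, he, ?_⟩
  intro i j hij hj hE
  have hmin := fun m hm => Nat.find_min hex (m := m) hm
  generalize Nat.find hex = n at hw he hj hmin
  refine hmin (n - (j - i)) (by omega)
    ⟨fun l => if l < i then w l else w (l - i + j) * (w j)⁻¹ * w i, ⟨?_, ?_⟩, ?_⟩
  · rcases Nat.eq_zero_or_pos i with h0 | h0
    · subst h0
      simp [hw.1]
    · simp only [h0, if_true]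
      exact hw.1
  · intro l hl
    rcases lt_trichotomy (l + 1) i with h1 | h1 | h1
    · obtain ⟨s, hs, h2⟩ := hw.2 l (by omega)
      refine ⟨s, hs, ?_⟩
      simp only [if_pos h1, if_pos (show l < i by omega)]
      exact h2
    · obtain ⟨s, hs, h2⟩ := hw.2 l (by omega)
      refine ⟨s, hs, ?_⟩
      simp only [if_neg (show ¬ l + 1 < i by omega), if_pos (show l < i by omega)]
      rw [← h2, h1, Nat.sub_self, Nat.zero_add, mul_inv_cancel, one_mul]
    · obtain ⟨s, hs, h2⟩ := hw.2 (l - i + j) (by omega)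
      refine ⟨s, hs, ?_⟩
      simp only [if_neg (show ¬ l + 1 < i by omega), if_neg (show ¬ l < i by omega)]
      rw [show l + 1 - i + j = l - i + j + 1 by omega, h2, mul_assoc, mul_assoc, mul_assoc]
  · simp only [if_neg (show ¬ n - (j - i) < i by omega)]
    rw [show n - (j - i) - i + j = n by omega]
    have hu : Good (w n * (w j)⁻¹) := A.good (mul_mem (hw.mem le_rfl) (inv_mem (hw.mem hj)))
    have h3 := Eqv.mul hu hE
    rw [inv_mul_cancel_right] at h3
    exact h3.trans he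

lemma Sys.long_path (A : Sys) {x : ℝ} (hx : x ∈ A.L) (N : ℕ) :
    ∃ w : ℕ → Equiv.Perm ℝ, A.Path N w ∧ ∀ i j, i < j → j ≤ N → ∀ k : ℤ, w i x ≠ w j x + k := by
  classical
  have hS : A.S.Finite := by
    refine ((Set.finite_range A.f).union (Set.finite_range fun i => (A.f i)⁻¹)).subset ?_
    rintro s ⟨i, rfl | rfl⟩
    · exact Or.inl ⟨i, rfl⟩
    · exact Or.inr ⟨i, rfl⟩
  have hF : ∀ n : ℕ, {y : ℝ | ∃ w, A.Path n w ∧ y = w n x}.Finite := by
    intro n
    induction n with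
    | zero =>
      refine (Set.finite_singleton x).subset ?_
      rintro y ⟨w, hw, rfl⟩
      rw [hw.1]
      rfl
    | succ n ih =>
      refine (Set.Finite.image2 (fun (s : Equiv.Perm ℝ) (y : ℝ) => s y) hS ih).subset ?_
      rintro y ⟨w, hw, rfl⟩
      obtain ⟨s, hs, h2⟩ := hw.2 n (by omega)
      refine ⟨s, hs, w n x, ⟨w, hw.mono (by omega), rfl⟩, ?_⟩
      rw [h2]
      rfl
  have hU : (⋃ n ∈ Set.Iic N, {y : ℝ | ∃ w, A.Path n w ∧ y = w n x}).Finite :=
    (Set.finite_Iic N).biUnion fun n _ => hF n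
  obtain ⟨g, hg, hgx⟩ := A.inf_orbit hx hU.toFinset
  obtain ⟨n, w, hw, ⟨k, hk⟩, hm⟩ := A.min_path {x} hg
  have hn : N < n := by
    by_contra hcon
    have hmem : w n x ∈ hU.toFinset := by
      rw [Set.Finite.mem_toFinset]
      exact Set.mem_iUnion₂.2 ⟨n, not_lt.1 hcon, w, hw, rfl⟩
    refine hgx _ hmem (-k) ?_
    have := hk x rfl
    rw [this]
    push_cast
    ring
  refine ⟨w, hw.mono hn.le, fun i j hij hj k' hk' => hm i j hij (by omega) ⟨k', ?_⟩⟩
  intro z hz
  rw [show z = x from hz]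
  exact hk'

end Pool.Agent.H42.EM
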