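/-
CTR : control of distortion along paths.

PROOFS.
* lip_path: induction on i: log (w (i+1))' u = log s' (w i u) + log (w i)' u  (Good.deriv_mul, Real.log_mul),
  A.LipS M gives |log s'(w i u) - log s'(w i v)| ≤ M |w i u - w i v|.
* ctrl: strong induction on i ≤ n: for l < i the oscillation bound holds, so w l β - w l α ≤ c l; for
  u, v ∈ [α, β] we have |w l u - w l v| ≤ w l β - w l α (monotone), so by lip_path
  |log - log| ≤ M ∑_{l<i} c l ≤ E.
* osc_deriv_le / osc_le_deriv: if log g' oscillates by at most E on [α, β], x, u ≤ v ∈ [α, β], then by the mean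
  value theorem g v - g u = g'(ξ) (v - u) and e^{-E} g'(x) ≤ g'(ξ) ≤ e^E g'(x)   (case u = v trivial).
* osc_ratio: (g v - g u) (v' - u') ≤ e^E (g v' - g u') (v - u): two mean values ξ, ξ' with g'(ξ) ≤ e^E g'(ξ').
-/
import Mathlib
import Pool.Agent.H42.EM.Pth

set_option autoImplicit false

namespace Pool.Agent.H42.EM

open Set

/-- the logarithm of the derivative of `g` oscillates by at most `E` on `[α, β]` -/
def Osc (g : Equiv.Perm ℝ) (α β E : ℝ) : Prop :=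
  ∀ u ∈ Icc α β, ∀ v ∈ Icc α β, |Real.log (deriv (⇑g) u) - Real.log (deriv (⇑g) v)| ≤ E

lemma lip_path {A : Sys} {M : ℝ} (hM : A.LipS M) {n : ℕ} {w : ℕ → Equiv.Perm ℝ} (hw : A.Path n w)
    {i : ℕ} (hi : i ≤ n) (u v : ℝ) :
    |Real.log (deriv (⇑(w i)) u) - Real.log (deriv (⇑(w i)) v)|
      ≤ M * ∑ l ∈ Finset.range i, |w l u - w l v| := by
  induction i with
  | zero =>
    have h1 : (⇑(1 : Equiv.Perm ℝ)) = id := rfl
    rw [hw.1, h1]
    simp
  | succ i ih =>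
    obtain ⟨s, hs, he⟩ := hw.2 i (by omega)
    have hi' : i ≤ n := by omega
    have gs : Good s := A.good (A.S_mem hs)
    have gw : Good (w i) := A.good (hw.mem hi')
    have h1 := ih hi'
    have h2 := hM.2 s hs (w i u) (w i v)
    rw [he, gs.deriv_mul gw, gs.deriv_mul gw, Real.log_mul (gs.pos _).ne' (gw.pos _).ne',
      Real.log_mul (gs.pos _).ne' (gw.pos _).ne', Finset.sum_range_succ, mul_add]
    have h3 : Real.log (deriv (⇑s) (w i u)) + Real.log (deriv (⇑(w i)) u)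
        - (Real.log (deriv (⇑s) (w i v)) + Real.log (deriv (⇑(w i)) v))
        = (Real.log (deriv (⇑(w i)) u) - Real.log (deriv (⇑(w i)) v))
          + (Real.log (deriv (⇑s) (w i u)) - Real.log (deriv (⇑s) (w i v))) := by ring
    rw [h3]
    exact (abs_add_le _ _).trans (add_le_add h1 h2)

lemma ctrl {A : Sys} {M : ℝ} (hM : A.LipS M) {n : ℕ} {w : ℕ → Equiv.Perm ℝ} (hw : A.Path n w)
    {α β E : ℝ} (hαβ : α ≤ β) (c : ℕ → ℝ)
    (hc : ∀ i, i < n → Osc (w i) α β E → w i β - w i α ≤ c i)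
    (hsum : ∀ i, i ≤ n → M * ∑ l ∈ Finset.range i, c l ≤ E) :
    ∀ i, i ≤ n → Osc (w i) α β E := by
  intro i
  induction i using Nat.strong_induction_on with
  | _ i ih =>
    intro hi u hu v hv
    refine (lip_path hM hw hi u v).trans (le_trans ?_ (hsum i hi))
    refine mul_le_mul_of_nonneg_left (Finset.sum_le_sum fun l hl => ?_) hM.1
    have hl' : l < i := Finset.mem_range.1 hl
    have gw : Good (w l) := A.good (hw.mem (by omega))
    have h1 := hc l (by omega) (ih l hl' (by omega))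
    have m1 : w l α ≤ w l u := gw.mono.monotone hu.1
    have m2 : w l u ≤ w l β := gw.mono.monotone hu.2
    have m3 : w l α ≤ w l v := gw.mono.monotone hv.1
    have m4 : w l v ≤ w l β := gw.mono.monotone hv.2
    rw [abs_le]
    constructor <;> linarith

private lemma Ctr_cmp {g : Equiv.Perm ℝ} (hg : Good g) {α β E : ℝ} (h : Osc g α β E) {ξ x : ℝ}
    (hξ : ξ ∈ Icc α β) (hx : x ∈ Icc α β) :
    deriv (⇑g) ξ ≤ Real.exp E * deriv (⇑g) x := by
  have h1 := (abs_le.1 (h ξ hξ x hx)).2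
  have h2 : Real.log (deriv (⇑g) ξ) ≤ E + Real.log (deriv (⇑g) x) := by linarith
  have h3 := Real.exp_le_exp.2 h2
  rwa [Real.exp_add, Real.exp_log (hg.pos _), Real.exp_log (hg.pos _)] at h3

lemma osc_deriv_le {g : Equiv.Perm ℝ} (hg : Good g) {α β E : ℝ} (h : Osc g α β E) {x u v : ℝ}
    (hx : x ∈ Icc α β) (hu : u ∈ Icc α β) (hv : v ∈ Icc α β) (huv : u ≤ v) :
    g v - g u ≤ Real.exp E * deriv (⇑g) x * (v - u) := by
  rcases huv.eq_or_lt with rfl | hlt
  · simp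
  · obtain ⟨ξ, hξ, h1⟩ := hg.mvt hlt
    rw [h1]
    have h2 := Ctr_cmp hg h (ξ := ξ) (x := x) ⟨hu.1.trans hξ.1.le, hξ.2.le.trans hv.2⟩ hx
    exact mul_le_mul_of_nonneg_right h2 (by linarith)

lemma osc_le_deriv {g : Equiv.Perm ℝ} (hg : Good g) {α β E : ℝ} (h : Osc g α β E) {x u v : ℝ}
    (hx : x ∈ Icc α β) (hu : u ∈ Icc α β) (hv : v ∈ Icc α β) (huv : u ≤ v) :
    deriv (⇑g) x * (v - u) ≤ Real.exp E * (g v - g u) := by
  rcases huv.eq_or_lt with rfl | hlt
  · simp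
  · obtain ⟨ξ, hξ, h1⟩ := hg.mvt hlt
    rw [h1, ← mul_assoc]
    have h2 := Ctr_cmp hg h (ξ := x) (x := ξ) hx ⟨hu.1.trans hξ.1.le, hξ.2.le.trans hv.2⟩
    exact mul_le_mul_of_nonneg_right h2 (by linarith)

lemma osc_ratio {g : Equiv.Perm ℝ} (hg : Good g) {α β E : ℝ} (h : Osc g α β E) {u v u' v' : ℝ}
    (hu : u ∈ Icc α β) (hv : v ∈ Icc α β) (huv : u ≤ v)
    (hu' : u' ∈ Icc α β) (hv' : v' ∈ Icc α β) (huv' : u' ≤ v') :
    (g v - g u) * (v' - u') ≤ Real.exp E * ((g v' - g u') * (v - u)) := by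
  rcases huv.eq_or_lt with rfl | hlt
  · simp
  · rcases huv'.eq_or_lt with rfl | hlt'
    · simp
    · obtain ⟨ξ, hξ, h1⟩ := hg.mvt hlt
      obtain ⟨ζ, hζ, h2⟩ := hg.mvt hlt'
      have h3 := Ctr_cmp hg h (ξ := ξ) (x := ζ) ⟨hu.1.trans hξ.1.le, hξ.2.le.trans hv.2⟩
        ⟨hu'.1.trans hζ.1.le, hζ.2.le.trans hv'.2⟩
      rw [h1, h2]
      have h4 : 0 ≤ (v - u) * (v' - u') := mul_nonneg (by linarith) (by linarith)
      calc deriv (⇑g) ξ * (v - u) * (v' - u') = deriv (⇑g) ξ * ((v - u) * (v' - u')) := by ring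
        _ ≤ (Real.exp E * deriv (⇑g) ζ) * ((v - u) * (v' - u')) :=
          mul_le_mul_of_nonneg_right h3 h4
        _ = Real.exp E * (deriv (⇑g) ζ * (v' - u') * (v - u)) := by ring

end Pool.Agent.H42.EM
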