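/-
SAC : Sacksteder's theorem (hyperbolic fixed points in L).

PROOFS.
* contr_fix: φ t = f t - t is strictly decreasing on [α, β] (mean value theorem, f' < 1), φ α > 0 > φ β, so f has
  a unique fixed point v ∈ (α, β).  If z ≥ v then v ≤ f z ≤ z, and (f^n z) is antitone, bounded below by v, its
  limit is a fixed point of f in [α, β], so it is v; symmetric for z ≤ v.  Since f^n z ∈ L and L is closed,
  v ∈ L.
* sacksteder.  Take M with A.LipS M and a gap (a, b) (exists: A.nuniv, exists_gap).  E := 2 * M,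
  δ := (b - a) * exp (-E) / 2 > 0, K = [a - δ, b + δ].
  (1) For N : ℕ let w be the path of length N given by long_path for the point a.  Apply ctrl with α = a - δ,
  β = b + δ, c i = 2 * (w i b - w i a):
   - if Osc (w i) α β E then (osc_ratio) each of the two side intervals [a-δ,a], [b,b+δ] has image of length
     ≤ exp E * (w i b - w i a) * δ / (b - a) = (w i b - w i a) / 2, so w i β - w i α ≤ 2 (w i b - w i a);
   - the gaps (w l a, w l b), l ≤ N, are pairwise not equal mod ℤ, so ∑ (w l b - w l a) ≤ 1 (gap_sum) and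
     M * ∑ c l ≤ 2 M = E.
   Hence Osc (w i) α β E for all i ≤ N.  Again by gap_sum over Finset.range (N + 1) there is i ≤ N with
   w i b - w i a ≤ 1 / (N + 1), and by osc_le_deriv (x = any point of K, u = a, v = b):
   deriv (w i) x ≤ exp E * (w i b - w i a) / (b - a) ≤ C / (N + 1) for all x ∈ K, C := exp E / (b - a).
  (2) So there are g_N ∈ G with deriv g_N ≤ C / (N + 1) on K.  After multiplying by a power of T, g_N a ∈ [0, 1].
  By compactness of L ∩ [0, 1] there are z ∈ L and a subsequence with g_N a → z.  By dense_orbit choose h ∈ G with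
  |h z - a| < δ / 2.  By continuity of h and of deriv h: there are η > 0 and B with |h t - h z| < δ / 2 and
  deriv h t ≤ B whenever |t - z| ≤ η.  Choose N in the subsequence with |g_N a - z| < η / 2,
  C / (N+1) * (β - α) < η / 2, B * C / (N + 1) < 1.  Then f := h * g_N maps K into (a - δ, a + δ) ⊆ interior of K
  with derivative < 1 on K.  contr_fix with z = a.
* hyp_dense: take (h, v) from sacksteder, t ∈ Ioo α β ∩ L, g ∈ G with g v ∈ Ioo α β (dense_orbit); then
  g * h * g⁻¹ fixes g v with the same derivative (Good.deriv_mul, Good.deriv_inv).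
-/
import Mathlib
import Pool.Agent.H42.EM.Ctr

set_option autoImplicit false

namespace Pool.Agent.H42.EM

open Set

lemma contr_fix (A : Sys) {f : Equiv.Perm ℝ} (hf : f ∈ A.G) {α β z : ℝ} (hz : z ∈ Icc α β)
    (hzL : z ∈ A.L) (h1 : ∀ t ∈ Icc α β, f t ∈ Ioo α β) (h2 : ∀ t ∈ Icc α β, deriv (⇑f) t < 1) :
    ∃ v ∈ A.L, v ∈ Ioo α β ∧ f v = v ∧ deriv (⇑f) v < 1 := by
  have hfg := A.good hf
  have hit : ∀ n : ℕ, (⇑f)^[n] z ∈ Icc α β ∧ (⇑f)^[n] z ∈ A.L := by
    intro n
    induction n with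
    | zero => exact ⟨hz, hzL⟩
    | succ n ih =>
      rw [Function.iterate_succ_apply']
      exact ⟨Ioo_subset_Icc_self (h1 _ ih.1), (A.mem_iff hf _).2 ih.2⟩
  have hlim : ∃ v, Filter.Tendsto (fun n => (⇑f)^[n] z) Filter.atTop (nhds v) := by
    rcases le_total (f z) z with h | h
    · refine ⟨_, tendsto_atTop_ciInf (hfg.mono.monotone.antitone_iterate_of_map_le h) ?_⟩
      exact ⟨α, by rintro _ ⟨n, rfl⟩; exact (hit n).1.1⟩
    · refine ⟨_, tendsto_atTop_ciSup (hfg.mono.monotone.monotone_iterate_of_le_map h) ?_⟩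
      exact ⟨β, by rintro _ ⟨n, rfl⟩; exact (hit n).1.2⟩
  obtain ⟨v, hv⟩ := hlim
  have hfix : f v = v := isFixedPt_of_tendsto_iterate hv hfg.cont.continuousAt
  have hvI : v ∈ Icc α β := isClosed_Icc.mem_of_tendsto hv (Filter.Eventually.of_forall fun n => (hit n).1)
  have hvL : v ∈ A.L := A.closed.mem_of_tendsto hv (Filter.Eventually.of_forall fun n => (hit n).2)
  refine ⟨v, hvL, ?_, hfix, h2 v hvI⟩
  have := h1 v hvI
  rwa [hfix] at this

lemma Sac_step (A : Sys) {M a b : ℝ} (hM : A.LipS M) (hg : IsGap A.L a b) {δ : ℝ}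
    (hδ : δ = (b - a) * Real.exp (-(2 * M)) / 2) (N : ℕ) :
    ∃ g ∈ A.G, ∀ x ∈ Icc (a - δ) (b + δ), deriv (⇑g) x ≤ Real.exp (2 * M) / (b - a) / (N + 1) := by
  obtain ⟨w, hw, hne⟩ := A.long_path hg.2.1 N
  have hab : 0 < b - a := sub_pos.2 hg.1
  have hE : Real.exp (2 * M) * δ = (b - a) / 2 := by
    rw [hδ, Real.exp_neg]; field_simp
  have hδ0 : 0 < δ := by rw [hδ]; positivity
  have hgap : ∀ i, i ≤ N → IsGap A.L (w i a) (w i b) := fun i hi => hg.image A (hw.mem hi)
  have hne' : ∀ i, i ≤ N → ∀ j, j ≤ N → i ≠ j → ∀ k : ℤ, w i a ≠ w j a + k := by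
    intro i hi j hj hij k hk
    rcases lt_or_gt_of_ne hij with h | h
    · exact hne i j h hj k hk
    · refine hne j i h hi (-k) ?_
      rw [hk]; push_cast; ring
  have hsum1 : ∀ i, i ≤ N + 1 → ∑ l ∈ Finset.range i, (w l b - w l a) ≤ 1 := by
    intro i hi
    refine gap_sum A (Finset.range i) (fun l => w l a) (fun l => w l b) ?_ ?_
    · intro l hl
      exact hgap l (by have := Finset.mem_range.1 hl; omega)
    · intro l hl m hm hlm k
      exact hne' l (by have := Finset.mem_range.1 hl; omega) m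
        (by have := Finset.mem_range.1 hm; omega) hlm k
  have hosc : ∀ i, i ≤ N → Osc (w i) (a - δ) (b + δ) (2 * M) := by
    refine ctrl hM hw (by linarith) (fun i => 2 * (w i b - w i a)) ?_ ?_
    · intro i hi ho
      have hgi := A.good (hw.mem hi.le)
      have h1 := osc_ratio hgi ho (u := a - δ) (v := a) (u' := a) (v' := b)
        ⟨le_rfl, by linarith⟩ ⟨by linarith, by linarith⟩ (by linarith)
        ⟨by linarith, by linarith⟩ ⟨by linarith, by linarith⟩ hg.1.le
      have h2 := osc_ratio hgi ho (u := b) (v := b + δ) (u' := a) (v' := b)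
        ⟨by linarith, by linarith⟩ ⟨by linarith, by linarith⟩ (by linarith)
        ⟨by linarith, by linarith⟩ ⟨by linarith, by linarith⟩ hg.1.le
      have h1' : (w i a - w i (a - δ)) * (b - a) ≤ ((w i b - w i a) / 2) * (b - a) := by
        calc (w i a - w i (a - δ)) * (b - a)
            ≤ Real.exp (2 * M) * ((w i b - w i a) * (a - (a - δ))) := h1
          _ = (w i b - w i a) * (Real.exp (2 * M) * δ) := by ring
          _ = ((w i b - w i a) / 2) * (b - a) := by rw [hE]; ring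
      have h2' : (w i (b + δ) - w i b) * (b - a) ≤ ((w i b - w i a) / 2) * (b - a) := by
        calc (w i (b + δ) - w i b) * (b - a)
            ≤ Real.exp (2 * M) * ((w i b - w i a) * (b + δ - b)) := h2
          _ = (w i b - w i a) * (Real.exp (2 * M) * δ) := by ring
          _ = ((w i b - w i a) / 2) * (b - a) := by rw [hE]; ring
      have h3 := le_of_mul_le_mul_right h1' hab
      have h4 := le_of_mul_le_mul_right h2' hab
      linarith
    · intro i hi
      have h1 := hsum1 i (by omega)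
      rw [← Finset.mul_sum]
      have h2 := mul_le_mul_of_nonneg_left h1 hM.1
      linarith
  obtain ⟨i, hi, hle⟩ : ∃ i ∈ Finset.range (N + 1), w i b - w i a ≤ 1 / ((N : ℝ) + 1) := by
    refine Finset.exists_le_of_sum_le ⟨0, Finset.mem_range.2 (by omega)⟩ ?_
    refine (hsum1 (N + 1) le_rfl).trans ?_
    rw [Finset.sum_const, Finset.card_range, nsmul_eq_mul]
    push_cast
    rw [mul_one_div_cancel (by positivity)]
  have hiN : i ≤ N := by have := Finset.mem_range.1 hi; omega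
  refine ⟨w i, hw.mem hiN, fun x hx => ?_⟩
  have h1 := osc_le_deriv (A.good (hw.mem hiN)) (hosc i hiN) (x := x) (u := a) (v := b) hx
    ⟨by linarith, by linarith⟩ ⟨by linarith, by linarith⟩ hg.1.le
  have h2 : Real.exp (2 * M) * (w i b - w i a) ≤ Real.exp (2 * M) * (1 / ((N : ℝ) + 1)) :=
    mul_le_mul_of_nonneg_left hle (Real.exp_pos _).le
  have h3 : deriv (⇑(w i)) x * (b - a) ≤ Real.exp (2 * M) * (1 / ((N : ℝ) + 1)) := h1.trans h2
  rw [← le_div_iff₀ hab] at h3
  refine h3.trans (le_of_eq ?_)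
  have : (0 : ℝ) < (N : ℝ) + 1 := by positivity
  field_simp

lemma Sac_deriv_Tz (k : ℤ) (x : ℝ) : deriv (⇑(T ^ k)) x = 1 := by
  have : (⇑(T ^ k) : ℝ → ℝ) = fun y => y + (k : ℝ) := by
    funext y; exact T_zpow k y
  rw [this]; simp

lemma Sac_step' (A : Sys) {M a b : ℝ} (hM : A.LipS M) (hg : IsGap A.L a b) {δ : ℝ}
    (hδ : δ = (b - a) * Real.exp (-(2 * M)) / 2) (N : ℕ) :
    ∃ g ∈ A.G, g a ∈ Icc (0 : ℝ) 1 ∧
      ∀ x ∈ Icc (a - δ) (b + δ), deriv (⇑g) x ≤ Real.exp (2 * M) / (b - a) / (N + 1) := by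
  obtain ⟨g, hgG, h⟩ := Sac_step A hM hg hδ N
  refine ⟨T ^ (-⌊g a⌋) * g, A.G.mul_mem (A.Tz_mem _) hgG, ?_, fun x hx => ?_⟩
  · rw [Equiv.Perm.mul_apply, T_zpow]
    push_cast
    have h1 := Int.floor_le (g a)
    have h2 := Int.lt_floor_add_one (g a)
    exact ⟨by linarith, by linarith⟩
  · rw [Good.deriv_mul (Good.zpowT _) (A.good hgG), Sac_deriv_Tz, one_mul]
    exact h x hx

lemma sacksteder (A : Sys) : ∃ h ∈ A.G, ∃ v ∈ A.L, h v = v ∧ deriv (⇑h) v < 1 := by
  obtain ⟨M, hM⟩ := A.exists_lip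
  obtain ⟨t₀, ht₀⟩ : ∃ t, t ∉ A.L := by
    by_contra hcon
    push Not at hcon
    exact A.nuniv (eq_univ_of_forall hcon)
  obtain ⟨a, b, hg, -⟩ := A.exists_gap ht₀
  have hab : 0 < b - a := sub_pos.2 hg.1
  obtain ⟨δ, hδ⟩ : ∃ δ, δ = (b - a) * Real.exp (-(2 * M)) / 2 := ⟨_, rfl⟩
  have hδ0 : 0 < δ := by rw [hδ]; positivity
  obtain ⟨C, hC⟩ : ∃ C, C = Real.exp (2 * M) / (b - a) := ⟨_, rfl⟩
  have hC0 : 0 < C := by rw [hC]; positivity
  have hstep := fun N : ℕ => Sac_step' A hM hg hδ N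
  rw [← hC] at hstep
  choose g hgG hga hgd using hstep
  obtain ⟨z, hz, φ, hφ, hlim⟩ := isCompact_Icc.tendsto_subseq hga
  have hzL : z ∈ A.L := A.closed.mem_of_tendsto hlim
    (Filter.Eventually.of_forall fun n => (A.mem_iff (hgG _) _).2 hg.2.1)
  obtain ⟨h, hh, hhz⟩ := A.dense_orbit hzL hg.2.1 (half_pos hδ0)
  have hhg := A.good hh
  obtain ⟨η1, hη1, hc1⟩ := Metric.continuous_iff.1 hhg.cont z (δ / 2) (half_pos hδ0)
  obtain ⟨η2, hη2, hc2⟩ := Metric.continuous_iff.1 hhg.contDeriv z 1 one_pos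
  set B := deriv (⇑h) z + 1 with hB
  have hB0 : 0 < B := by have := hhg.pos z; linarith
  set η := min η1 η2 with hη
  have hη0 : 0 < η := lt_min hη1 hη2
  have hs : Filter.Tendsto (fun n => C / ((φ n : ℝ) + 1)) Filter.atTop (nhds 0) := by
    have h1 : Filter.Tendsto (fun n : ℕ => C / ((n : ℝ) + 1)) Filter.atTop (nhds 0) := by
      have := (tendsto_one_div_add_atTop_nhds_zero_nat (𝕜 := ℝ)).const_mul C
      simpa [div_eq_mul_inv] using this
    exact h1.comp hφ.tendsto_atTop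
  have e1 : ∀ᶠ n in Filter.atTop, dist (g (φ n) a) z < η / 2 :=
    (Metric.tendsto_nhds.1 hlim) (η / 2) (half_pos hη0)
  have e2 : ∀ᶠ n in Filter.atTop, C / ((φ n : ℝ) + 1) * (b + δ - (a - δ)) < η / 2 := by
    have := hs.mul_const (b + δ - (a - δ))
    rw [zero_mul] at this
    exact this.eventually (gt_mem_nhds (half_pos hη0))
  have e3 : ∀ᶠ n in Filter.atTop, B * (C / ((φ n : ℝ) + 1)) < 1 := by
    have := hs.const_mul B
    rw [mul_zero] at this
    exact this.eventually (gt_mem_nhds one_pos)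
  obtain ⟨n, hn1, hn2, hn3⟩ := (e1.and (e2.and e3)).exists
  set G := g (φ n) with hG
  have hGg : Good G := A.good (hgG _)
  set q := C / ((φ n : ℝ) + 1) with hq
  have hq0 : 0 ≤ q := by positivity
  have hdG : ∀ x ∈ Icc (a - δ) (b + δ), deriv (⇑G) x ≤ q := fun x hx => hgd _ x hx
  have hclose : ∀ t ∈ Icc (a - δ) (b + δ), |G t - G a| ≤ q * (b + δ - (a - δ)) := by
    intro t ht
    rcases lt_trichotomy t a with hlt | heq | hgt
    · obtain ⟨ξ, hξ, he⟩ := hGg.mvt hlt
      have h1 : deriv (⇑G) ξ ≤ q := hdG ξ ⟨ht.1.trans hξ.1.le, by linarith [hξ.2, hg.1]⟩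
      have h2 := hGg.pos ξ
      rw [abs_sub_comm, he, abs_of_nonneg (mul_nonneg h2.le (by linarith))]
      exact mul_le_mul h1 (by linarith [ht.1]) (by linarith) hq0
    · rw [heq, sub_self, abs_zero]
      exact mul_nonneg hq0 (by linarith)
    · obtain ⟨ξ, hξ, he⟩ := hGg.mvt hgt
      have h1 : deriv (⇑G) ξ ≤ q := hdG ξ ⟨by linarith [hξ.1], hξ.2.le.trans ht.2⟩
      have h2 := hGg.pos ξ
      rw [he, abs_of_nonneg (mul_nonneg h2.le (by linarith))]
      exact mul_le_mul h1 (by linarith [ht.2]) (by linarith) hq0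
  have hclose2 : ∀ t ∈ Icc (a - δ) (b + δ), |G t - z| < η := by
    intro t ht
    have h1 := hclose t ht
    have h2 : |G a - z| < η / 2 := by rw [← Real.dist_eq]; exact hn1
    have h3 : |G t - z| ≤ |G t - G a| + |G a - z| := abs_sub_le _ _ _
    linarith
  obtain ⟨v, hvL, -, hv2, hv3⟩ := contr_fix A (f := h * G) (A.G.mul_mem hh (hgG _))
    (α := a - δ) (β := b + δ) (z := a) ⟨by linarith, by linarith⟩ hg.2.1 (by
      intro t ht
      have h1 := hclose2 t ht
      have h2 : |h (G t) - h z| < δ / 2 := by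
        rw [← Real.dist_eq]
        exact hc1 _ (by rw [Real.dist_eq]; exact h1.trans_le (min_le_left _ _))
      have h3 : |h (G t) - a| < δ := by
        have h3 : |h (G t) - a| ≤ |h (G t) - h z| + |h z - a| := abs_sub_le _ _ _
        linarith
      rw [abs_lt] at h3
      rw [Equiv.Perm.mul_apply]
      exact ⟨by linarith, by linarith⟩) (by
      intro t ht
      have h1 := hclose2 t ht
      have h2 : |deriv (⇑h) (G t) - deriv (⇑h) z| < 1 := by
        rw [← Real.dist_eq]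
        exact hc2 _ (by rw [Real.dist_eq]; exact h1.trans_le (min_le_right _ _))
      rw [abs_lt] at h2
      rw [Good.deriv_mul hhg hGg]
      have h3 : deriv (⇑h) (G t) ≤ B := by rw [hB]; linarith
      have h4 := hdG t ht
      calc deriv (⇑h) (G t) * deriv (⇑G) t ≤ B * q :=
            mul_le_mul h3 h4 (hGg.pos t).le hB0.le
        _ < 1 := hn3)
  exact ⟨h * G, A.G.mul_mem hh (hgG _), v, hvL, hv2, hv3⟩

lemma hyp_dense (A : Sys) {α β : ℝ} (hex : ∃ t ∈ Ioo α β, t ∈ A.L) :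
    ∃ h ∈ A.G, ∃ v ∈ A.L, v ∈ Ioo α β ∧ h v = v ∧ deriv (⇑h) v < 1 := by
  obtain ⟨h, hh, v, hv, hfix, hd⟩ := sacksteder A
  obtain ⟨t, ht, htL⟩ := hex
  obtain ⟨g, hg, hgv⟩ := A.dense_orbit hv htL (ε := min (t - α) (β - t))
    (lt_min (by linarith [ht.1]) (by linarith [ht.2]))
  have hgg := A.good hg
  have hhg := A.good hh
  refine ⟨g * h * g⁻¹, A.G.mul_mem (A.G.mul_mem hg hh) (A.G.inv_mem hg), g v,
    (A.mem_iff hg v).2 hv, ?_, ?_, ?_⟩
  · rw [abs_lt] at hgv
    have h1 := min_le_left (t - α) (β - t)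
    have h2 := min_le_right (t - α) (β - t)
    exact ⟨by linarith, by linarith⟩
  · have hi : g⁻¹ (g v) = v := by simp
    rw [Equiv.Perm.mul_apply, Equiv.Perm.mul_apply, hi, hfix]
  · have hi : g⁻¹ (g v) = v := by simp
    rw [Good.deriv_mul (hgg.mul hhg) hgg.inv, Good.deriv_mul hgg hhg, hgg.deriv_inv, hi, hfix]
    have h1 := hgg.pos v
    rw [mul_comm (deriv (⇑g) v) (deriv (⇑h) v), mul_assoc, mul_inv_cancel₀ h1.ne', mul_one]
    exact hd

end Pool.Agent.H42.EM
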