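/-
FIX : the finite index lemma.

PROOF of finite_index (A : Sys, α ∈ L, (α, β) meets L, and for every η > 0 the points g α with g β - g α ≥ η
take only finitely many values mod ℤ).  Then False.
* contr_nbhd: if h ∈ G, h v = v, deriv h v < 1, v ∈ Ioo α β, there is r > 0 with [v - r, v + r] ⊆ Ioo α β,
  deriv h ≤ c < 1 on [v - r, v + r] (continuity); so h^j maps [v - r, v + r] into [v - c^j r, v + c^j r].
* (i) fix_of_hyp: every h ∈ G with a fixed point v ∈ Ioo α β, deriv h v < 1, satisfies h α = α.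
  Proof: for j : ℕ, (h^j)⁻¹ [α, β] ⊇ (h^j)⁻¹ [v - c^j r, v + c^j r] ⊇ [v - r, v + r], precisely
  (h^j)⁻¹ α ≤ v - r (since α < v - r... h^j (v - r) ≥ v - c^j r > α... simply h^j (v - r) ≥ v - r > α),
  (h^j)⁻¹ β ≥ v + r.  So (h^j)⁻¹ β - (h^j)⁻¹ α ≥ 2 r =: η; take F.  The points y_j = (h^j)⁻¹ α are in F + ℤ.
  Let m = ⌊v - α⌋ so that v - m - 1 < α ≤ v - m; h commutes with T, so (h^j)⁻¹ fixes v - m - 1 and v - m and
  y_j ∈ (v - m - 1, v - m].  A half open interval of length one meets F + ℤ in a finite set, so by pigeonhole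
  y_i = y_j for some i < j, so h^(j-i) α = α, so h α = α (if h α > α then h^n α > α for all n ≥ 1 by
  monotonicity, similarly for <).
* (ii) take (h, v) from hyp_dense, v ∈ L ∩ Ioo α β, and r, c as above.  If g ∈ G and |g v - v| < r, then g α = α:
  choose j large: f = g * h^j maps [v - r, v + r] into (v - r, v + r) with derivative < 1 (h^j maps it to
  [v - c^j r, v + c^j r], where g is within r - |g v - v| of g v, and (h^j)' ≤ c^j there while g' is bounded).
  contr_fix (z = v) gives a fixed point v' ∈ (v - r, v + r) ⊆ Ioo α β with deriv f v' < 1, so by (i) f α = α and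
  h α = α, so g α = α.
* (iii) L ∩ Icc 0 1 is compact and covered by the open sets g '' Ioo (v - r) (v + r), g ∈ G (if y ∈ L there is
  by dense_orbit g ∈ G with |g y - v| < r); take a finite subcover g_1, ..., g_m.  By inf_orbit (α ∈ L) there is
  g ∈ G such that g α ≠ g_i α + k for all i and all k : ℤ.  Put T^l * g v ∈ Icc 0 1 for a suitable l, and it is
  in L, so it lies in g_i '' Ioo (v - r) (v + r); so |(g_i⁻¹ * T^l * g) v - v| < r and by (ii)
  g_i⁻¹ T^l g α = α, i.e. g α + l = g_i α: contradiction.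
-/
import Mathlib
import Pool.Agent.H42.EM.Sac

set_option autoImplicit false

namespace Pool.Agent.H42.EM

open Set

lemma Fix_app_inv (f : Equiv.Perm ℝ) (x : ℝ) : f (f⁻¹ x) = x := f.apply_symm_apply x

/-- a contracting interval around an attracting fixed point -/
lemma Fix_contr {h : Equiv.Perm ℝ} (hh : Good h) {v α β : ℝ} (hd : deriv (⇑h) v < 1)
    (hv : v ∈ Ioo α β) :
    ∃ r c : ℝ, 0 < r ∧ 0 < c ∧ c < 1 ∧ α < v - r ∧ v + r < β ∧
      ∀ t ∈ Icc (v - r) (v + r), deriv (⇑h) t ≤ c := by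
  obtain ⟨c, hc1, hc2⟩ := exists_between hd
  have hev : ∀ᶠ t in nhds v, deriv (⇑h) t < c := hh.contDeriv.continuousAt.eventually_lt
    continuousAt_const hc1
  have hev2 : ∀ᶠ t in nhds v, t ∈ Ioo α β := Ioo_mem_nhds hv.1 hv.2
  obtain ⟨ε, hε, hb⟩ := Metric.eventually_nhds_iff.1 (hev.and hev2)
  have hc0 : 0 < c := (hh.pos v).trans hc1
  have key : ∀ t ∈ Icc (v - ε / 2) (v + ε / 2), deriv (⇑h) t < c ∧ t ∈ Ioo α β := by
    intro t ht
    apply hb
    rw [Real.dist_eq, abs_lt]
    constructor <;> linarith [ht.1, ht.2]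
  refine ⟨ε / 2, c, by linarith, hc0, hc2, ?_, ?_, fun t ht => (key t ht).1.le⟩
  · exact (key (v - ε / 2) ⟨le_rfl, by linarith⟩).2.1
  · exact (key (v + ε / 2) ⟨by linarith, le_rfl⟩).2.2

lemma Fix_pow {h : Equiv.Perm ℝ} (hh : Good h) {v r c : ℝ} (hr : 0 < r) (hc : 0 < c) (hc1 : c < 1)
    (hfix : h v = v) (hd : ∀ t ∈ Icc (v - r) (v + r), deriv (⇑h) t ≤ c) (j : ℕ) :
    Good (h ^ j) ∧ ∀ t ∈ Icc (v - r) (v + r), |(h ^ j) t - v| ≤ c ^ j * |t - v| ∧
      deriv (⇑(h ^ j)) t ≤ c ^ j := by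
  induction j with
  | zero =>
    refine ⟨by simpa using Good.one, fun t _ => ⟨by simp, ?_⟩⟩
    have : (⇑(h ^ 0) : ℝ → ℝ) = id := by rw [pow_zero]; rfl
    rw [this]; simp
  | succ j ih =>
    obtain ⟨hg, ih⟩ := ih
    rw [pow_succ']
    refine ⟨hh.mul hg, fun t ht => ?_⟩
    obtain ⟨i1, i2⟩ := ih t ht
    have hcj : c ^ j ≤ 1 := pow_le_one₀ hc.le hc1.le
    have ht' : |t - v| ≤ r := by rw [abs_le]; constructor <;> linarith [ht.1, ht.2]
    have hs : |(h ^ j) t - v| ≤ r := i1.trans (by nlinarith [abs_nonneg (t - v)])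
    have hsI : (h ^ j) t ∈ Icc (v - r) (v + r) := by
      rw [abs_le] at hs; constructor <;> linarith [hs.1, hs.2]
    have hvI : v ∈ Icc (v - r) (v + r) := ⟨by linarith, by linarith⟩
    constructor
    · have := Convex.norm_image_sub_le_of_norm_deriv_le (f := ⇑h) (C := c)
        (s := Icc (v - r) (v + r)) (x := v) (y := (h ^ j) t) (fun x _ => hh.diff x)
        (fun x hx => by rw [Real.norm_eq_abs, abs_of_pos (hh.pos x)]; exact hd x hx)
        (convex_Icc _ _) hvI hsI
      rw [Real.norm_eq_abs, Real.norm_eq_abs, hfix] at this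
      rw [Equiv.Perm.mul_apply]
      calc |h ((h ^ j) t) - v| ≤ c * |(h ^ j) t - v| := this
        _ ≤ c * (c ^ j * |t - v|) := mul_le_mul_of_nonneg_left i1 hc.le
        _ = c ^ (j + 1) * |t - v| := by ring
    · rw [hh.deriv_mul hg]
      calc deriv (⇑h) ((h ^ j) t) * deriv (⇑(h ^ j)) t ≤ c * c ^ j :=
            mul_le_mul (hd _ hsI) i2 (hg.pos t).le hc.le
        _ = c ^ (j + 1) := by ring

lemma Fix_iter {h : Equiv.Perm ℝ} (hh : Good h) {α : ℝ} {n : ℕ} (hn : 0 < n)
    (hf : (h ^ n) α = α) : h α = α := by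
  have hf' : (⇑h)^[n] α = α := by rw [Equiv.Perm.iterate_eq_pow]; exact hf
  rcases lt_trichotomy (h α) α with h1 | h1 | h1
  · have := hh.mono.strictAnti_iterate_of_map_lt h1 hn
    simp only [Function.iterate_zero, id] at this
    linarith
  · exact h1
  · have := hh.mono.strictMono_iterate_of_lt_map h1 hn
    simp only [Function.iterate_zero, id] at this
    linarith

lemma Fix_hyp (A : Sys) {α β : ℝ}
    (hfin : ∀ η > 0, ∃ F : Finset ℝ, ∀ g ∈ A.G, η ≤ g β - g α → ∃ q ∈ F, ∃ k : ℤ, g α = q + k)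
    {h : Equiv.Perm ℝ} (hG : h ∈ A.G) {v : ℝ} (hv : v ∈ Ioo α β) (hfix : h v = v)
    (hd : deriv (⇑h) v < 1) : h α = α := by
  have hh := A.good hG
  obtain ⟨r, c, hr, hc0, hc1, hα, hβ, hb⟩ := Fix_contr hh hd hv
  obtain ⟨F, hF⟩ := hfin (2 * r) (by linarith)
  have hpow := Fix_pow hh hr hc0 hc1 hfix hb
  have hmem : ∀ j : ℕ, (h ^ j)⁻¹ ∈ A.G := fun j =>
    Subgroup.inv_mem _ (Subgroup.pow_mem _ hG j)
  have hlow : ∀ j : ℕ, (h ^ j)⁻¹ α ≤ v - r := by
    intro j
    obtain ⟨hg, hp⟩ := hpow j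
    have h1 := (hp (v - r) ⟨le_rfl, by linarith⟩).1
    have hcj : c ^ j ≤ 1 := pow_le_one₀ hc0.le hc1.le
    have e : |v - r - v| = r := by rw [show v - r - v = -r by ring, abs_neg, abs_of_pos hr]
    rw [e] at h1
    have h2 : v - r ≤ (h ^ j) (v - r) := by
      rw [abs_le] at h1
      nlinarith [h1.1]
    by_contra hcon
    push Not at hcon
    have h3 := hg.mono hcon
    rw [Fix_app_inv] at h3
    linarith
  have hup : ∀ j : ℕ, v + r ≤ (h ^ j)⁻¹ β := by
    intro j
    obtain ⟨hg, hp⟩ := hpow j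
    have h1 := (hp (v + r) ⟨by linarith, le_rfl⟩).1
    have hcj : c ^ j ≤ 1 := pow_le_one₀ hc0.le hc1.le
    have e : |v + r - v| = r := by rw [show v + r - v = r by ring, abs_of_pos hr]
    rw [e] at h1
    have h2 : (h ^ j) (v + r) ≤ v + r := by
      rw [abs_le] at h1
      nlinarith [h1.2]
    by_contra hcon
    push Not at hcon
    have h3 := hg.mono hcon
    rw [Fix_app_inv] at h3
    linarith
  have hq : ∀ j : ℕ, ∃ q ∈ F, ∃ k : ℤ, (h ^ j)⁻¹ α = q + k := fun j =>
    hF _ (hmem j) (by linarith [hlow j, hup j])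
  choose q hqF k hk using hq
  -- the points lie in a half open interval of length one
  set m : ℤ := ⌊v - α⌋ with hm
  have hm1 : (m : ℝ) ≤ v - α := Int.floor_le _
  have hm2 : v - α < m + 1 := Int.lt_floor_add_one _
  have hfixj : ∀ (j : ℕ) (l : ℤ), (h ^ j) (v + l) = v + l := by
    intro j l
    rw [(hpow j).1.add_int]
    congr 1
    induction j with
    | zero => simp
    | succ j ih => rw [pow_succ', Equiv.Perm.mul_apply, ih, hfix]
  have hint : ∀ j : ℕ, v - m - 1 < (h ^ j)⁻¹ α ∧ (h ^ j)⁻¹ α ≤ v - m := by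
    intro j
    have hg := (hpow j).1
    constructor
    · by_contra hcon
      push Not at hcon
      have h3 := hg.mono.monotone hcon
      rw [Fix_app_inv] at h3
      have h4 := hfixj j (-m - 1)
      have e4 : v + ((-m - 1 : ℤ) : ℝ) = v - m - 1 := by push_cast; ring
      rw [e4] at h4
      rw [h4] at h3
      linarith
    · by_contra hcon
      push Not at hcon
      have h3 := hg.mono hcon
      rw [Fix_app_inv] at h3
      have h4 := hfixj j (-m)
      have e4 : v + ((-m : ℤ) : ℝ) = v - m := by push_cast; ring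
      rw [e4] at h4
      rw [h4] at h3
      linarith
  -- pigeonhole
  obtain ⟨a, b, hab, he⟩ : ∃ a b : ℕ, a < b ∧ q a = q b := by
    by_contra hcon
    push Not at hcon
    have hinj : Function.Injective q := by
      intro a b he
      by_contra hne
      rcases lt_or_gt_of_ne hne with h1 | h1
      · exact hcon a b h1 he
      · exact hcon b a h1 he.symm
    have hfinite : (Set.range q).Finite :=
      F.finite_toSet.subset (by rintro _ ⟨j, rfl⟩; exact hqF j)
    exact Set.infinite_range_of_injective hinj hfinite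
  have hkk : k a = k b := by
    have h1 := hint a
    have h2 := hint b
    rw [hk a] at h1
    rw [hk b, ← he] at h2
    have h3 : (k a : ℝ) - k b < 1 := by linarith [h1.2, h2.1]
    have h4 : (k b : ℝ) - k a < 1 := by linarith [h1.1, h2.2]
    have h5 : k a - k b < 1 := by exact_mod_cast h3
    have h6 : k b - k a < 1 := by exact_mod_cast h4
    omega
  have hy : (h ^ a)⁻¹ α = (h ^ b)⁻¹ α := by rw [hk a, hk b, he, hkk]
  have hz : (h ^ (b - a)) α = α := by
    have e1 : h ^ b = h ^ (b - a) * h ^ a := by rw [← pow_add]; congr 1; omega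
    have e2 : (h ^ b) ((h ^ b)⁻¹ α) = α := Fix_app_inv _ _
    rw [← hy, e1, Equiv.Perm.mul_apply, Fix_app_inv] at e2
    exact e2
  exact Fix_iter hh (by omega) hz

lemma finite_index (A : Sys) {α β : ℝ} (hα : α ∈ A.L) (hαβ : α < β) (hex : ∃ t ∈ Ioo α β, t ∈ A.L)
    (hfin : ∀ η > 0, ∃ F : Finset ℝ, ∀ g ∈ A.G, η ≤ g β - g α → ∃ q ∈ F, ∃ k : ℤ, g α = q + k) :
    False := by
  classical
  obtain ⟨h, hG, v, hvL, hv, hfix, hd⟩ := hyp_dense A hex
  have hh := A.good hG
  obtain ⟨r, c, hr, hc0, hc1, hαr, hβr, hb⟩ := Fix_contr hh hd hv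
  have hpow := Fix_pow hh hr hc0 hc1 hfix hb
  have hhα : h α = α := Fix_hyp A hfin hG hv hfix hd
  have hhαj : ∀ j : ℕ, (h ^ j) α = α := by
    intro j
    induction j with
    | zero => simp
    | succ j ih => rw [pow_succ', Equiv.Perm.mul_apply, ih, hhα]
  -- (ii)
  have key : ∀ g ∈ A.G, |g v - v| < r → g α = α := by
    intro g hg hgv
    have hgg := A.good hg
    obtain ⟨B, hB⟩ := (isCompact_Icc (a := v - r) (b := v + r)).exists_bound_of_continuousOn
      hgg.contDeriv.continuousOn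
    have hB0 : 0 < B := by
      have := hB v ⟨by linarith, by linarith⟩
      rw [Real.norm_eq_abs, abs_of_pos (hgg.pos v)] at this
      exact (hgg.pos v).trans_le this
    have hlim : Filter.Tendsto (fun j : ℕ => c ^ j) Filter.atTop (nhds 0) :=
      tendsto_pow_atTop_nhds_zero_of_lt_one hc0.le hc1
    have hpos : 0 < min (1 / (2 * B)) ((r - |g v - v|) / (2 * (B * r))) := by
      apply lt_min
      · positivity
      · apply div_pos
        · linarith
        · positivity
    obtain ⟨j, hj⟩ := ((hlim.eventually (gt_mem_nhds hpos))).exists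
    have hj1 : B * c ^ j < 1 := by
      have := hj.trans_le (min_le_left _ _)
      rw [lt_div_iff₀ (by positivity)] at this
      have hcj : 0 < c ^ j := by positivity
      nlinarith
    have hj2 : B * c ^ j * r < r - |g v - v| := by
      have := hj.trans_le (min_le_right _ _)
      rw [lt_div_iff₀ (by positivity)] at this
      have hcj : 0 < c ^ j := by positivity
      have : 0 < c ^ j * (B * r) := by positivity
      nlinarith
    obtain ⟨hgj, hp⟩ := hpow j
    have hcj : c ^ j ≤ 1 := pow_le_one₀ hc0.le hc1.le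
    have hin : ∀ t ∈ Icc (v - r) (v + r), (h ^ j) t ∈ Icc (v - r) (v + r) := by
      intro t ht
      have h1 := (hp t ht).1
      have ht' : |t - v| ≤ r := by rw [abs_le]; constructor <;> linarith [ht.1, ht.2]
      have h2 : |(h ^ j) t - v| ≤ r := h1.trans (by nlinarith [abs_nonneg (t - v)])
      rw [abs_le] at h2
      constructor <;> linarith [h2.1, h2.2]
    have hvI : v ∈ Icc (v - r) (v + r) := ⟨by linarith, by linarith⟩
    have hfG : g * h ^ j ∈ A.G := Subgroup.mul_mem _ hg (Subgroup.pow_mem _ hG j)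
    have hf1 : ∀ t ∈ Icc (v - r) (v + r), (g * h ^ j) t ∈ Ioo (v - r) (v + r) := by
      intro t ht
      have h0 := Convex.norm_image_sub_le_of_norm_deriv_le (f := ⇑g) (C := B)
        (s := Icc (v - r) (v + r)) (x := v) (y := (h ^ j) t) (fun x _ => hgg.diff x)
        (fun x hx => hB x hx) (convex_Icc _ _) hvI (hin t ht)
      rw [Real.norm_eq_abs, Real.norm_eq_abs] at h0
      have h1 := (hp t ht).1
      have ht' : |t - v| ≤ r := by rw [abs_le]; constructor <;> linarith [ht.1, ht.2]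
      have hcj0 : 0 < c ^ j := by positivity
      have h2 : |g ((h ^ j) t) - g v| ≤ B * c ^ j * r := by
        calc |g ((h ^ j) t) - g v| ≤ B * |(h ^ j) t - v| := h0
          _ ≤ B * (c ^ j * |t - v|) := mul_le_mul_of_nonneg_left h1 hB0.le
          _ ≤ B * (c ^ j * r) := by gcongr
          _ = B * c ^ j * r := by ring
      have h3 : |g ((h ^ j) t) - v| < r := by
        calc |g ((h ^ j) t) - v| ≤ |g ((h ^ j) t) - g v| + |g v - v| := abs_sub_le _ _ _
          _ < r := by linarith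
      rw [Equiv.Perm.mul_apply]
      rw [abs_lt] at h3
      constructor <;> linarith [h3.1, h3.2]
    have hf2 : ∀ t ∈ Icc (v - r) (v + r), deriv (⇑(g * h ^ j)) t < 1 := by
      intro t ht
      rw [hgg.deriv_mul hgj]
      have h1 := (hp t ht).2
      have h2 := hB _ (hin t ht)
      rw [Real.norm_eq_abs, abs_of_pos (hgg.pos _)] at h2
      calc deriv (⇑g) ((h ^ j) t) * deriv (⇑(h ^ j)) t ≤ B * c ^ j :=
            mul_le_mul h2 h1 (hgj.pos t).le hB0.le
        _ < 1 := hj1
    obtain ⟨v', _, hv', hfix', hd'⟩ := contr_fix A hfG hvI hvL hf1 hf2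
    have hfα := Fix_hyp A hfin hfG (v := v') ⟨by linarith [hv'.1], by linarith [hv'.2]⟩ hfix' hd'
    rw [Equiv.Perm.mul_apply, hhαj] at hfα
    exact hfα
  -- (iii)
  have hcomp : IsCompact (A.L ∩ Icc (0 : ℝ) 1) := isCompact_Icc.inter_left A.closed
  obtain ⟨s, hs⟩ := hcomp.elim_finite_subcover
    (fun g : {g : Equiv.Perm ℝ // g ∈ A.G} => {y : ℝ | |g.1 y - v| < r})
    (fun g => isOpen_lt (((A.good g.2).cont.sub continuous_const).abs) continuous_const)
    (fun y hy => by
      obtain ⟨g, hg, hlt⟩ := A.dense_orbit hy.1 hvL hr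
      exact Set.mem_iUnion.2 ⟨⟨g, hg⟩, hlt⟩)
  obtain ⟨g, hg, hne⟩ := A.inf_orbit hα (s.image fun g' => g'.1⁻¹ α)
  set l : ℤ := -⌊g v⌋ with hl
  have hgvL : g v ∈ A.L := (A.mem_iff hg v).2 hvL
  have h1 : g v + l ∈ A.L ∩ Icc (0 : ℝ) 1 := by
    refine ⟨(A.mem_add_int _ _).2 hgvL, ?_, ?_⟩
    · rw [hl]; push_cast; linarith [Int.floor_le (g v)]
    · rw [hl]; push_cast; linarith [Int.lt_floor_add_one (g v)]
  obtain ⟨g', hg', hlt⟩ : ∃ g' ∈ s, |g'.1 (g v + l) - v| < r := by
    have := hs h1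
    simp only [Set.mem_iUnion, exists_prop] at this
    exact this
  have h2 := key (g'.1 * (T ^ l * g))
    (Subgroup.mul_mem _ g'.2 (Subgroup.mul_mem _ (A.Tz_mem l) hg))
    (by rw [Equiv.Perm.mul_apply, Equiv.Perm.mul_apply, T_zpow]; exact hlt)
  rw [Equiv.Perm.mul_apply, Equiv.Perm.mul_apply, T_zpow] at h2
  have h3 : g α + l = g'.1⁻¹ α := by
    rw [Equiv.Perm.eq_inv_iff_eq]; exact h2
  apply hne (g'.1⁻¹ α) (Finset.mem_image_of_mem (fun g' => g'.1⁻¹ α) hg') (-l)
  push_cast
  linarith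

end Pool.Agent.H42.EM
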