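/-
CNF : confinement.

PROOF.  Suppose every l ∈ Lp fixes p.  Then every k ∈ closure Lp fixes p.  Apply finite_index with α = x, β = p:
let η > 0 and F from sumB_finset for η' := η * exp (-E) / (p - x).  If g ∈ G and η ≤ g p - g x, write
g = rep g * k; g p = rep g p, g x = rep g x, so by osc_deriv_le  η ≤ exp E * deriv (rep g) x * (p - x), so
deriv (rep g) x ≥ η', and rep g x = g x ∈ F + ℤ.
-/
import Mathlib
import Pool.Agent.H42.EM.Fix
import Pool.Agent.H42.EM.Fam
import Pool.Agent.H42.EM.Lps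

set_option autoImplicit false

namespace Pool.Agent.H42.EM

open Set

lemma confine (A : Sys) {x W E R : ℝ} (hx : x ∈ A.L) (hW : A.SumB x W) (hR : 0 < R)
    (Lp : Set (Equiv.Perm ℝ)) (rep : Equiv.Perm ℝ → Equiv.Perm ℝ)
    (hrep : ∀ g ∈ A.G, rep g ∈ A.G ∧ rep g x = g x ∧ Osc (rep g) (x - R) (x + R) E ∧
        ∃ k ∈ Subgroup.closure Lp, g = rep g * k)
    {p : ℝ} (hp : x < p) (hpR : p ≤ x + R) (hex : ∃ t ∈ Ioo x p, t ∈ A.L) :
    ∃ l ∈ Lp, l p ≠ p := by
  by_contra hcon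
  push Not at hcon
  have hfix : ∀ k ∈ Subgroup.closure Lp, k p = p := by
    intro k hk
    induction hk using Subgroup.closure_induction with
    | mem y hy => exact hcon y hy
    | one => rfl
    | mul a b _ _ ha hb => rw [Equiv.Perm.mul_apply, hb, ha]
    | inv a _ ha => rw [Equiv.Perm.inv_eq_iff_eq, ha]
  refine finite_index A hx hp hex fun η hη => ?_
  have hpx : 0 < p - x := by linarith
  have hη' : 0 < η * Real.exp (-E) / (p - x) := by positivity
  obtain ⟨F, hF⟩ := sumB_finset A hW hη'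
  refine ⟨F, fun g hg hgη => ?_⟩
  obtain ⟨hrG, hrx, hosc, k, hk, hgk⟩ := hrep g hg
  have hgp : g p = rep g p := by
    conv_lhs => rw [hgk]
    rw [Equiv.Perm.mul_apply, hfix k hk]
  have h1 := osc_deriv_le (A.good hrG) hosc (x := x) (u := x) (v := p)
    ⟨by linarith, by linarith⟩ ⟨by linarith, by linarith⟩ ⟨by linarith, hpR⟩ hp.le
  rw [← hgp, hrx] at h1
  have h2 : η * Real.exp (-E) / (p - x) ≤ deriv (⇑(rep g)) x := by
    rw [div_le_iff₀ hpx, Real.exp_neg, ← div_eq_mul_inv, div_le_iff₀ (Real.exp_pos E)]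
    calc η ≤ g p - g x := hgη
      _ ≤ _ := h1
      _ = _ := by ring
  obtain ⟨q, hq, m, hm⟩ := hF (rep g) hrG h2
  exact ⟨q, hq, m, by rw [← hrx, hm]⟩

end Pool.Agent.H42.EM
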