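/-
LPS : control and near-identity loops at a summable non-expandable point.

PROOF of loops.  Let M : A.LipS M, W as given (W ≥ 1, from the family {1}); NE gives k'(x) = 1 for every k ∈ G with
k x = x (apply NE to k and k⁻¹).  E₁ := E / 3, R₁ := E₁ / (8 (M + 1) W), K = [x - R₁, x + R₁].
(a) If (n, w) is a path with w i x ≠ w j x + k for i < j ≤ n, all k, then Osc (w i) on K with constant E₁, and
  |log (w i)'(u) - log (w i)'(v)| ≤ 3 M W |u - v| for u, v ∈ K, i ≤ n:
  ctrl with c l = exp E₁ * deriv (w l) x * (2 R₁) (osc_deriv_le), ∑_{l<i} deriv (w l) x ≤ W by SumB applied to the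
  image finset (the w l, l < i, are pairwise distinct because their values at x are), and
  M * exp E₁ * 2 R₁ * W ≤ E₁ (exp E₁ ≤ 3); then lip_path and |w l u - w l v| ≤ exp E₁ * (w l)'(x) * |u - v|.
(b) representatives: for every class c of elements of G modulo Eqv {x} choose (c.out ∈ G) a minimal path
  (min_path, Z = {x}) ending at w^c with Eqv {x} w^c c.out, and for g in the class c put rep g := T^k * w^c where k is
  the integer with g x = w^c x + k.  Then rep g x = g x, rep (T^j * g) = T^j * rep g, Osc (rep g) on K by (a)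
  (multiplying by T^k does not change derivatives), and rep 1 = 1 since a minimal path ending in the class of 1 has
  n = 0 (w 0 = 1 is in the class) so w^c = 1, k = 0.
  (Simplest implementation: define the function by choice on the set of values mod ℤ: for y = fract (g x) choose one
  controlled element w with fract (w x) = y ... then rep g = T^(⌊g x⌋ - ⌊w x⌋) * w.  For y = fract x choose w = 1.)
(c) loops: Lp := {(rep (s * g))⁻¹ * s * rep g | g ∈ G, s ∈ A.S}, R := R₁ / 4.  Let u = s * rep g, v = rep (s * g);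
  u x = v x (as s (rep g x) = s (g x) = (s * g) x), ℓ = v⁻¹ * u fixes x, so ℓ'(x) = 1, u'(x) = v'(x).
  log u' oscillates by ≤ 2 E₁ on K: |log s'(rep g t) - log s'(rep g t')| ≤ M |rep g t - rep g t'|
  ≤ M exp E₁ (rep g)'(x) |t - t'| ≤ 3 M |t - t'| ≤ 3 M 2 R₁ ≤ E₁, and its Lipschitz constant is ≤ 6 M W.
  If |t - x| ≤ R then |u t - u x| ≤ exp (2 E₁) u'(x) |t - x| and v maps K onto an interval containing
  [v x - exp (-E₁) v'(x) R₁, v x + exp (-E₁) v'(x) R₁], so ℓ t ∈ K and |ℓ t - x| ≤ exp (3 E₁) |t - x| ≤ R₁ (E small).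
  log ℓ'(t) = (log u'(t) - log u'(x)) - (log v'(ℓ t) - log v'(x)), so |log ℓ'(t)| ≤ 3 E₁ = E, and the Lipschitz
  constant of log ℓ' on [x - R, x + R] is ≤ 6 M W + 3 M W exp (3 E₁) ≤ 18 (M + 1) W =: β; β R = 18/32 E₁ ≤ E.
(d) decomposition: every g ∈ G is g = rep g * k with k ∈ closure Lp: for g = T^j * w n (exists_path) reduce to w n
  (rep (T^j g) = T^j rep g); induction on i: w 0 = 1 = rep 1 * 1; w (i+1) = s * w i = s * rep (w i) * k_i =
  rep (s * w i) * ((rep (s * w i))⁻¹ * s * rep (w i)) * k_i.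
-/
import Mathlib
import Pool.Agent.H42.EM.Ctr

set_option autoImplicit false

namespace Pool.Agent.H42.EM

open Set

/-- `f` is near the identity on `[p, q]`: logarithm of the derivative at most `ε`, with Lipschitz constant `b` -/
def NId (f : Equiv.Perm ℝ) (p q ε b : ℝ) : Prop :=
  (∀ t ∈ Icc p q, |Real.log (deriv (⇑f) t)| ≤ ε) ∧
  ∀ u ∈ Icc p q, ∀ v ∈ Icc p q,
    |Real.log (deriv (⇑f) u) - Real.log (deriv (⇑f) v)| ≤ b * |u - v|

lemma Lps_coe_Tz (k : ℤ) : (⇑(T ^ k) : ℝ → ℝ) = fun y => y + (k : ℝ) := by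
  funext y; exact T_zpow k y

lemma Lps_deriv_Tz (k : ℤ) (x : ℝ) : deriv (⇑(T ^ k)) x = 1 := by
  rw [Lps_coe_Tz]; simp

lemma Lps_deriv_one (x : ℝ) : deriv (⇑(1 : Equiv.Perm ℝ)) x = 1 := by
  have : (⇑(1 : Equiv.Perm ℝ)) = id := rfl
  rw [this]; simp

lemma Lps_deriv_Tmul {w : Equiv.Perm ℝ} (hw : Good w) (k : ℤ) (x : ℝ) :
    deriv (⇑(T ^ k * w)) x = deriv (⇑w) x := by
  rw [Good.deriv_mul (Good.zpowT k) hw, Lps_deriv_Tz, one_mul]

lemma Sys.NE.deriv_eq_one {A : Sys} {x : ℝ} (hNE : A.NE x) {k : Equiv.Perm ℝ} (hk : k ∈ A.G)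
    (hkx : k x = x) : deriv (⇑k) x = 1 := by
  have h1 := hNE k hk
  have h2 := hNE k⁻¹ (Subgroup.inv_mem _ hk)
  have hg := A.good hk
  have h3 : k⁻¹ x = x := by rw [Equiv.Perm.inv_eq_iff_eq]; exact hkx.symm
  rw [hg.deriv_inv, h3] at h2
  have h4 := hg.pos x
  have h5 : 1 ≤ deriv (⇑k) x := by
    rwa [inv_le_one₀ h4] at h2
  exact le_antisymm h1 h5

lemma Sys.NE.deriv_congr {A : Sys} {x : ℝ} (hNE : A.NE x) {g h : Equiv.Perm ℝ} (hg : g ∈ A.G)
    (hh : h ∈ A.G) {k : ℤ} (e : g x = h x + k) : deriv (⇑g) x = deriv (⇑h) x := by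
  have hgg := A.good hg
  have hgh := A.good hh
  have hc : (h⁻¹ * (T ^ (-k) * g)) ∈ A.G :=
    Subgroup.mul_mem _ (Subgroup.inv_mem _ hh) (Subgroup.mul_mem _ (A.Tz_mem _) hg)
  have h0 : (T ^ (-k) * g) x = h x := by
    rw [Equiv.Perm.mul_apply, T_zpow, e]; push_cast; ring
  have h1 : (h⁻¹ * (T ^ (-k) * g)) x = x := by
    rw [Equiv.Perm.mul_apply, h0]; simp
  have h2 := hNE.deriv_eq_one hc h1
  rw [Good.deriv_mul hgh.inv ((Good.zpowT _).mul hgg), hgh.deriv_inv, h0,
    Lps_deriv_Tmul hgg] at h2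
  have h3 : h⁻¹ (h x) = x := by simp
  rw [h3] at h2
  have h4 := (hgh.pos x).ne'
  field_simp at h2
  exact h2

/-- controlled elements -/
def Lps_Ctl (w : Equiv.Perm ℝ) (p q E b : ℝ) : Prop :=
  Osc w p q E ∧ ∀ u ∈ Icc p q, ∀ v ∈ Icc p q,
    |Real.log (deriv (⇑w) u) - Real.log (deriv (⇑w) v)| ≤ b * |u - v|

lemma Lps_Ctl_T {w : Equiv.Perm ℝ} (hw : Good w) {p q E b : ℝ} (h : Lps_Ctl w p q E b) (k : ℤ) :
    Lps_Ctl (T ^ k * w) p q E b := by
  refine ⟨fun u hu v hv => ?_, fun u hu v hv => ?_⟩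
  · rw [Lps_deriv_Tmul hw, Lps_deriv_Tmul hw]; exact h.1 u hu v hv
  · rw [Lps_deriv_Tmul hw, Lps_deriv_Tmul hw]; exact h.2 u hu v hv

lemma Lps_abs_sub_le {g : Equiv.Perm ℝ} (hg : Good g) {p q E x u v : ℝ} (h : Osc g p q E)
    (hx : x ∈ Icc p q) (hu : u ∈ Icc p q) (hv : v ∈ Icc p q) :
    |g u - g v| ≤ Real.exp E * deriv (⇑g) x * |u - v| := by
  rcases le_total u v with huv | huv
  · have h1 := osc_deriv_le hg h hx hu hv huv
    have h2 : g u ≤ g v := hg.mono.monotone huv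
    rw [abs_sub_comm (g u), abs_sub_comm u, abs_of_nonneg (by linarith), abs_of_nonneg (by linarith)]
    exact h1
  · have h1 := osc_deriv_le hg h hx hv hu huv
    have h2 : g v ≤ g u := hg.mono.monotone huv
    rw [abs_of_nonneg (by linarith), abs_of_nonneg (by linarith)]
    exact h1

lemma Lps_exp_le {E : ℝ} (hE : 0 < E) (hE1 : E ≤ 1 / 100) : Real.exp (3 * E) ≤ 3 := by
  have h1 : Real.exp (3 * E) ≤ Real.exp 1 := Real.exp_le_exp.mpr (by linarith)
  linarith [Real.exp_one_lt_d9]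

lemma Lps_sum {A : Sys} {x W : ℝ} (hW : A.SumB x W) {n : ℕ} {w : ℕ → Equiv.Perm ℝ}
    (hw : A.Path n w) (hd : ∀ i j, i < j → j ≤ n → ∀ k : ℤ, w i x ≠ w j x + k) {i : ℕ} (hi : i ≤ n) :
    ∑ l ∈ Finset.range i, deriv (⇑(w l)) x ≤ W := by
  have hd' : ∀ l l', l < i → l' < i → l ≠ l' → ∀ k : ℤ, w l x ≠ w l' x + k := by
    intro l l' hl hl' hne k
    rcases lt_or_gt_of_ne hne with h | h
    · exact hd l l' h (by omega) k
    · intro e
      refine hd l' l h (by omega) (-k) ?_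
      push_cast; linarith
  have hinj : Set.InjOn w (Finset.range i : Set ℕ) := by
    intro l hl l' hl' e
    by_contra hne
    refine hd' l l' (by simpa using hl) (by simpa using hl') hne 0 ?_
    rw [e]; simp
  classical
  have h1 := hW ((Finset.range i).image w) (by
    intro g hg
    obtain ⟨l, hl, rfl⟩ := Finset.mem_image.mp hg
    exact hw.mem (by have := Finset.mem_range.mp hl; omega)) (by
    intro g hg h hh hne k
    obtain ⟨l, hl, rfl⟩ := Finset.mem_image.mp hg
    obtain ⟨l', hl', rfl⟩ := Finset.mem_image.mp hh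
    exact hd' l l' (Finset.mem_range.mp hl) (Finset.mem_range.mp hl') (fun e => hne (by rw [e])) k)
  rw [Finset.sum_image hinj] at h1
  exact h1

lemma Lps_ctrl {A : Sys} {M x W E R₁ : ℝ} (hM : A.LipS M) (hNE : A.NE x) (hW : A.SumB x W)
    (hE : 0 < E) (hE1 : E ≤ 1 / 100) (hR₁ : 0 < R₁) (hW1 : 1 ≤ W) (hR : M * (3 * (2 * R₁) * W) ≤ E)
    {n : ℕ} {w : ℕ → Equiv.Perm ℝ} (hw : A.Path n w)
    (hd : ∀ i j, i < j → j ≤ n → ∀ k : ℤ, w i x ≠ w j x + k) {i : ℕ} (hi : i ≤ n) :
    Lps_Ctl (w i) (x - R₁) (x + R₁) E (3 * M * W) := by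
  have hM0 := hM.1
  have hexp : Real.exp E ≤ 3 := (Real.exp_le_exp.mpr (by linarith)).trans (Lps_exp_le hE hE1)
  have hx : x ∈ Icc (x - R₁) (x + R₁) := ⟨by linarith, by linarith⟩
  have hosc := ctrl hM hw (α := x - R₁) (β := x + R₁) (E := E) (by linarith)
    (fun l => Real.exp E * deriv (⇑(w l)) x * (2 * R₁)) (by
      intro l hl ho
      have h1 := osc_deriv_le (A.good (hw.mem hl.le)) ho hx (u := x - R₁) (v := x + R₁)
        ⟨le_rfl, by linarith⟩ ⟨by linarith, le_rfl⟩ (by linarith)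
      calc _ ≤ _ := h1
        _ = _ := by ring) (by
      intro l hl
      have h1 := Lps_sum hW hw hd hl
      have h2 : ∑ m ∈ Finset.range l, Real.exp E * deriv (⇑(w m)) x * (2 * R₁)
          = Real.exp E * (2 * R₁) * ∑ m ∈ Finset.range l, deriv (⇑(w m)) x := by
        rw [Finset.mul_sum]; exact Finset.sum_congr rfl fun _ _ => by ring
      have h0 : 0 ≤ ∑ m ∈ Finset.range l, deriv (⇑(w m)) x := Finset.sum_nonneg fun m hm =>
        ((A.good (hw.mem (by have := Finset.mem_range.mp hm; omega))).pos x).le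
      rw [h2]
      calc M * (Real.exp E * (2 * R₁) * ∑ m ∈ Finset.range l, deriv (⇑(w m)) x)
          ≤ M * (3 * (2 * R₁) * W) := by gcongr
        _ ≤ E := hR)
  refine ⟨hosc i hi, fun u hu v hv => ?_⟩
  have h1 := lip_path hM hw hi u v
  have h2 : ∑ l ∈ Finset.range i, |w l u - w l v| ≤ 3 * |u - v| * W := by
    calc ∑ l ∈ Finset.range i, |w l u - w l v|
        ≤ ∑ l ∈ Finset.range i, 3 * |u - v| * deriv (⇑(w l)) x := by
          refine Finset.sum_le_sum fun l hl => ?_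
          have hl' : l < i := Finset.mem_range.mp hl
          have hg := A.good (hw.mem (i := l) (by omega))
          have h3 := Lps_abs_sub_le hg (hosc l (by omega)) hx hu hv
          have h4 := (hg.pos x).le
          calc _ ≤ _ := h3
            _ ≤ 3 * deriv (⇑(w l)) x * |u - v| := by gcongr
            _ = _ := by ring
      _ = 3 * |u - v| * ∑ l ∈ Finset.range i, deriv (⇑(w l)) x := by rw [Finset.mul_sum]
      _ ≤ 3 * |u - v| * W := by
          have := Lps_sum hW hw hd hi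
          gcongr
  calc _ ≤ _ := h1
    _ ≤ M * (3 * |u - v| * W) := by gcongr
    _ = 3 * M * W * |u - v| := by ring


lemma Lps_loop {u v : Equiv.Perm ℝ} (hu : Good u) (hv : Good v) {x R₁ E₁ b₁ b₂ : ℝ} (hR₁ : 0 < R₁)
    (hE : 0 < E₁) (hE1 : E₁ ≤ 1 / 100) (hb₁ : 0 ≤ b₁) (e : u x = v x)
    (ed : deriv (⇑u) x = deriv (⇑v) x)
    (cu : Lps_Ctl u (x - R₁) (x + R₁) (2 * E₁) b₂) (cv : Lps_Ctl v (x - R₁) (x + R₁) E₁ b₁) :
    NId (v⁻¹ * u) (x - R₁ / 4) (x + R₁ / 4) (3 * E₁) (b₂ + 3 * b₁) := by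
  have hx : x ∈ Icc (x - R₁) (x + R₁) := ⟨by linarith, by linarith⟩
  have hexp := Lps_exp_le hE hE1
  have hg : Good (v⁻¹ * u) := hv.inv.mul hu
  have hv' := hv.pos x
  have hexp2 : Real.exp (2 * E₁) ≤ 3 := (Real.exp_le_exp.mpr (by linarith)).trans hexp
  have hexp1 : Real.exp E₁ * Real.exp (2 * E₁) ≤ 3 := by
    rw [← Real.exp_add]; convert hexp using 2; ring
  have hpe1 := Real.exp_pos E₁
  have hpe2 := Real.exp_pos (2 * E₁)
  -- the loop maps the small interval to the big one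
  have hmem : ∀ t ∈ Icc (x - R₁ / 4) (x + R₁ / 4), (v⁻¹ * u) t ∈ Icc (x - R₁) (x + R₁) := by
    intro t ht
    have htK : t ∈ Icc (x - R₁) (x + R₁) := ⟨by linarith [ht.1], by linarith [ht.2]⟩
    have hvl : v ((v⁻¹ * u) t) = u t := by simp
    constructor
    · rw [← hv.mono.le_iff_le, hvl]
      rcases le_total t x with htx | htx
      · have h1 := osc_deriv_le hu cu.1 hx htK hx htx
        have h2 := osc_le_deriv hv cv.1 hx (u := x - R₁) (v := x) ⟨le_rfl, by linarith⟩ hx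
          (by linarith)
        rw [ed] at h1
        have h3 : Real.exp E₁ * (u x - u t) ≤ Real.exp E₁ * (v x - v (x - R₁)) := by
          calc Real.exp E₁ * (u x - u t)
              ≤ Real.exp E₁ * (Real.exp (2 * E₁) * deriv (⇑v) x * (x - t)) := by gcongr
            _ = (Real.exp E₁ * Real.exp (2 * E₁)) * (deriv (⇑v) x * (x - t)) := by ring
            _ ≤ 3 * (deriv (⇑v) x * (R₁ / 4)) := by
                have : x - t ≤ R₁ / 4 := by linarith [ht.1]
                have h0 : 0 ≤ x - t := by linarith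
                gcongr
            _ ≤ deriv (⇑v) x * (x - (x - R₁)) := by nlinarith
            _ ≤ _ := h2
        have h4 := le_of_mul_le_mul_left h3 hpe1
        linarith
      · have h1 : u x ≤ u t := hu.mono.monotone htx
        have h2 : v (x - R₁) ≤ v x := hv.mono.monotone (by linarith)
        linarith
    · rw [← hv.mono.le_iff_le, hvl]
      rcases le_total t x with htx | htx
      · have h1 : u t ≤ u x := hu.mono.monotone htx
        have h2 : v x ≤ v (x + R₁) := hv.mono.monotone (by linarith)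
        linarith
      · have h1 := osc_deriv_le hu cu.1 hx hx htK htx
        have h2 := osc_le_deriv hv cv.1 hx (u := x) (v := x + R₁) hx ⟨by linarith, le_rfl⟩
          (by linarith)
        rw [ed] at h1
        have h3 : Real.exp E₁ * (u t - u x) ≤ Real.exp E₁ * (v (x + R₁) - v x) := by
          calc Real.exp E₁ * (u t - u x)
              ≤ Real.exp E₁ * (Real.exp (2 * E₁) * deriv (⇑v) x * (t - x)) := by gcongr
            _ = (Real.exp E₁ * Real.exp (2 * E₁)) * (deriv (⇑v) x * (t - x)) := by ring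
            _ ≤ 3 * (deriv (⇑v) x * (R₁ / 4)) := by
                have : t - x ≤ R₁ / 4 := by linarith [ht.2]
                have h0 : 0 ≤ t - x := by linarith
                gcongr
            _ ≤ deriv (⇑v) x * (x + R₁ - x) := by nlinarith
            _ ≤ _ := h2
        have h4 := le_of_mul_le_mul_left h3 hpe1
        linarith
  have hder : ∀ t, Real.log (deriv (⇑(v⁻¹ * u)) t)
      = Real.log (deriv (⇑u) t) - Real.log (deriv (⇑v) ((v⁻¹ * u) t)) := by
    intro t
    rw [Good.deriv_mul hv.inv hu, hv.deriv_inv, Real.log_mul (inv_ne_zero (hv.pos _).ne') (hu.pos _).ne',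
      Real.log_inv]
    rw [show (v⁻¹ * u) t = v⁻¹ (u t) from rfl]; ring
  have hb : ∀ t ∈ Icc (x - R₁ / 4) (x + R₁ / 4), |Real.log (deriv (⇑(v⁻¹ * u)) t)| ≤ 3 * E₁ := by
    intro t ht
    have htK : t ∈ Icc (x - R₁) (x + R₁) := ⟨by linarith [ht.1], by linarith [ht.2]⟩
    have h1 := cu.1 t htK x hx
    have h2 := cv.1 _ (hmem t ht) x hx
    rw [hder, show Real.log (deriv (⇑u) t) - Real.log (deriv (⇑v) ((v⁻¹ * u) t))
      = (Real.log (deriv (⇑u) t) - Real.log (deriv (⇑u) x))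
        - (Real.log (deriv (⇑v) ((v⁻¹ * u) t)) - Real.log (deriv (⇑v) x)) by rw [ed]; ring]
    calc _ ≤ _ := abs_sub _ _
      _ ≤ 2 * E₁ + E₁ := add_le_add h1 h2
      _ = 3 * E₁ := by ring
  refine ⟨hb, fun s hs t ht => ?_⟩
  have hsK : s ∈ Icc (x - R₁) (x + R₁) := ⟨by linarith [hs.1], by linarith [hs.2]⟩
  have htK : t ∈ Icc (x - R₁) (x + R₁) := ⟨by linarith [ht.1], by linarith [ht.2]⟩
  have h1 := cu.2 s hsK t htK
  have h2 := cv.2 _ (hmem s hs) _ (hmem t ht)
  -- the loop is Lipschitz with constant 3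
  have h3 : ∀ s ∈ Icc (x - R₁ / 4) (x + R₁ / 4), ∀ t ∈ Icc (x - R₁ / 4) (x + R₁ / 4), s ≤ t →
      (v⁻¹ * u) t - (v⁻¹ * u) s ≤ 3 * (t - s) := by
    intro s hs t ht hst
    rcases hst.eq_or_lt with rfl | hst
    · simp
    · obtain ⟨ξ, hξ, h⟩ := hg.mvt hst
      rw [h]
      have h5 := hb ξ ⟨by linarith [hξ.1, hs.1], by linarith [hξ.2, ht.2]⟩
      have h6 : deriv (⇑(v⁻¹ * u)) ξ ≤ 3 := by
        have h7 := (abs_le.mp h5).2
        have h8 : deriv (⇑(v⁻¹ * u)) ξ ≤ Real.exp (3 * E₁) := by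
          rw [← Real.exp_log (hg.pos ξ)]
          exact Real.exp_le_exp.mpr h7
        exact h8.trans hexp
      have : 0 < t - s := by linarith
      gcongr
  have h4 : |(v⁻¹ * u) s - (v⁻¹ * u) t| ≤ 3 * |s - t| := by
    rcases le_total s t with hst | hst
    · have h5 := h3 s hs t ht hst
      have h6 := hg.mono.monotone hst
      rw [abs_sub_comm, abs_of_nonneg (by linarith), abs_sub_comm, abs_of_nonneg (by linarith)]
      exact h5
    · have h5 := h3 t ht s hs hst
      have h6 := hg.mono.monotone hst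
      rw [abs_of_nonneg (by linarith), abs_of_nonneg (by linarith)]
      exact h5
  rw [hder, hder, show Real.log (deriv (⇑u) s) - Real.log (deriv (⇑v) ((v⁻¹ * u) s))
      - (Real.log (deriv (⇑u) t) - Real.log (deriv (⇑v) ((v⁻¹ * u) t)))
      = (Real.log (deriv (⇑u) s) - Real.log (deriv (⇑u) t))
        - (Real.log (deriv (⇑v) ((v⁻¹ * u) s)) - Real.log (deriv (⇑v) ((v⁻¹ * u) t))) by ring]
  calc _ ≤ _ := abs_sub _ _
    _ ≤ b₂ * |s - t| + b₁ * |(v⁻¹ * u) s - (v⁻¹ * u) t| := add_le_add h1 h2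
    _ ≤ b₂ * |s - t| + b₁ * (3 * |s - t|) := by gcongr
    _ = (b₂ + 3 * b₁) * |s - t| := by ring

lemma Lps_Osc_mono {w : Equiv.Perm ℝ} {p q p' q' E : ℝ} (h : Osc w p q E) (hp : p ≤ p')
    (hq : q' ≤ q) : Osc w p' q' E := fun u hu v hv =>
  h u ⟨hp.trans hu.1, hu.2.trans hq⟩ v ⟨hp.trans hv.1, hv.2.trans hq⟩

lemma loops (A : Sys) {x W E : ℝ} (hNE : A.NE x) (hW : A.SumB x W) (hE : 0 < E) (hE1 : E ≤ 1 / 100) :
    ∃ (R β : ℝ) (Lp : Set (Equiv.Perm ℝ)) (rep : Equiv.Perm ℝ → Equiv.Perm ℝ),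
      0 < R ∧ 0 ≤ β ∧ β * R ≤ E ∧
      (∀ l ∈ Lp, l ∈ A.G ∧ l x = x ∧ NId l (x - R) (x + R) E β) ∧
      (∀ g ∈ A.G, rep g ∈ A.G ∧ rep g x = g x ∧ Osc (rep g) (x - R) (x + R) E ∧
        ∃ k ∈ Subgroup.closure Lp, g = rep g * k) := by
  classical
  obtain ⟨M, hM⟩ := A.exists_lip
  have hM0 := hM.1
  have hW1 : 1 ≤ W := by
    have := hW {1} (by intro g hg; rw [Finset.mem_singleton] at hg; rw [hg]; exact Subgroup.one_mem _)
      (by
        intro g hg h hh hne
        rw [Finset.mem_singleton] at hg hh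
        exact absurd (hg.trans hh.symm) hne)
    rw [Finset.sum_singleton, Lps_deriv_one] at this
    exact this
  set E₁ : ℝ := E / 3 with hE₁
  have hE₁0 : 0 < E₁ := by positivity
  have hE₁1 : E₁ ≤ 1 / 100 := by rw [hE₁]; linarith
  set D : ℝ := 8 * (M + 1) * W with hD
  have hD0 : 0 < D := by positivity
  set R₁ : ℝ := E₁ / D with hR₁
  have hR₁0 : 0 < R₁ := by positivity
  have hRD : R₁ * D = E₁ := by rw [hR₁]; field_simp
  have hMW : M * W * R₁ ≤ E₁ / 8 := by
    have : M * W * R₁ ≤ (M + 1) * W * R₁ := by gcongr; linarith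
    calc _ ≤ _ := this
      _ = (R₁ * D) / 8 := by rw [hD]; ring
      _ = _ := by rw [hRD]
  have hMR : M * R₁ ≤ E₁ / 8 := by
    calc M * R₁ ≤ M * W * R₁ := by
          have : M * 1 ≤ M * W := by gcongr
          nlinarith
      _ ≤ _ := hMW
  have hRc : M * (3 * (2 * R₁) * W) ≤ E₁ := by nlinarith
  set p : ℝ := x - R₁ with hp
  set q : ℝ := x + R₁ with hq
  set Ctl : Equiv.Perm ℝ → Prop := fun w => Lps_Ctl w p q E₁ (3 * M * W) with hCtl
  -- existence of controlled elements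
  have hex : ∀ g ∈ A.G, ∃ w ∈ A.G, w x = Int.fract (g x) ∧ Ctl w := by
    intro g hg
    obtain ⟨n, w, hw, ⟨k, hk⟩, hmin⟩ := A.min_path {x} hg
    have hd : ∀ i j, i < j → j ≤ n → ∀ k : ℤ, w i x ≠ w j x + k := by
      intro i j hij hj k e
      exact hmin i j hij hj ⟨k, fun z hz => by rw [Set.mem_singleton_iff] at hz; rw [hz]; exact e⟩
    have hc := Lps_ctrl hM hNE hW hE₁0 hE₁1 hR₁0 hW1 hRc hw hd le_rfl
    have hwn := hw.mem le_rfl
    have hk' := hk x rfl
    refine ⟨T ^ (-k - ⌊g x⌋) * w n, Subgroup.mul_mem _ (A.Tz_mem _) hwn, ?_,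
      Lps_Ctl_T (A.good hwn) hc _⟩
    rw [Equiv.Perm.mul_apply, T_zpow, hk', Int.fract]; push_cast; ring
  set base : ℝ → Equiv.Perm ℝ := fun y =>
    if y = Int.fract x then T ^ (-⌊x⌋) else
      if h : ∃ w ∈ A.G, w x = y ∧ Ctl w then h.choose else 1 with hbase
  have hbase_spec : ∀ g ∈ A.G, base (Int.fract (g x)) ∈ A.G ∧
      base (Int.fract (g x)) x = Int.fract (g x) ∧ Ctl (base (Int.fract (g x))) := by
    intro g hg
    by_cases h : Int.fract (g x) = Int.fract x
    · have h1 : base (Int.fract (g x)) = T ^ (-⌊x⌋) := by simp only [hbase]; rw [if_pos h]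
      rw [h1]
      refine ⟨A.Tz_mem _, ?_, ?_, ?_⟩
      · rw [T_zpow, h, Int.fract]; push_cast; ring
      · intro u _ v _
        rw [Lps_deriv_Tz, Lps_deriv_Tz]; simp [hE₁0.le]
      · intro u _ v _
        rw [Lps_deriv_Tz, Lps_deriv_Tz]; simp; positivity
    · have h1 : base (Int.fract (g x)) = (hex g hg).choose := by
        simp only [hbase]; rw [if_neg h, dif_pos (hex g hg)]
      rw [h1]
      have := (hex g hg).choose_spec
      exact ⟨this.1, this.2.1, this.2.2⟩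
  set rep : Equiv.Perm ℝ → Equiv.Perm ℝ := fun g => T ^ ⌊g x⌋ * base (Int.fract (g x)) with hrep
  have hrepG : ∀ g ∈ A.G, rep g ∈ A.G := fun g hg =>
    Subgroup.mul_mem _ (A.Tz_mem _) (hbase_spec g hg).1
  have hrepx : ∀ g ∈ A.G, rep g x = g x := by
    intro g hg
    simp only [hrep]
    rw [Equiv.Perm.mul_apply, T_zpow, (hbase_spec g hg).2.1]
    exact Int.fract_add_floor _
  have hrepC : ∀ g ∈ A.G, Ctl (rep g) := fun g hg =>
    Lps_Ctl_T (A.good (hbase_spec g hg).1) (hbase_spec g hg).2.2 _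
  have hrepT : ∀ (j : ℤ) (g : Equiv.Perm ℝ), rep (T ^ j * g) = T ^ j * rep g := by
    intro j g
    simp only [hrep]
    have h1 : (T ^ j * g) x = g x + j := by rw [Equiv.Perm.mul_apply, T_zpow]
    rw [h1, Int.floor_add_intCast, Int.fract_add_intCast, add_comm, zpow_add, mul_assoc]
  have hrep1 : rep 1 = 1 := by
    simp only [hrep, hbase]
    have : (1 : Equiv.Perm ℝ) x = x := rfl
    rw [this, if_pos rfl, ← zpow_add]; simp
  -- loops
  set Lp : Set (Equiv.Perm ℝ) := {l | ∃ g ∈ A.G, ∃ s ∈ A.S, l = (rep (s * g))⁻¹ * (s * rep g)} with hLp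
  set R : ℝ := R₁ / 4 with hR
  set β : ℝ := 18 * (M + 1) * W with hβ
  have hβ0 : 0 ≤ β := by positivity
  refine ⟨R, β, Lp, rep, by positivity, hβ0, ?_, ?_, ?_⟩
  · have : β * R = 18 / 32 * (R₁ * D) := by rw [hβ, hR, hD]; ring
    rw [this, hRD, hE₁]; linarith
  · rintro l ⟨g, hg, s, hs, rfl⟩
    have hsG := A.S_mem hs
    have hsg : s * g ∈ A.G := Subgroup.mul_mem _ hsG hg
    set u := s * rep g with hu
    set v := rep (s * g) with hv
    have huG : u ∈ A.G := Subgroup.mul_mem _ hsG (hrepG g hg)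
    have hvG : v ∈ A.G := hrepG _ hsg
    have hux : u x = v x := by
      rw [hu, hv, hrepx _ hsg, Equiv.Perm.mul_apply, hrepx g hg]; rfl
    have hlG : v⁻¹ * u ∈ A.G := Subgroup.mul_mem _ (Subgroup.inv_mem _ hvG) huG
    have hlx : (v⁻¹ * u) x = x := by
      rw [Equiv.Perm.mul_apply, hux]; simp
    have hd : deriv (⇑u) x = deriv (⇑v) x :=
      hNE.deriv_congr huG hvG (k := 0) (by rw [hux]; simp)
    have hgr := A.good (hrepG g hg)
    have hgs := A.good hsG
    have cg := hrepC g hg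
    have hx : x ∈ Icc p q := ⟨by linarith, by linarith⟩
    have hexp : Real.exp E₁ ≤ 3 :=
      (Real.exp_le_exp.mpr (by linarith)).trans (Lps_exp_le hE₁0 hE₁1)
    have hsl : ∀ a ∈ Icc p q, ∀ b ∈ Icc p q,
        |Real.log (deriv (⇑s) (rep g a)) - Real.log (deriv (⇑s) (rep g b))| ≤ 3 * M * |a - b| := by
      intro a ha b hb
      have h1 := hM.2 s hs (rep g a) (rep g b)
      have h2 := Lps_abs_sub_le hgr cg.1 hx ha hb
      have h3 := hNE _ (hrepG g hg)
      have h4 := (hgr.pos x).le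
      calc _ ≤ _ := h1
        _ ≤ M * (Real.exp E₁ * deriv (⇑(rep g)) x * |a - b|) := by gcongr
        _ ≤ M * (3 * 1 * |a - b|) := by gcongr
        _ = _ := by ring
    have hlogu : ∀ a, Real.log (deriv (⇑u) a)
        = Real.log (deriv (⇑s) (rep g a)) + Real.log (deriv (⇑(rep g)) a) := by
      intro a
      rw [hu, Good.deriv_mul hgs hgr, Real.log_mul (hgs.pos _).ne' (hgr.pos _).ne']
    have cu : Lps_Ctl u p q (2 * E₁) (3 * M + 3 * M * W) := by
      constructor
      · intro a ha b hb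
        have h1 := hsl a ha b hb
        have h2 := cg.1 a ha b hb
        have h3 : |a - b| ≤ 2 * R₁ := by
          rw [abs_le]; constructor <;> linarith [ha.1, ha.2, hb.1, hb.2]
        have h4 : 3 * M * |a - b| ≤ E₁ := by
          calc 3 * M * |a - b| ≤ 3 * M * (2 * R₁) := by gcongr
            _ = 6 * (M * R₁) := by ring
            _ ≤ 6 * (E₁ / 8) := by gcongr
            _ ≤ E₁ := by linarith
        rw [hlogu, hlogu, show ∀ a b c d : ℝ, a + b - (c + d) = (a - c) + (b - d) by intros; ring]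
        calc _ ≤ _ := abs_add_le _ _
          _ ≤ E₁ + E₁ := add_le_add (h1.trans h4) h2
          _ = 2 * E₁ := by ring
      · intro a ha b hb
        have h1 := hsl a ha b hb
        have h2 := cg.2 a ha b hb
        rw [hlogu, hlogu, show ∀ a b c d : ℝ, a + b - (c + d) = (a - c) + (b - d) by intros; ring]
        calc _ ≤ _ := abs_add_le _ _
          _ ≤ 3 * M * |a - b| + 3 * M * W * |a - b| := add_le_add h1 h2
          _ = _ := by ring
    have cv := hrepC _ hsg
    have hN := Lps_loop (A.good huG) (A.good hvG) hR₁0 hE₁0 hE₁1 (by positivity) hux hd cu cv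
    refine ⟨hlG, hlx, ?_, ?_⟩
    · intro t ht
      have := hN.1 t ht
      rw [hE₁] at this
      linarith
    · intro a ha b hb
      have h1 := hN.2 a ha b hb
      have h2 : 3 * M + 3 * M * W + 3 * (3 * M * W) ≤ β := by
        rw [hβ]
        have : M * 1 ≤ M * W := by gcongr
        nlinarith
      calc _ ≤ _ := h1
        _ ≤ β * |a - b| := by gcongr
  · intro g hg
    have hosc : Osc (rep g) (x - R) (x + R) E₁ :=
      Lps_Osc_mono (hrepC g hg).1 (by linarith) (by linarith)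
    refine ⟨hrepG g hg, hrepx g hg, ?_, ?_⟩
    · exact fun a ha b hb => (hosc a ha b hb).trans (by linarith)
    obtain ⟨n, w, k, hw, rfl⟩ := A.exists_path hg
    have hind : ∀ i, i ≤ n → ∃ κ ∈ Subgroup.closure Lp, w i = rep (w i) * κ := by
      intro i
      induction i with
      | zero =>
        intro _
        refine ⟨1, Subgroup.one_mem _, ?_⟩
        rw [hw.1, hrep1]; rfl
      | succ i ih =>
        intro hi
        obtain ⟨κ, hκ, e⟩ := ih (by omega)
        obtain ⟨s, hs, e'⟩ := hw.2 i (by omega)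
        have hwi : w i ∈ A.G := hw.mem (by omega)
        refine ⟨((rep (s * w i))⁻¹ * (s * rep (w i))) * κ, Subgroup.mul_mem _
          (Subgroup.subset_closure ⟨w i, hwi, s, hs, rfl⟩) hκ, ?_⟩
        rw [e']
        calc s * w i = s * (rep (w i) * κ) := by rw [← e]
          _ = _ := by group
    obtain ⟨κ, hκ, e⟩ := hind n le_rfl
    refine ⟨κ, hκ, ?_⟩
    rw [hrepT, mul_assoc, ← e]

end Pool.Agent.H42.EM
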