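/-
ITR : iteration of one map on an interval.

PROOFS.
* iter_up / iter_down: log (g^i)'(s) = ∑_{l<i} log g'(g^l s) (induction, Good.deriv_mul).  For s, s' in the
  fundamental interval the points g^l s, g^l s' are in [g^l t, g^(l+1) t] ⊆ [p, q] (resp. [g^(l+1) t, g^l t]), so
  |log (g^i)'(s) - log (g^i)'(s')| ≤ c ∑_{l<i} |g^(l+1) t - g^l t| = c |g^i t - t| ≤ c (q - p) ≤ E.  Then two
  applications of the mean value theorem to g^i (Good) on [u, v] and [u', v'].
* exists_down: the sequence f^j b is strictly decreasing in (p, q] and bounded below by p = f p, its limit is a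
  fixed point of f in [p, b], so it is p < c.  Take the least j with f^(j+1) b < c.  (If j = 0: c ≤ b.)
* exists_up: mirror image: g^i p increases to q.  Take the least i with a < g^(i+1) p; then g^i p ≤ a.
* acc_down: the points f^j v ∈ L decrease to p.
-/
import Mathlib
import Pool.Agent.H42.EM.Ctr
import Pool.Agent.H42.EM.Lps

set_option autoImplicit false

namespace Pool.Agent.H42.EM

open Set

lemma ITR_good_pow {g : Equiv.Perm ℝ} (hg : Good g) (i : ℕ) : Good (g ^ i) := by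
  induction i with
  | zero => rw [pow_zero]; exact Good.one
  | succ n ih => rw [pow_succ]; exact ih.mul hg

lemma ITR_log_pow {g : Equiv.Perm ℝ} (hg : Good g) (i : ℕ) (s : ℝ) :
    Real.log (deriv (⇑(g ^ i)) s) = ∑ l ∈ Finset.range i, Real.log (deriv (⇑g) ((g ^ l) s)) := by
  induction i with
  | zero =>
    have h : (⇑(g ^ 0) : ℝ → ℝ) = id := by
      rw [pow_zero]; rfl
    rw [h]
    simp
  | succ n ih =>
    rw [Finset.sum_range_succ, ← ih, pow_succ', Good.deriv_mul hg (ITR_good_pow hg n),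
      Real.log_mul (hg.pos _).ne' ((ITR_good_pow hg n).pos _).ne']
    ring

lemma ITR_pow_succ_apply (g : Equiv.Perm ℝ) (l : ℕ) (t : ℝ) : (g ^ (l + 1)) t = (g ^ l) (g t) := by
  rw [pow_succ]; rfl

lemma ITR_pow_succ_apply' (g : Equiv.Perm ℝ) (l : ℕ) (t : ℝ) : (g ^ (l + 1)) t = g ((g ^ l) t) := by
  rw [pow_succ']; rfl

lemma ITR_dist {g : Equiv.Perm ℝ} (hg : Good g) {p q c E : ℝ} {i : ℕ} (α β : ℕ → ℝ) (hc : 0 ≤ c)
    (hL : ∀ u ∈ Icc p q, ∀ v ∈ Icc p q,
      |Real.log (deriv (⇑g) u) - Real.log (deriv (⇑g) v)| ≤ c * |u - v|)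
    (hα : ∀ l, l < i → p ≤ α l) (hβ : ∀ l, l < i → β l ≤ q)
    (hsum : c * ∑ l ∈ Finset.range i, (β l - α l) ≤ E) {s s' : ℝ}
    (hs : ∀ l, l < i → (g ^ l) s ∈ Icc (α l) (β l))
    (hs' : ∀ l, l < i → (g ^ l) s' ∈ Icc (α l) (β l)) :
    deriv (⇑(g ^ i)) s ≤ Real.exp E * deriv (⇑(g ^ i)) s' := by
  have hG := ITR_good_pow hg i
  have h1 : Real.log (deriv (⇑(g ^ i)) s) - Real.log (deriv (⇑(g ^ i)) s') ≤ E := by
    rw [ITR_log_pow hg, ITR_log_pow hg, ← Finset.sum_sub_distrib]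
    refine le_trans ?_ hsum
    rw [Finset.mul_sum]
    refine Finset.sum_le_sum fun l hl => ?_
    have hl' : l < i := Finset.mem_range.mp hl
    have h2 := hL _ ⟨(hα l hl').trans (hs l hl').1, (hs l hl').2.trans (hβ l hl')⟩
      _ ⟨(hα l hl').trans (hs' l hl').1, (hs' l hl').2.trans (hβ l hl')⟩
    refine (le_abs_self _).trans (h2.trans (mul_le_mul_of_nonneg_left ?_ hc))
    rw [abs_le]
    constructor <;> linarith [(hs l hl').1, (hs l hl').2, (hs' l hl').1, (hs' l hl').2]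
  have h3 : Real.log (deriv (⇑(g ^ i)) s) ≤ E + Real.log (deriv (⇑(g ^ i)) s') := by linarith
  have h4 := Real.exp_le_exp.mpr h3
  rw [Real.exp_add, Real.exp_log (hG.pos _), Real.exp_log (hG.pos _)] at h4
  exact h4

lemma ITR_final {h : Equiv.Perm ℝ} (hh : Good h) {E x y u v u' v' : ℝ}
    (hd : ∀ s ∈ Icc x y, ∀ s' ∈ Icc x y, deriv (⇑h) s ≤ Real.exp E * deriv (⇑h) s')
    (hu : x ≤ u) (huv : u ≤ v) (hv : v ≤ y) (hu' : x ≤ u') (huv' : u' ≤ v') (hv' : v' ≤ y) :
    (h v - h u) * (v' - u') ≤ Real.exp E * ((h v' - h u') * (v - u)) := by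
  rcases huv.eq_or_lt with rfl | huv1
  · simp
  rcases huv'.eq_or_lt with rfl | huv1'
  · simp
  obtain ⟨ξ, hξ, h1⟩ := hh.mvt huv1
  obtain ⟨ξ', hξ', h1'⟩ := hh.mvt huv1'
  have h2 := hd ξ ⟨hu.trans hξ.1.le, hξ.2.le.trans hv⟩ ξ' ⟨hu'.trans hξ'.1.le, hξ'.2.le.trans hv'⟩
  rw [h1, h1']
  have h3 : 0 ≤ (v - u) * (v' - u') := mul_nonneg (by linarith) (by linarith)
  calc deriv (⇑h) ξ * (v - u) * (v' - u') = deriv (⇑h) ξ * ((v - u) * (v' - u')) := by ring
    _ ≤ Real.exp E * deriv (⇑h) ξ' * ((v - u) * (v' - u')) := mul_le_mul_of_nonneg_right h2 h3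
    _ = _ := by ring

lemma iter_up {g : Equiv.Perm ℝ} (hg : Good g) {p q c E t : ℝ} {i : ℕ} (hc : 0 ≤ c)
    (hE : c * (q - p) ≤ E)
    (hL : ∀ u ∈ Icc p q, ∀ v ∈ Icc p q,
      |Real.log (deriv (⇑g) u) - Real.log (deriv (⇑g) v)| ≤ c * |u - v|)
    (ht : p ≤ t) (hm : ∀ l, l ≤ i → (g ^ l) t ≤ (g ^ (l + 1)) t)
    (hq : ∀ l, l < i → (g ^ (l + 1)) t ≤ q)
    {u v u' v' : ℝ} (hu : t ≤ u) (huv : u ≤ v) (hv : v ≤ g t) (hu' : t ≤ u') (huv' : u' ≤ v')
    (hv' : v' ≤ g t) (hpq : p ≤ q) :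
    ((g ^ i) v - (g ^ i) u) * (v' - u') ≤ Real.exp E * (((g ^ i) v' - (g ^ i) u') * (v - u)) := by
  refine ITR_final (ITR_good_pow hg i) (x := t) (y := g t) ?_ hu huv hv hu' huv' hv'
  have hα : ∀ l, l ≤ i → p ≤ (g ^ l) t := by
    intro l
    induction l with
    | zero => intro _; simpa using ht
    | succ n ih =>
      intro hn
      exact (ih (by omega)).trans (hm n (by omega))
  have hmem : ∀ s ∈ Icc t (g t), ∀ l, l < i → (g ^ l) s ∈ Icc ((g ^ l) t) ((g ^ (l + 1)) t) := by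
    intro s hs l _
    have hmono := (ITR_good_pow hg l).mono.monotone
    refine ⟨hmono hs.1, ?_⟩
    rw [ITR_pow_succ_apply]
    exact hmono hs.2
  intro s hs s' hs'
  refine ITR_dist hg (fun l => (g ^ l) t) (fun l => (g ^ (l + 1)) t) hc hL
    (fun l hl => hα l hl.le) hq ?_ (hmem s hs) (hmem s' hs')
  rw [Finset.sum_range_sub (fun l => (g ^ l) t)]
  refine le_trans (mul_le_mul_of_nonneg_left ?_ hc) hE
  rcases Nat.eq_zero_or_pos i with rfl | hi
  · simp
    exact hpq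
  · obtain ⟨j, rfl⟩ := Nat.exists_eq_succ_of_ne_zero hi.ne'
    have h1 := hq j (Nat.lt_succ_self j)
    simp only [Nat.succ_eq_add_one, pow_zero, Equiv.Perm.coe_one, id_eq] at h1 ⊢
    linarith

lemma iter_down {g : Equiv.Perm ℝ} (hg : Good g) {p q c E t : ℝ} {i : ℕ} (hc : 0 ≤ c)
    (hE : c * (q - p) ≤ E)
    (hL : ∀ u ∈ Icc p q, ∀ v ∈ Icc p q,
      |Real.log (deriv (⇑g) u) - Real.log (deriv (⇑g) v)| ≤ c * |u - v|)
    (ht : t ≤ q) (hm : ∀ l, l ≤ i → (g ^ (l + 1)) t ≤ (g ^ l) t)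
    (hp : ∀ l, l < i → p ≤ (g ^ (l + 1)) t)
    {u v u' v' : ℝ} (hu : g t ≤ u) (huv : u ≤ v) (hv : v ≤ t) (hu' : g t ≤ u') (huv' : u' ≤ v')
    (hv' : v' ≤ t) (hpq : p ≤ q) :
    ((g ^ i) v - (g ^ i) u) * (v' - u') ≤ Real.exp E * (((g ^ i) v' - (g ^ i) u') * (v - u)) := by
  refine ITR_final (ITR_good_pow hg i) (x := g t) (y := t) ?_ hu huv hv hu' huv' hv'
  have hβ : ∀ l, l ≤ i → (g ^ l) t ≤ q := by
    intro l
    induction l with
    | zero => intro _; simpa using ht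
    | succ n ih =>
      intro hn
      exact (hm n (by omega)).trans (ih (by omega))
  have hmem : ∀ s ∈ Icc (g t) t, ∀ l, l < i → (g ^ l) s ∈ Icc ((g ^ (l + 1)) t) ((g ^ l) t) := by
    intro s hs l _
    have hmono := (ITR_good_pow hg l).mono.monotone
    refine ⟨?_, hmono hs.2⟩
    rw [ITR_pow_succ_apply]
    exact hmono hs.1
  intro s hs s' hs'
  refine ITR_dist hg (fun l => (g ^ (l + 1)) t) (fun l => (g ^ l) t) hc hL
    hp (fun l hl => hβ l hl.le) ?_ (hmem s hs) (hmem s' hs')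
  have hsum : ∑ l ∈ Finset.range i, ((g ^ l) t - (g ^ (l + 1)) t) = (g ^ 0) t - (g ^ i) t :=
    Finset.sum_range_sub' (fun l => (g ^ l) t) i
  rw [hsum]
  refine le_trans (mul_le_mul_of_nonneg_left ?_ hc) hE
  rcases Nat.eq_zero_or_pos i with rfl | hi
  · simp
    exact hpq
  · obtain ⟨j, rfl⟩ := Nat.exists_eq_succ_of_ne_zero hi.ne'
    have h1 := hp j (Nat.lt_succ_self j)
    simp only [Nat.succ_eq_add_one, pow_zero, Equiv.Perm.coe_one, id_eq] at h1 ⊢
    linarith

lemma exists_down {f : Equiv.Perm ℝ} (hf : Good f) {p q : ℝ} (fp : f p = p)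
    (flt : ∀ t ∈ Ioc p q, f t < t) {b c : ℝ} (hc : p < c) (hcb : c ≤ b) (hb : b ≤ q) :
    ∃ j : ℕ, (f ^ (j + 1)) b < c ∧ c ≤ (f ^ j) b := by
  classical
  have hex : ∃ j : ℕ, (f ^ (j + 1)) b < c := by
    by_contra hcon
    push Not at hcon
    have hge : ∀ j : ℕ, c ≤ (f ^ j) b := by
      intro j
      cases j with
      | zero => simpa using hcb
      | succ n => exact hcon n
    have hle : ∀ j : ℕ, (f ^ j) b ≤ q := by
      intro j
      induction j with
      | zero => simpa using hb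
      | succ n ih =>
        rw [ITR_pow_succ_apply']
        exact (flt _ ⟨hc.trans_le (hge n), ih⟩).le.trans ih
    have hanti : Antitone (fun j : ℕ => (f ^ j) b) := by
      refine antitone_nat_of_succ_le fun n => ?_
      simp only [ITR_pow_succ_apply']
      exact (flt _ ⟨hc.trans_le (hge n), hle n⟩).le
    have hbdd : BddBelow (Set.range (fun j : ℕ => (f ^ j) b)) := ⟨c, by
      rintro _ ⟨j, rfl⟩
      exact hge j⟩
    have hlim := tendsto_atTop_ciInf hanti hbdd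
    set L := ⨅ j : ℕ, (f ^ j) b with hLdef
    have hcL : c ≤ L := ge_of_tendsto' hlim hge
    have hLq : L ≤ q := le_of_tendsto' hlim hle
    have hlim2 : Filter.Tendsto (fun j : ℕ => (f ^ (j + 1)) b) Filter.atTop (nhds L) :=
      (Filter.tendsto_add_atTop_iff_nat 1).mpr hlim
    have hlim3 : Filter.Tendsto (fun j : ℕ => (f ^ (j + 1)) b) Filter.atTop (nhds (f L)) := by
      have h := (hf.cont.tendsto L).comp hlim
      refine h.congr fun j => ?_
      simp only [Function.comp_apply, ITR_pow_succ_apply']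
    have heq : f L = L := tendsto_nhds_unique hlim3 hlim2
    have hlt := flt L ⟨hc.trans_le hcL, hLq⟩
    linarith
  refine ⟨Nat.find hex, Nat.find_spec hex, ?_⟩
  rcases Nat.eq_zero_or_pos (Nat.find hex) with h0 | hpos
  · rw [h0]; simpa using hcb
  · obtain ⟨n, hn⟩ := Nat.exists_eq_succ_of_ne_zero hpos.ne'
    have h1 : n < Nat.find hex := by omega
    have h2 := Nat.find_min hex h1
    push Not at h2
    rw [hn]
    exact h2

lemma exists_up {g : Equiv.Perm ℝ} (hg : Good g) {p q : ℝ} (gq : g q = q)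
    (ggt : ∀ t ∈ Ico p q, t < g t) {a b : ℝ} (ha : a < q) (hba : b ≤ a) (hb : p ≤ b) :
    ∃ i : ℕ, a < (g ^ (i + 1)) b ∧ (g ^ i) b ≤ a := by
  classical
  have hex : ∃ i : ℕ, a < (g ^ (i + 1)) b := by
    by_contra hcon
    push Not at hcon
    have hle : ∀ j : ℕ, (g ^ j) b ≤ a := by
      intro j
      cases j with
      | zero => simpa using hba
      | succ n => exact hcon n
    have hge : ∀ j : ℕ, p ≤ (g ^ j) b := by
      intro j
      induction j with
      | zero => simpa using hb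
      | succ n ih =>
        rw [ITR_pow_succ_apply']
        exact ih.trans (ggt _ ⟨ih, (hle n).trans_lt ha⟩).le
    have hmono : Monotone (fun j : ℕ => (g ^ j) b) := by
      refine monotone_nat_of_le_succ fun n => ?_
      simp only [ITR_pow_succ_apply']
      exact (ggt _ ⟨hge n, (hle n).trans_lt ha⟩).le
    have hbdd : BddAbove (Set.range (fun j : ℕ => (g ^ j) b)) := ⟨a, by
      rintro _ ⟨j, rfl⟩
      exact hle j⟩
    have hlim := tendsto_atTop_ciSup hmono hbdd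
    set L := ⨆ j : ℕ, (g ^ j) b with hLdef
    have hLa : L ≤ a := le_of_tendsto' hlim hle
    have hpL : p ≤ L := ge_of_tendsto' hlim hge
    have hlim2 : Filter.Tendsto (fun j : ℕ => (g ^ (j + 1)) b) Filter.atTop (nhds L) :=
      (Filter.tendsto_add_atTop_iff_nat 1).mpr hlim
    have hlim3 : Filter.Tendsto (fun j : ℕ => (g ^ (j + 1)) b) Filter.atTop (nhds (g L)) := by
      have h := (hg.cont.tendsto L).comp hlim
      refine h.congr fun j => ?_
      simp only [Function.comp_apply, ITR_pow_succ_apply']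
    have heq : g L = L := tendsto_nhds_unique hlim3 hlim2
    have hlt := ggt L ⟨hpL, hLa.trans_lt ha⟩
    linarith
  refine ⟨Nat.find hex, Nat.find_spec hex, ?_⟩
  rcases Nat.eq_zero_or_pos (Nat.find hex) with h0 | hpos
  · rw [h0]; simpa using hba
  · obtain ⟨n, hn⟩ := Nat.exists_eq_succ_of_ne_zero hpos.ne'
    have h1 : n < Nat.find hex := by omega
    have h2 := Nat.find_min hex h1
    push Not at h2
    rw [hn]
    exact h2

/-- points of `L` accumulate at `p` from the right -/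
lemma acc_down (A : Sys) {f : Equiv.Perm ℝ} (hf : f ∈ A.G) {p v : ℝ} (fp : f p = p) (hpv : p < v)
    (flt : ∀ t ∈ Ioc p v, f t < t) (hv : v ∈ A.L) {q : ℝ} (hq : p < q) : ∃ t ∈ Ioo p q, t ∈ A.L := by
  have hgood := A.good hf
  obtain ⟨j, hj, _⟩ := exists_down hgood fp flt (lt_min hq hpv) (min_le_right q v) le_rfl
  have hfix : ∀ n : ℕ, (f ^ n) p = p := by
    intro n
    induction n with
    | zero => simp
    | succ n ih => rw [ITR_pow_succ_apply', ih, fp]
  refine ⟨(f ^ (j + 1)) v, ⟨?_, hj.trans_le (min_le_left _ _)⟩, ?_⟩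
  · have h1 := (ITR_good_pow hgood (j + 1)).mono hpv
    rwa [hfix] at h1
  · exact (A.mem_iff (Subgroup.pow_mem _ hf (j + 1)) v).mpr hv

end Pool.Agent.H42.EM
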