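/-
CRSI : the inequality for the crossing lemma.

Two maps f, g ∈ G near the identity on [p, q], f p = p, f < id on (p, q], g q = q, g > id on [p, q), with
L ∩ (p, q) ≠ ∅, cannot exist.  Put X t = t - f t, Y t = g t - t.  Everything below on [p, q]; |log f'|, |log g'| ≤ ε
≤ 1/20 give |f' - 1|, |g' - 1| ≤ exp ε - 1 ≤ 0.052, so X and Y are Lipschitz with constant 0.052, more precisely
X t ≤ (1 - exp (-ε)) (t - p) ≤ ε (t - p).

PROOF of crs_ineq.  J = (a, b) gap, longest among the gaps contained in [p, q].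
 a > p: otherwise f a = a, and (f a, f b) = (a, f b) is a gap, so f b = b (eq_of_left), but b ∈ (p, q].
 b < q similarly (g q = q, eq_of_right).
 (1) By exists_up (with b := p) there is i with (g^i) p ≤ a < (g^(i+1)) p.  a' := (g^i)⁻¹ a ∈ [p, g p),
  b' := (g^i)⁻¹ b; (a', b') is a gap.  g moves it off itself: b' ≤ g a' (a' < g a' ∈ L; if g a' < b' then
  g a' ∈ Ioo a' b', impossible).  In particular b' ≤ g a' ≤ g (g p) ≤ q.
  iter_up for g, t = a', (u, v) = (a', b'), (u', v') = (a', g a'):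
  (b - a) * (g a' - a') ≤ exp ε * ((g a - a) * (b' - a')),   i.e.  (b' - a') Y a ≥ exp (-ε) (b - a) Y a'.
  And Y a' ≥ Y p - (exp ε - 1)(a' - p) ≥ (2 - exp ε) Y p ≥ 0.9 Y p since a' - p ≤ g p - p = Y p.
 (2) b' - p ≤ g (g p) - p = Y p + Y (g p) ≤ (1 + exp ε) Y p ≤ 2.1 Y p  (Y (g p) = g(g p) - g p ≤ exp ε (g p - p)),
  so X b' ≤ ε (b' - p) ≤ 2.1 ε Y p.
 (3) b' ≤ b (g increases) and p < b'.  By exists_down (c := b') there is j with (f^(j+1)) b < b' ≤ (f^j) b.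
  c₁ := (f^j)⁻¹ b' ∈ (f b, b], and J* := ((f^j)⁻¹ a', c₁) is a gap; as f moves J* off itself, f c₁ ≤ (f^j)⁻¹ a'.
  So J* ⊆ [f c₁, c₁] ⊆ [p, b] ⊆ [p, q].  iter_down for f, t = c₁, (u,v) = J*, (u', v') = (f c₁, c₁) :
  (b' - a') * X c₁ ≤ exp ε * (X b' * |J*|).      X c₁ ≥ X b - (exp ε - 1) (b - c₁) ≥ (2 - exp ε) X b ≥ 0.9 X b.
 (4) |J*| ≤ b - a by maximality.  Altogether
  (b - a) * 0.9 Y p * exp (-ε) / Y a * 0.9 X b ≤ exp ε * 2.1 ε Y p * (b - a), so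
  X b ≤ (2.1 / 0.81) exp (2ε) ε Y a ≤ 3 ε Y a   (exp (1/10) ≤ 1.11).
-/
import Mathlib
import Pool.Agent.H42.EM.Itr

set_option autoImplicit false

namespace Pool.Agent.H42.EM

open Set

lemma Crsi_mvt {g : Equiv.Perm ℝ} (hg : Good g) {p q ε c : ℝ} (hN : NId g p q ε c) {u v : ℝ}
    (hu : p ≤ u) (huv : u ≤ v) (hv : v ≤ q) :
    Real.exp (-ε) * (v - u) ≤ g v - g u ∧ g v - g u ≤ Real.exp ε * (v - u) := by
  rcases huv.eq_or_lt with h | h
  · subst h; simp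
  · obtain ⟨ξ, hξ, e⟩ := hg.mvt h
    have h1 := hN.1 ξ ⟨hu.trans hξ.1.le, hξ.2.le.trans hv⟩
    rw [abs_le] at h1
    have h2 : deriv (⇑g) ξ ≤ Real.exp ε := (Real.log_le_iff_le_exp (hg.pos ξ)).1 h1.2
    have h3 : Real.exp (-ε) ≤ deriv (⇑g) ξ := (Real.le_log_iff_exp_le (hg.pos ξ)).1 h1.1
    rw [e]
    exact ⟨mul_le_mul_of_nonneg_right h3 (by linarith),
      mul_le_mul_of_nonneg_right h2 (by linarith)⟩

lemma Crsi_pow_fix {g : Equiv.Perm ℝ} {q : ℝ} (gq : g q = q) (n : ℕ) : (g ^ n) q = q := by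
  induction n with
  | zero => simp
  | succ n ih => rw [pow_succ, Equiv.Perm.mul_apply, gq, ih]

lemma Crsi_pow_succ {g : Equiv.Perm ℝ} (n : ℕ) (t : ℝ) : (g ^ (n + 1)) t = g ((g ^ n) t) := by
  rw [pow_succ', Equiv.Perm.mul_apply]

lemma Crsi_pow_succ' {g : Equiv.Perm ℝ} (n : ℕ) (t : ℝ) : (g ^ n) (g t) = g ((g ^ n) t) := by
  rw [← Equiv.Perm.mul_apply, ← pow_succ, Crsi_pow_succ]

lemma Crsi_pow_mono {g : Equiv.Perm ℝ} (hg : StrictMono (⇑g)) (n : ℕ) : StrictMono (⇑(g ^ n)) := by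
  induction n with
  | zero => intro a b h; simpa using h
  | succ n ih =>
    intro a b h
    rw [Crsi_pow_succ, Crsi_pow_succ]
    exact hg (ih h)

lemma Crsi_fin {D Yp Ya d Ya' Xb Xc Xb' J e ε : ℝ} (hD : 0 < D) (hYp : 0 < Yp) (hYa : 0 < Ya)
    (hXb : 0 ≤ Xb) (hd : 0 < d) (hε : 0 ≤ ε) (hε1 : ε ≤ 1 / 20) (he : e ≤ 20 / 19) (he0 : 1 ≤ e)
    (h1 : D * Ya' ≤ e * (Ya * d)) (h2 : (1 - ε) * Yp ≤ Ya')
    (h3 : d * Xc ≤ e * (Xb' * J)) (h4 : (1 - ε) * Xb ≤ Xc) (h5 : Xb' ≤ ε * ((1 + e) * Yp))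
    (h6 : J ≤ D) (hJ : 0 ≤ J) : Xb ≤ 3 * ε * Ya := by
  have i1 : D * ((1 - ε) * Yp) ≤ e * (Ya * d) :=
    (mul_le_mul_of_nonneg_left h2 hD.le).trans h1
  have i2 : d * ((1 - ε) * Xb) ≤ e * (ε * ((1 + e) * Yp) * D) := by
    refine (mul_le_mul_of_nonneg_left h4 hd.le).trans (h3.trans ?_)
    refine mul_le_mul_of_nonneg_left ?_ (by linarith)
    have : Xb' * J ≤ ε * ((1 + e) * Yp) * J := mul_le_mul_of_nonneg_right h5 hJ
    refine this.trans (mul_le_mul_of_nonneg_left h6 ?_)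
    positivity
  have i3 : (D * ((1 - ε) * Yp)) * ((1 - ε) * Xb) ≤ (e * (Ya * d)) * ((1 - ε) * Xb) := by
    refine mul_le_mul_of_nonneg_right i1 (mul_nonneg (by linarith) hXb)
  have i4 : (e * (Ya * d)) * ((1 - ε) * Xb) ≤ e * Ya * (e * (ε * ((1 + e) * Yp) * D)) := by
    have := mul_le_mul_of_nonneg_left i2 (show 0 ≤ e * Ya by positivity)
    calc (e * (Ya * d)) * ((1 - ε) * Xb) = e * Ya * (d * ((1 - ε) * Xb)) := by ring
      _ ≤ _ := this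
  have i5 : (D * Yp) * ((1 - ε) ^ 2 * Xb) ≤ (D * Yp) * (e ^ 2 * (1 + e) * (ε * Ya)) := by
    calc (D * Yp) * ((1 - ε) ^ 2 * Xb) = (D * ((1 - ε) * Yp)) * ((1 - ε) * Xb) := by ring
      _ ≤ _ := i3.trans i4
      _ = _ := by ring
  have i6 : (1 - ε) ^ 2 * Xb ≤ e ^ 2 * (1 + e) * (ε * Ya) :=
    le_of_mul_le_mul_left i5 (by positivity)
  have i7 : (19 / 20 : ℝ) ^ 2 * Xb ≤ (1 - ε) ^ 2 * Xb := by
    refine mul_le_mul_of_nonneg_right ?_ hXb
    have : (19 / 20 : ℝ) ≤ 1 - ε := by linarith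
    gcongr
  have i8 : e ^ 2 * (1 + e) * (ε * Ya) ≤ (20 / 19) ^ 2 * (1 + 20 / 19) * (ε * Ya) := by
    have : 0 ≤ ε * Ya := by positivity
    gcongr
  have i9 : 0 ≤ ε * Ya := by positivity
  nlinarith

lemma crs_ineq (A : Sys) {f g : Equiv.Perm ℝ} (hf : f ∈ A.G) (hg : g ∈ A.G) {p q a b ε c : ℝ}
    (hpq : p < q) (fp : f p = p) (flt : ∀ t ∈ Ioc p q, f t < t) (gq : g q = q)
    (ggt : ∀ t ∈ Ico p q, t < g t) (hε : 0 ≤ ε) (hε1 : ε ≤ 1 / 20) (hc : 0 ≤ c)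
    (hcq : c * (q - p) ≤ ε) (hNf : NId f p q ε c) (hNg : NId g p q ε c)
    (hJ : IsGap A.L a b) (hpa : p ≤ a) (hbq : b ≤ q)
    (hmax : ∀ a' b', IsGap A.L a' b' → p ≤ a' → b' ≤ q → b' - a' ≤ b - a) :
    b - f b ≤ 3 * ε * (g a - a) := by
  have Gf := A.good hf
  have Gg := A.good hg
  have mf := Gf.mono
  have mg := Gg.mono
  have hab : a < b := hJ.1
  have haq : a < q := hab.trans_le hbq
  -- exponentials
  have he1 : 1 - ε ≤ Real.exp (-ε) := by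
    have := Real.add_one_le_exp (-ε); linarith
  have he2 : Real.exp ε ≤ 20 / 19 := by
    have h1 : Real.exp (-ε) * Real.exp ε = 1 := by rw [← Real.exp_add]; simp
    have h2 : (19 / 20 : ℝ) ≤ Real.exp (-ε) := by linarith
    have h3 := Real.exp_pos ε
    nlinarith
  have he3 : 1 ≤ Real.exp ε := Real.one_le_exp hε
  have hgpq : g p < q := by
    have := mg hpq; rwa [gq] at this
  have hYp : p < g p := ggt p ⟨le_rfl, hpq⟩
  -- step 1
  obtain ⟨i, hi1, hi2⟩ := exists_up Gg gq ggt haq hpa le_rfl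
  set a' := (g ^ i)⁻¹ a with ha'
  set b' := (g ^ i)⁻¹ b with hb'
  have mgi := Crsi_pow_mono mg i
  have ea : (g ^ i) a' = a := by simp [ha']
  have eb : (g ^ i) b' = b := by simp [hb']
  have hpa' : p ≤ a' := by
    rw [← mgi.le_iff_le, ea]; exact hi2
  have ha'gp : a' < g p := by
    rw [← mgi.lt_iff_lt, ea, Crsi_pow_succ', ← Crsi_pow_succ]; exact hi1
  have ha'q : a' < q := ha'gp.trans hgpq
  have hgi : (g ^ i)⁻¹ ∈ A.G := Subgroup.inv_mem _ (Subgroup.pow_mem _ hg i)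
  have hJ' : IsGap A.L a' b' := hJ.image A hgi
  have ha'b' : a' < b' := hJ'.1
  have hga' : a' < g a' := ggt a' ⟨hpa', ha'q⟩
  have hb'ga' : b' ≤ g a' := by
    by_contra hcon
    push Not at hcon
    exact hJ'.2.2.2 (g a') ⟨hga', hcon⟩ ((hJ'.image A hg).2.1)
  have hga'q : g a' < q := by
    have := mg ha'q; rwa [gq] at this
  have hb'q : b' < q := hb'ga'.trans_lt hga'q
  have hgl : ∀ l : ℕ, p ≤ (g ^ l) a' ∧ (g ^ l) a' < q := by
    intro l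
    induction l with
    | zero => simpa using ⟨hpa', ha'q⟩
    | succ l ih =>
      rw [Crsi_pow_succ]
      refine ⟨ih.1.trans (ggt _ ⟨ih.1, ih.2⟩).le, ?_⟩
      have := mg ih.2; rwa [gq] at this
  have I1 := iter_up (i := i) Gg hc hcq hNg.2 hpa' (fun l _ => by
      rw [Crsi_pow_succ]; exact (ggt _ ⟨(hgl l).1, (hgl l).2⟩).le) (fun l _ => (hgl (l + 1)).2.le)
      (u := a') (v := b') (u' := a') (v' := g a') le_rfl ha'b'.le hb'ga' le_rfl hga'.le le_rfl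
      (by linarith)
  rw [Crsi_pow_succ', ea, eb] at I1
  -- Y a'
  have hYa' : (1 - ε) * (g p - p) ≤ g a' - a' := by
    have h1 := (Crsi_mvt Gg hNg le_rfl hpa' ha'q.le).1
    have h2 : (1 - ε) * (a' - p) ≤ Real.exp (-ε) * (a' - p) :=
      mul_le_mul_of_nonneg_right he1 (by linarith)
    have h3 : ε * (a' - p) ≤ ε * (g p - p) := mul_le_mul_of_nonneg_left (by linarith) hε
    nlinarith
  -- step 2
  have hb'p : b' - p ≤ (1 + Real.exp ε) * (g p - p) := by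
    have h1 : b' ≤ g (g p) := hb'ga'.trans (mg ha'gp).le
    have h2 := (Crsi_mvt Gg hNg le_rfl hYp.le hgpq.le).2
    linarith
  have hpb' : p < b' := hpa'.trans_lt ha'b'
  have hXb' : b' - f b' ≤ ε * ((1 + Real.exp ε) * (g p - p)) := by
    have h1 := (Crsi_mvt Gf hNf le_rfl hpb'.le hb'q.le).1
    rw [fp] at h1
    have h2 : (1 - ε) * (b' - p) ≤ Real.exp (-ε) * (b' - p) :=
      mul_le_mul_of_nonneg_right he1 (by linarith)
    have h3 : ε * (b' - p) ≤ ε * ((1 + Real.exp ε) * (g p - p)) :=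
      mul_le_mul_of_nonneg_left hb'p hε
    linarith
  -- step 3
  have hb'b : b' ≤ b := by
    rw [← eb]
    have hle : ∀ n : ℕ, b' ≤ (g ^ n) b' ∧ (g ^ n) b' < q := by
      intro n
      induction n with
      | zero => simpa using hb'q
      | succ n ih =>
        rw [Crsi_pow_succ]
        have h1 := ggt _ ⟨hpb'.le.trans ih.1, ih.2⟩
        refine ⟨ih.1.trans h1.le, ?_⟩
        have := mg ih.2; rwa [gq] at this
    exact (hle i).1
  obtain ⟨j, hj1, hj2⟩ := exists_down Gf fp flt hpb' hb'b hbq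
  have mfj := Crsi_pow_mono mf j
  set c₁ := (f ^ j)⁻¹ b' with hc₁
  set l₁ := (f ^ j)⁻¹ a' with hl₁
  have ec : (f ^ j) c₁ = b' := by simp [hc₁]
  have el : (f ^ j) l₁ = a' := by simp [hl₁]
  have hc₁b : c₁ ≤ b := by
    rw [← mfj.le_iff_le, ec]; exact hj2
  have hfbc₁ : f b < c₁ := by
    rw [← mfj.lt_iff_lt, ec, Crsi_pow_succ', ← Crsi_pow_succ]; exact hj1
  have hfb : p < f b := by
    have := mf (hpa.trans_lt hab); rwa [fp] at this
  have hpc₁ : p < c₁ := hfb.trans hfbc₁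
  have hc₁q : c₁ ≤ q := hc₁b.trans hbq
  have hfj : (f ^ j)⁻¹ ∈ A.G := Subgroup.inv_mem _ (Subgroup.pow_mem _ hf j)
  have hJ1 : IsGap A.L l₁ c₁ := hJ'.image A hfj
  have hfc₁ : f c₁ < c₁ := flt c₁ ⟨hpc₁, hc₁q⟩
  have hfc₁l : f c₁ ≤ l₁ := by
    by_contra hcon
    push Not at hcon
    exact hJ1.2.2.2 (f c₁) ⟨hcon, hfc₁⟩ ((hJ1.image A hf).2.2.1)
  have hpfc₁ : p < f c₁ := by
    have := mf hpc₁; rwa [fp] at this
  have hpl₁ : p ≤ l₁ := hpfc₁.le.trans hfc₁l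
  have hfl : ∀ l : ℕ, p < (f ^ l) c₁ ∧ (f ^ l) c₁ ≤ q := by
    intro l
    induction l with
    | zero => simpa using ⟨hpc₁, hc₁q⟩
    | succ l ih =>
      rw [Crsi_pow_succ]
      refine ⟨?_, (flt _ ⟨ih.1, ih.2⟩).le.trans ih.2⟩
      have := mf ih.1; rwa [fp] at this
  have I2 := iter_down (i := j) Gf hc hcq hNf.2 hc₁q (fun l _ => by
      rw [Crsi_pow_succ]; exact (flt _ ⟨(hfl l).1, (hfl l).2⟩).le) (fun l _ => (hfl (l + 1)).1.le)
      (u := l₁) (v := c₁) (u' := f c₁) (v' := c₁) hfc₁l hJ1.1.le le_rfl le_rfl hfc₁.le le_rfl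
      (by linarith)
  rw [Crsi_pow_succ', ec, el] at I2
  have hXc : (1 - ε) * (b - f b) ≤ c₁ - f c₁ := by
    have h1 := (Crsi_mvt Gf hNf hpc₁.le hc₁b hbq).1
    have h2 : (1 - ε) * (b - c₁) ≤ Real.exp (-ε) * (b - c₁) :=
      mul_le_mul_of_nonneg_right he1 (by linarith)
    have h3 : ε * (b - c₁) ≤ ε * (b - f b) := mul_le_mul_of_nonneg_left (by linarith) hε
    linarith
  have hmaxJ := hmax l₁ c₁ hJ1 hpl₁ hc₁q
  have hbp : p < b := hpa.trans_lt hab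
  have hXb0 : 0 ≤ b - f b := by
    have := flt b ⟨hbp, hbq⟩; linarith
  have hYa : 0 < g a - a := by
    have := ggt a ⟨hpa, haq⟩; linarith
  exact Crsi_fin (D := b - a) (Yp := g p - p) (Ya := g a - a) (d := b' - a') (Ya' := g a' - a')
    (Xb := b - f b) (Xc := c₁ - f c₁) (Xb' := b' - f b') (J := c₁ - l₁) (e := Real.exp ε) (ε := ε)
    (by linarith) (by linarith) hYa hXb0 (by linarith) hε hε1 he2 he3 I1 hYa' I2 hXc hXb' hmaxJ
    (by linarith [hJ1.1])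

end Pool.Agent.H42.EM
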