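/-
REFL : reflection x ↦ -x of a system.

PROOFS: routine.  rf g x = -g (-x).  The group of the reflected system is the conjugate of the group by
x ↦ -x (rf T = T⁻¹; rf is a group automorphism, use Subgroup.closure_induction in both directions, rf (rf g) = g).
-/
import Mathlib
import Pool.Agent.H42.EM.Bas

set_option autoImplicit false

namespace Pool.Agent.H42.EM

open Set

/-- conjugation by `x ↦ -x` -/
def rf (g : Equiv.Perm ℝ) : Equiv.Perm ℝ := Equiv.neg ℝ * g * Equiv.neg ℝ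

lemma rf_apply (g : Equiv.Perm ℝ) (x : ℝ) : rf g x = -g (-x) := rfl

lemma rf_rf (g : Equiv.Perm ℝ) : rf (rf g) = g := by
  ext x
  rw [rf_apply, rf_apply, neg_neg, neg_neg]

lemma rf_one : rf 1 = 1 := by
  ext x
  rw [rf_apply, Equiv.Perm.one_apply, Equiv.Perm.one_apply, neg_neg]

lemma rf_mul (g h : Equiv.Perm ℝ) : rf (g * h) = rf g * rf h := by
  ext x
  rw [rf_apply, Equiv.Perm.mul_apply, Equiv.Perm.mul_apply, rf_apply, rf_apply, neg_neg]

lemma rf_inv (g : Equiv.Perm ℝ) : rf g⁻¹ = (rf g)⁻¹ := by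
  apply eq_inv_of_mul_eq_one_right
  rw [← rf_mul, mul_inv_cancel, rf_one]

lemma rf_inj {g h : Equiv.Perm ℝ} (e : rf g = rf h) : g = h := by
  rw [← rf_rf g, e, rf_rf]

lemma deriv_rf (g : Equiv.Perm ℝ) (x : ℝ) : deriv (⇑(rf g)) x = deriv (⇑g) (-x) := by
  have h1 : (⇑(rf g)) = fun x => -((fun y => g (-y)) x) := by
    funext x
    exact rf_apply g x
  rw [h1, deriv.fun_neg, deriv_comp_neg, neg_neg]

lemma Good.rf {g : Equiv.Perm ℝ} (hg : Good g) : Good (rf g) := by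
  refine ⟨?_, fun x => ?_, fun x => ?_⟩
  · have h1 : (⇑(Pool.Agent.H42.EM.rf g)) = fun x => -(g (-x)) := by
      funext x
      exact rf_apply g x
    rw [h1]
    exact (hg.1.comp contDiff_neg).neg
  · rw [deriv_rf]
    exact hg.2.1 _
  · rw [rf_apply, rf_apply]
    have h1 := hg.2.2 (-x - 1)
    rw [sub_add_cancel] at h1
    have h2 : -(x + 1) = -x - 1 := by ring
    rw [h2, h1]
    ring

theorem Refl_T : rf T = T⁻¹ := by
  apply eq_inv_of_mul_eq_one_right
  ext x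
  rw [Equiv.Perm.mul_apply, T_apply, rf_apply, T_apply, Equiv.Perm.one_apply]
  ring

theorem Refl_mem {n : ℕ} {f : Fin n → Equiv.Perm ℝ} {g : Equiv.Perm ℝ} (hg : g ∈ Grp f) :
    rf g ∈ Grp (fun i => rf (f i)) := by
  induction hg using Subgroup.closure_induction with
  | mem x hx =>
    rcases hx with rfl | ⟨i, rfl⟩
    · have h1 : rf (Equiv.addRight (1 : ℝ)) = T⁻¹ := Refl_T
      rw [h1]
      exact inv_mem (Subgroup.subset_closure (mem_insert _ _))
    · exact Subgroup.subset_closure (mem_insert_of_mem _ ⟨i, rfl⟩)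
  | one =>
    rw [rf_one]
    exact one_mem _
  | mul x y _ _ hx hy =>
    rw [rf_mul]
    exact mul_mem hx hy
  | inv x _ hx =>
    rw [rf_inv]
    exact inv_mem hx

theorem Refl_mem' {n : ℕ} {f : Fin n → Equiv.Perm ℝ} {g : Equiv.Perm ℝ} :
    g ∈ Grp (fun i => rf (f i)) ↔ rf g ∈ Grp f := by
  constructor
  · intro h
    have h1 := Refl_mem h
    simp only [rf_rf] at h1
    exact h1
  · intro h
    have h1 := Refl_mem h
    rw [rf_rf] at h1
    exact h1

/-- the reflected system -/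
def Sys.refl (A : Sys) : Sys where
  n := A.n
  f := fun i => rf (A.f i)
  hf := fun i => (A.hf i).rf
  L := {x | -x ∈ A.L}
  closed := A.closed.preimage continuous_neg
  ne := by
    obtain ⟨x, hx⟩ := A.ne
    exact ⟨-x, by rw [mem_ofPred_eq, neg_neg]; exact hx⟩
  inv := by
    rintro g hg _ ⟨x, hx, rfl⟩
    have h1 := Refl_mem'.1 hg
    refine A.inv (rf g) h1 ⟨-x, hx, ?_⟩
    rw [rf_apply, neg_neg]
  mini := by
    intro K hK hKc hKn hKi
    have h1 : {x | -x ∈ K} = A.L := by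
      apply A.mini
      · intro x hx
        have := hK hx
        rw [mem_ofPred_eq, neg_neg] at this
        exact this
      · exact hKc.preimage continuous_neg
      · obtain ⟨x, hx⟩ := hKn
        exact ⟨-x, by rw [mem_ofPred_eq, neg_neg]; exact hx⟩
      · rintro g hg _ ⟨x, hx, rfl⟩
        refine hKi (rf g) (Refl_mem hg) ⟨-x, hx, ?_⟩
        rw [rf_apply, neg_neg]
    ext x
    rw [mem_ofPred_eq, ← h1, mem_ofPred_eq, neg_neg]
  nuniv := by
    intro h
    apply A.nuniv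
    ext x
    have h1 : -x ∈ {x | -x ∈ A.L} := by rw [h]; exact mem_univ _
    rw [mem_ofPred_eq, neg_neg] at h1
    simp [h1]
  infi := by
    have h1 : ((A.L ∩ Ico (0 : ℝ) 1) \ {0}).Infinite := A.infi.sdiff (finite_singleton 0)
    have h2 := h1.image (f := fun x : ℝ => 1 - x) (fun a _ b _ hab => by
      simp only at hab
      linarith)
    refine h2.mono ?_
    rintro _ ⟨x, ⟨⟨hx1, hx2⟩, hx3⟩, rfl⟩
    have hx0 : x ≠ 0 := hx3
    refine ⟨?_, ?_, ?_⟩
    · show -(1 - x) ∈ A.L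
      have h3 := (A.mem_add_int x (-1)).2 hx1
      have h4 : -(1 - x) = x + ((-1 : ℤ) : ℝ) := by push_cast; ring
      rw [h4]
      exact h3
    · linarith [hx2.2]
    · have : 0 < x := lt_of_le_of_ne hx2.1 (Ne.symm hx0)
      linarith

lemma Sys.refl_L (A : Sys) (x : ℝ) : x ∈ A.refl.L ↔ -x ∈ A.L := Iff.rfl

lemma Sys.refl_G (A : Sys) (g : Equiv.Perm ℝ) : g ∈ A.refl.G ↔ rf g ∈ A.G := Refl_mem'

lemma Sys.refl_NE (A : Sys) (x : ℝ) : A.refl.NE x ↔ A.NE (-x) := by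
  constructor
  · intro h g hg
    have h1 := h (rf g) ((A.refl_G _).2 (by rw [rf_rf]; exact hg))
    rw [deriv_rf] at h1
    exact h1
  · intro h g hg
    have h1 := h (rf g) ((A.refl_G _).1 hg)
    rw [deriv_rf, neg_neg] at h1
    exact h1

theorem Refl_sum {P Q : Equiv.Perm ℝ → Prop} (h : ∀ g, P g → Q (rf g)) {x y W : ℝ} (hxy : -y = x)
    (H : ∀ s : Finset (Equiv.Perm ℝ), (∀ g ∈ s, Q g) →
      (∀ g ∈ s, ∀ h ∈ s, g ≠ h → ∀ k : ℤ, g y ≠ h y + k) → ∑ g ∈ s, deriv (⇑g) y ≤ W)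
    (s : Finset (Equiv.Perm ℝ)) (hs : ∀ g ∈ s, P g)
    (hd : ∀ g ∈ s, ∀ h ∈ s, g ≠ h → ∀ k : ℤ, g x ≠ h x + k) : ∑ g ∈ s, deriv (⇑g) x ≤ W := by
  have h1 := H (s.map ⟨rf, fun a b hab => rf_inj hab⟩) (by
    intro g hg
    obtain ⟨g', hg', rfl⟩ := Finset.mem_map.1 hg
    exact h g' (hs g' hg')) (by
    intro g hg k hk hne j
    obtain ⟨g', hg', rfl⟩ := Finset.mem_map.1 hg
    obtain ⟨k', hk', rfl⟩ := Finset.mem_map.1 hk
    have hne' : g' ≠ k' := fun e => hne (by rw [e])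
    intro he
    apply hd g' hg' k' hk' hne' (-j)
    simp only [Function.Embedding.coeFn_mk, rf_apply, hxy] at he
    push_cast
    linarith)
  rw [Finset.sum_map] at h1
  refine le_trans (le_of_eq ?_) h1
  refine Finset.sum_congr rfl fun g _ => ?_
  rw [Function.Embedding.coeFn_mk, deriv_rf, hxy]

lemma Sys.refl_SumB (A : Sys) (x W : ℝ) : A.refl.SumB x W ↔ A.SumB (-x) W := by
  constructor
  · intro H s hs hd
    exact Refl_sum (P := fun g => g ∈ A.G) (Q := fun g => g ∈ A.refl.G)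
      (fun g hg => (A.refl_G _).2 (by rw [rf_rf]; exact hg)) (x := -x) (y := x) rfl H s hs hd
  · intro H s hs hd
    exact Refl_sum (P := fun g => g ∈ A.refl.G) (Q := fun g => g ∈ A.G)
      (fun g hg => (A.refl_G _).1 hg) (x := x) (y := -x) (neg_neg x) H s hs hd

lemma Sys.refl_gap (A : Sys) (a b : ℝ) : IsGap A.refl.L a b ↔ IsGap A.L (-b) (-a) := by
  constructor
  · rintro ⟨h1, h2, h3, h4⟩
    refine ⟨by linarith, h3, h2, fun t ht => ?_⟩
    have h5 := h4 (-t) ⟨by linarith [ht.2], by linarith [ht.1]⟩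
    rw [A.refl_L, neg_neg] at h5
    exact h5
  · rintro ⟨h1, h2, h3, h4⟩
    refine ⟨by linarith, h3, h2, fun t ht => ?_⟩
    exact h4 (-t) ⟨by linarith [ht.2], by linarith [ht.1]⟩

lemma Sys.refl_AccR (A : Sys) (x : ℝ) :
    AccR A.refl.L x ↔ ∀ δ > 0, ∃ t ∈ Ioo (-x - δ) (-x), t ∈ A.L := by
  constructor
  · intro h δ hδ
    obtain ⟨t, ht, hL⟩ := h δ hδ
    exact ⟨-t, ⟨by linarith [ht.2], by linarith [ht.1]⟩, hL⟩
  · intro h δ hδ
    obtain ⟨t, ht, hL⟩ := h δ hδ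
    refine ⟨-t, ⟨by linarith [ht.2], by linarith [ht.1]⟩, ?_⟩
    rw [A.refl_L, neg_neg]
    exact hL

end Pool.Agent.H42.EM
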