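/-
CRS : the crossing lemma (from crs_ineq, file Crsi.lean).

PROOF of crossing.  A gap inside [p, q] exists: L ∩ (p, q) ∋ t, and t is an accumulation point (perfect), so two
 points of L in (p, q), gap_between.  There is a longest one: only finitely many gaps of length ≥ η mod ℤ
 (gap_finset), so only finitely many inside [p, q] (Set.Finite, exists_max_image).  crs_ineq gives
 X b ≤ 3 ε Y a.  Apply crs_ineq to the reflected system A.refl with (f, g, p, q, a, b) replaced by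
 (rf g, rf f, -q, -p, -b, -a): Y a ≤ 3 ε X b  (in A.refl: b ↦ -a, -a - rf g (-a) = -a + g a = Y a, etc.).
 So X b ≤ 9 ε² X b < X b, contradiction with X b > 0.
-/
import Mathlib
import Pool.Agent.H42.EM.Crsi
import Pool.Agent.H42.EM.Fam
import Pool.Agent.H42.EM.Refl

set_option autoImplicit false

namespace Pool.Agent.H42.EM

open Set

lemma Crs_finite (F : Finset ℝ) (p q : ℝ) :
    {a : ℝ | p ≤ a ∧ a ≤ q ∧ ∃ y ∈ F, ∃ k : ℤ, a = y + k}.Finite := by
  have hfin : (⋃ y ∈ F, (fun k : ℤ => y + k) '' Icc ⌊p - y⌋ ⌈q - y⌉).Finite :=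
    F.finite_toSet.biUnion fun y _ => (Set.finite_Icc _ _).image _
  refine hfin.subset ?_
  rintro a ⟨h1, h2, y, hy, k, rfl⟩
  refine mem_biUnion (show y ∈ (F : Set ℝ) from hy) ⟨k, ⟨?_, ?_⟩, rfl⟩
  · have h3 : (⌊p - y⌋ : ℝ) ≤ p - y := Int.floor_le _
    have h4 : (⌊p - y⌋ : ℝ) ≤ (k : ℝ) := by linarith
    exact_mod_cast h4
  · have h3 : q - y ≤ (⌈q - y⌉ : ℝ) := Int.le_ceil _
    have h4 : (k : ℝ) ≤ (⌈q - y⌉ : ℝ) := by linarith
    exact_mod_cast h4

lemma Crs_longest (A : Sys) {p q : ℝ} (hex : ∃ t ∈ Ioo p q, t ∈ A.L) :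
    ∃ a b, IsGap A.L a b ∧ p ≤ a ∧ b ≤ q ∧
      ∀ a' b', IsGap A.L a' b' → p ≤ a' → b' ≤ q → b' - a' ≤ b - a := by
  obtain ⟨t, ht, htL⟩ := hex
  obtain ⟨y, hy, hne, hd⟩ := A.perfect htL (ε := min (t - p) (q - t))
    (lt_min (by linarith [ht.1]) (by linarith [ht.2]))
  have hd1 := hd.trans_le (min_le_left _ _)
  have hd2 := hd.trans_le (min_le_right _ _)
  rw [abs_lt] at hd1 hd2
  obtain ⟨a₀, b₀, hgap, ha₀, hb₀⟩ : ∃ a b, IsGap A.L a b ∧ p ≤ a ∧ b ≤ q := by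
    rcases lt_or_gt_of_ne hne with h | h
    · obtain ⟨a, b, h1, h2, h3⟩ := A.gap_between hy htL h
      exact ⟨a, b, h1, by linarith, by linarith [ht.2]⟩
    · obtain ⟨a, b, h1, h2, h3⟩ := A.gap_between htL hy h
      exact ⟨a, b, h1, by linarith [ht.1], by linarith⟩
  have hη : 0 < b₀ - a₀ := by linarith [hgap.1]
  obtain ⟨F, -, hF⟩ := gap_finset A hη
  set S : Set (ℝ × ℝ) := {x | IsGap A.L x.1 x.2 ∧ p ≤ x.1 ∧ x.2 ≤ q ∧ b₀ - a₀ ≤ x.2 - x.1} with hS
  have hfin : S.Finite := by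
    refine Set.Finite.of_finite_image (f := Prod.fst) ((Crs_finite F p q).subset ?_) ?_
    · rintro _ ⟨x, ⟨h1, h2, h3, h4⟩, rfl⟩
      exact ⟨h2, by linarith [h1.1], hF _ _ h1 h4⟩
    · rintro ⟨a, b⟩ hx ⟨a', b'⟩ hx' h
      have h' : a = a' := h
      subst h'
      have h1 : IsGap A.L a b := hx.1
      have h2 : IsGap A.L a b' := hx'.1
      rw [h1.eq_of_left h2]
  obtain ⟨x, hx, hmax⟩ := Set.exists_max_image S (fun x => x.2 - x.1) hfin
    ⟨(a₀, b₀), hgap, ha₀, hb₀, le_refl _⟩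
  refine ⟨x.1, x.2, hx.1, hx.2.1, hx.2.2.1, fun a' b' h1 h2 h3 => ?_⟩
  rcases le_total (b₀ - a₀) (b' - a') with h | h
  · exact hmax (a', b') ⟨h1, h2, h3, h⟩
  · exact h.trans hx.2.2.2

lemma Crs_nid {g : Equiv.Perm ℝ} {p q ε c : ℝ} (h : NId g p q ε c) : NId (rf g) (-q) (-p) ε c := by
  refine ⟨fun t ht => ?_, fun u hu v hv => ?_⟩
  · rw [deriv_rf]
    exact h.1 (-t) ⟨by linarith [ht.2], by linarith [ht.1]⟩
  · rw [deriv_rf, deriv_rf]
    have h1 := h.2 (-u) ⟨by linarith [hu.2], by linarith [hu.1]⟩ (-v)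
      ⟨by linarith [hv.2], by linarith [hv.1]⟩
    have e : |-u - -v| = |u - v| := by
      rw [show -u - -v = -(u - v) by ring, abs_neg]
    rwa [e] at h1

lemma crossing (A : Sys) {f g : Equiv.Perm ℝ} (hf : f ∈ A.G) (hg : g ∈ A.G) {p q ε c : ℝ}
    (hpq : p < q) (fp : f p = p) (flt : ∀ t ∈ Ioc p q, f t < t) (gq : g q = q)
    (ggt : ∀ t ∈ Ico p q, t < g t) (hε : 0 ≤ ε) (hε1 : ε ≤ 1 / 20) (hc : 0 ≤ c)
    (hcq : c * (q - p) ≤ ε) (hNf : NId f p q ε c) (hNg : NId g p q ε c)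
    (hex : ∃ t ∈ Ioo p q, t ∈ A.L) : False := by
  obtain ⟨a, b, hJ, hpa, hbq, hmax⟩ := Crs_longest A hex
  have h1 := crs_ineq A hf hg hpq fp flt gq ggt hε hε1 hc hcq hNf hNg hJ hpa hbq hmax
  have h2 := crs_ineq A.refl (f := rf g) (g := rf f) (p := -q) (q := -p) (a := -b) (b := -a)
    (ε := ε) (c := c)
    ((A.refl_G _).2 (by rw [rf_rf]; exact hg)) ((A.refl_G _).2 (by rw [rf_rf]; exact hf))
    (by linarith)
    (by rw [rf_apply, neg_neg, gq])
    (fun t ht => by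
      rw [rf_apply]
      have := ggt (-t) ⟨by linarith [ht.2], by linarith [ht.1]⟩
      linarith)
    (by rw [rf_apply, neg_neg, fp])
    (fun t ht => by
      rw [rf_apply]
      have := flt (-t) ⟨by linarith [ht.2], by linarith [ht.1]⟩
      linarith)
    hε hε1 hc
    (by
      have e : -p - -q = q - p := by ring
      rw [e]; exact hcq)
    (Crs_nid hNg) (Crs_nid hNf)
    ((A.refl_gap _ _).2 (by rw [neg_neg, neg_neg]; exact hJ))
    (by linarith) (by linarith)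
    (fun a' b' h3 h4 h5 => by
      have h6 := hmax _ _ ((A.refl_gap _ _).1 h3) (by linarith) (by linarith)
      linarith)
  rw [rf_apply, rf_apply, neg_neg, neg_neg] at h2
  have hX : 0 < b - f b := by
    have := flt b ⟨by linarith [hJ.1], hbq⟩
    linarith
  have h3 : 3 * ε * (g a - a) ≤ 3 * ε * (3 * ε * (b - f b)) := by
    refine mul_le_mul_of_nonneg_left ?_ (by linarith)
    linarith
  have h4 : 3 * ε * (3 * ε) ≤ 1 / 2 := by nlinarith
  nlinarith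


end Pool.Agent.H42.EM
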