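/-
MXD : a free element from a near-identity family without common fixed points.

PROOF of free_elt.  (ε ≤ 1/200, Lp as in `loops`, every p ∈ (x, x + R) is moved by some l ∈ Lp.)
(0) NId of inverses: for l ∈ Lp and |t - x| ≤ R/2: |l⁻¹ t - x| ≤ exp ε |t - x| ≤ R (l x = x and l expands distances
  to x by at least exp(-ε) inside [x-R, x+R]: l (x ± R) is at distance ≥ exp(-ε) R ≥ R/2 from x), so
  log (l⁻¹)' (t) = - log l' (l⁻¹ t) and NId l⁻¹ (x - R/2) (x + R/2) ε (2β).  Let Lq = Lp ∪ Lp⁻¹, all elements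
  satisfy NId on [x - R/2, x + R/2] with (ε, 2β), fix x and are in G.
(1) v ∈ L ∩ (x, x + R/4) (hacc).  D := sup {|l v - v| : l ∈ Lq}, bounded by (exp ε - 1)(v - x) and > 0 (hmove).
  Choose l ∈ Lq with |l v - v| ≥ (3/4) D.  If l v < v put f = l, else f = l⁻¹: l maps [l⁻¹ v, v] onto [v, l v], so
  v - l⁻¹ v ≥ exp(-ε)(l v - v).  In both cases f ∈ Lq, X := v - f v ≥ (2/3) D > 0.
(2) p := sSup {t ∈ [x, v] : f t = t} (contains x, closed): f p = p, p < v and f t < t on (p, v] (no fixed points there,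
  sign by the intermediate value theorem).  CLAIM p = x.  Then f is as wanted.
(3) Suppose x < p.  Some l ∈ Lp moves p, let g = l or l⁻¹ with p < g p.  acc_down: L accumulates at p from the right.
  (3a) g has a fixed point in [p, v].  q := sInf of them: g q = q, p < q, t < g t on [p, q).  crossing for (f, g, p, q)
   with ε, c = 2β: c (q - p) ≤ 2 β R / 4 ≤ ε.  Contradiction.
  (3b) otherwise t < g t on [p, v].  Y := g v - v ≤ D ≤ (3/2) X.  Put k = f * f * g.  k p = f (f (g p)) > p.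
   k v < v: u := f (v + Y) ≤ f v + exp ε Y = v - X + exp ε Y; if u ≤ v then k v = f u ≤ f v < v; if u > v then
   f u ≤ f v + exp ε (u - v) ≤ v - X + exp ε (exp ε Y - X) ≤ v - X (1 - exp ε ((3/2) exp ε - 1)) < v.
   (all points are in [x - R/2, x + R/2]: v + Y ≤ x + exp ε (v - x).)
   q := sInf {t ∈ [p, v] : k t = t}, nonempty by the intermediate value theorem; k q = q, p < q < v, t < k t on
   [p, q).  NId k p q (3ε) (8β): log k' t = log f'(f (g t)) + log f'(g t) + log g' t, the three arguments are in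
   [x - R/2, x + R/2], Lipschitz constant ≤ 2β (exp(2ε) + exp ε + 1) ≤ 8 β, and 8 β (q - p) ≤ 2 β R ≤ 3 ε.
   crossing for (f, k, p, q) with 3ε ≤ 1/20 and c = 8β (NId f also holds with the larger constants).
-/
import Mathlib
import Pool.Agent.H42.EM.Crs

set_option autoImplicit false

namespace Pool.Agent.H42.EM

open Set

/-- property (★) on the right side of `x` -/
def StarR (A : Sys) (x : ℝ) : Prop :=
  ∃ f ∈ A.G, ∃ v ∈ A.L, x < v ∧ f x = x ∧ ∀ t ∈ Ioc x v, f t < t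

lemma Mxd_up {h : Equiv.Perm ℝ} (hh : Good h) {a b ε : ℝ}
    (hb : ∀ t ∈ Icc a b, |Real.log (deriv (⇑h) t)| ≤ ε) {u v : ℝ} (hu : a ≤ u) (huv : u ≤ v)
    (hv : v ≤ b) : h v - h u ≤ Real.exp ε * (v - u) := by
  rcases huv.eq_or_lt with rfl | hlt
  · simp
  obtain ⟨ξ, hξ, he⟩ := hh.mvt hlt
  rw [he]
  refine mul_le_mul_of_nonneg_right ?_ (by linarith)
  have h1 := hb ξ ⟨hu.trans hξ.1.le, hξ.2.le.trans hv⟩
  calc deriv (⇑h) ξ = Real.exp (Real.log (deriv (⇑h) ξ)) := (Real.exp_log (hh.pos ξ)).symm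
    _ ≤ _ := Real.exp_le_exp.mpr ((le_abs_self _).trans h1)

lemma Mxd_lo {h : Equiv.Perm ℝ} (hh : Good h) {a b ε : ℝ}
    (hb : ∀ t ∈ Icc a b, |Real.log (deriv (⇑h) t)| ≤ ε) {u v : ℝ} (hu : a ≤ u) (huv : u ≤ v)
    (hv : v ≤ b) : Real.exp (-ε) * (v - u) ≤ h v - h u := by
  rcases huv.eq_or_lt with rfl | hlt
  · simp
  obtain ⟨ξ, hξ, he⟩ := hh.mvt hlt
  rw [he]
  refine mul_le_mul_of_nonneg_right ?_ (by linarith)
  have h1 := hb ξ ⟨hu.trans hξ.1.le, hξ.2.le.trans hv⟩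
  calc Real.exp (-ε) ≤ Real.exp (Real.log (deriv (⇑h) ξ)) :=
        Real.exp_le_exp.mpr ((neg_le_neg h1).trans (neg_abs_le _))
    _ = deriv (⇑h) ξ := Real.exp_log (hh.pos ξ)

lemma Mxd_up_abs {h : Equiv.Perm ℝ} (hh : Good h) {a b ε : ℝ}
    (hb : ∀ t ∈ Icc a b, |Real.log (deriv (⇑h) t)| ≤ ε) {u v : ℝ} (hu : u ∈ Icc a b)
    (hv : v ∈ Icc a b) : |h u - h v| ≤ Real.exp ε * |u - v| := by
  rcases le_total u v with huv | huv
  · have h1 := Mxd_up hh hb hu.1 huv hv.2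
    have h2 := hh.mono.monotone huv
    rw [abs_of_nonpos (by linarith), abs_of_nonpos (by linarith)]
    linarith
  · have h1 := Mxd_up hh hb hv.1 huv hu.2
    have h2 := hh.mono.monotone huv
    rw [abs_of_nonneg (by linarith), abs_of_nonneg (by linarith)]
    linarith

lemma Mxd_exp {ε : ℝ} (hε : 0 < ε) (hε1 : ε ≤ 1 / 200) :
    1 ≤ Real.exp ε ∧ Real.exp ε ≤ 101 / 100 ∧ 99 / 100 ≤ Real.exp (-ε) := by
  have h1 : 1 - ε ≤ Real.exp (-ε) := by
    have := Real.add_one_le_exp (-ε)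
    linarith
  have h2 : Real.exp ε * Real.exp (-ε) = 1 := by rw [← Real.exp_add]; simp
  refine ⟨Real.one_le_exp hε.le, ?_, by linarith⟩
  have h3 := Real.exp_pos ε
  nlinarith

lemma Mxd_last {f : ℝ → ℝ} (hf : Continuous f) {a v : ℝ} (hav : a ≤ v) (fa : f a = a)
    (fv : f v < v) : ∃ p, a ≤ p ∧ p < v ∧ f p = p ∧ ∀ t ∈ Ioc p v, f t < t := by
  have hc : IsCompact (Icc a v ∩ {t | t ≤ f t}) :=
    isCompact_Icc.inter_right (isClosed_le continuous_id hf)
  obtain ⟨p, hp⟩ := hc.exists_isGreatest ⟨a, ⟨⟨le_rfl, hav⟩, fa.ge⟩⟩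
  have hpv : p < v := lt_of_le_of_ne hp.1.1.2 (by
    rintro rfl
    exact absurd hp.1.2 (not_le.mpr fv))
  have hlt : ∀ t ∈ Ioc p v, f t < t := by
    intro t ht
    by_contra hcon
    push Not at hcon
    exact absurd (hp.2 ⟨⟨hp.1.1.1.trans ht.1.le, ht.2⟩, hcon⟩) (not_le.mpr ht.1)
  refine ⟨p, hp.1.1.1, hpv, ?_, hlt⟩
  by_contra hne
  have hpf : p < f p := lt_of_le_of_ne hp.1.2 (fun h => hne h.symm)
  obtain ⟨c, hc1, hc2⟩ : ∃ c ∈ Icc p v, (fun t => t - f t) c = 0 := by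
    have := intermediate_value_Icc hpv.le (f := fun t => t - f t)
      ((continuous_id.sub hf).continuousOn)
    exact this ⟨by linarith, by linarith⟩
  have hc3 : f c = c := by simp only at hc2; linarith
  rcases hc1.1.eq_or_lt with he | he
  · rw [← he] at hc3; exact hne hc3
  · exact absurd (hlt c ⟨he, hc1.2⟩) (by rw [hc3]; exact lt_irrefl _)

lemma Mxd_first {g : ℝ → ℝ} (hg : Continuous g) {p v : ℝ} (gp : p < g p)
    (hex : ∃ t ∈ Icc p v, g t ≤ t) : ∃ q, p < q ∧ q ≤ v ∧ g q = q ∧ ∀ t ∈ Ico p q, t < g t := by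
  have hc : IsCompact (Icc p v ∩ {t | g t ≤ t}) :=
    isCompact_Icc.inter_right (isClosed_le hg continuous_id)
  obtain ⟨t, ht, htg⟩ := hex
  obtain ⟨q, hq⟩ := hc.exists_isLeast ⟨t, ⟨ht, htg⟩⟩
  have hpq : p < q := lt_of_le_of_ne hq.1.1.1 (by
    rintro rfl
    exact absurd hq.1.2 (not_le.mpr gp))
  have hlt : ∀ t ∈ Ico p q, t < g t := by
    intro t ht
    by_contra hcon
    push Not at hcon
    exact absurd (hq.2 ⟨⟨ht.1, ht.2.le.trans hq.1.1.2⟩, hcon⟩) (not_le.mpr ht.2)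
  refine ⟨q, hpq, hq.1.1.2, ?_, hlt⟩
  by_contra hne
  have hqg : g q < q := lt_of_le_of_ne hq.1.2 hne
  obtain ⟨c, hc1, hc2⟩ : ∃ c ∈ Icc p q, (fun t => t - g t) c = 0 := by
    have := intermediate_value_Icc hpq.le (f := fun t => t - g t)
      ((continuous_id.sub hg).continuousOn)
    exact this ⟨by linarith, by linarith⟩
  have hc3 : g c = c := by simp only at hc2; linarith
  rcases hc1.2.eq_or_lt with he | he
  · rw [he] at hc3; exact hne hc3
  · exact absurd (hlt c ⟨hc1.1, he⟩) (by rw [hc3]; exact lt_irrefl _)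

/-- (0): inverses -/
lemma Mxd_inv {l : Equiv.Perm ℝ} (hl : Good l) {x ε β R : ℝ} (hR : 0 < R) (hε : 0 < ε)
    (hε1 : ε ≤ 1 / 200) (hβ : 0 ≤ β) (lx : l x = x) (hN : NId l x (x + R) ε β) :
    NId l⁻¹ x (x + R / 2) ε (2 * β) := by
  obtain ⟨e1, e2, e3⟩ := Mxd_exp hε hε1
  have hix : l⁻¹ x = x := by rw [Equiv.Perm.inv_eq_iff_eq]; exact lx.symm
  have hm := hl.inv.mono
  have hin : ∀ t ∈ Icc x (x + R / 2), l⁻¹ t ∈ Icc x (x + R) := by
    intro t ht
    refine ⟨?_, ?_⟩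
    · have := hm.monotone ht.1
      rwa [hix] at this
    · have h1 := Mxd_lo hl hN.1 le_rfl (by linarith : x ≤ x + R) le_rfl
      rw [lx] at h1
      have h2 : t ≤ l (x + R) := by nlinarith [ht.2]
      have h3 := hm.monotone h2
      simpa using h3
  refine ⟨fun t ht => ?_, fun u hu v hv => ?_⟩
  · rw [hl.deriv_inv, Real.log_inv, abs_neg]
    exact hN.1 _ (hin t ht)
  · rw [hl.deriv_inv, hl.deriv_inv, Real.log_inv, Real.log_inv]
    have h1 := hN.2 _ (hin u hu) _ (hin v hv)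
    have h2 : |l⁻¹ u - l⁻¹ v| ≤ 2 * |u - v| := by
      have key : ∀ a ∈ Icc x (x + R / 2), ∀ b ∈ Icc x (x + R / 2), a ≤ b →
          l⁻¹ b - l⁻¹ a ≤ 2 * (b - a) := by
        intro a ha b hb hab
        have h3 := Mxd_lo hl hN.1 (hin a ha).1 (hm.monotone hab) (hin b hb).2
        have h4 : l (l⁻¹ b) = b := by simp
        have h5 : l (l⁻¹ a) = a := by simp
        rw [h4, h5] at h3
        have h6 : 0 ≤ l⁻¹ b - l⁻¹ a := sub_nonneg.mpr (hm.monotone hab)
        nlinarith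
      rcases le_total u v with huv | huv
      · have h3 := key u hu v hv huv
        have h4 := hm.monotone huv
        rw [abs_of_nonpos (by linarith), abs_of_nonpos (by linarith)]
        linarith
      · have h3 := key v hv u hu huv
        have h4 := hm.monotone huv
        rw [abs_of_nonneg (by linarith), abs_of_nonneg (by linarith)]
        linarith
    rw [show -Real.log (deriv (⇑l) (l⁻¹ u)) - -Real.log (deriv (⇑l) (l⁻¹ v)) =
      -(Real.log (deriv (⇑l) (l⁻¹ u)) - Real.log (deriv (⇑l) (l⁻¹ v))) by ring, abs_neg]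
    calc _ ≤ β * |l⁻¹ u - l⁻¹ v| := h1
      _ ≤ β * (2 * |u - v|) := mul_le_mul_of_nonneg_left h2 hβ
      _ = 2 * β * |u - v| := by ring

lemma Mxd_sub {f : Equiv.Perm ℝ} {p q p' q' ε ε' b b' : ℝ} (h : NId f p q ε b) (hp : p ≤ p')
    (hq : q' ≤ q) (hε : ε ≤ ε') (hb : b ≤ b') : NId f p' q' ε' b' := by
  refine ⟨fun t ht => (h.1 t ⟨hp.trans ht.1, ht.2.trans hq⟩).trans hε, fun u hu v hv => ?_⟩
  exact (h.2 u ⟨hp.trans hu.1, hu.2.trans hq⟩ v ⟨hp.trans hv.1, hv.2.trans hq⟩).trans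
    (mul_le_mul_of_nonneg_right hb (abs_nonneg _))

/-- a composition of three maps near the identity -/
lemma Mxd_comp {f g : Equiv.Perm ℝ} (hf : Good f) (hg : Good g) {x ε β R : ℝ} (hR : 0 < R)
    (hε : 0 < ε) (hε1 : ε ≤ 1 / 200) (hβ : 0 ≤ β) (fx : f x = x) (gx : g x = x)
    (hNf : NId f x (x + R / 2) ε (2 * β)) (hNg : NId g x (x + R / 2) ε (2 * β)) :
    NId (f * f * g) x (x + R / 4) (3 * ε) (8 * β) := by
  obtain ⟨e1, e2, e3⟩ := Mxd_exp hε hε1
  have hmg : ∀ t ∈ Icc x (x + R / 4), x ≤ g t ∧ g t - x ≤ 101 / 100 * (t - x) := by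
    intro t ht
    refine ⟨by have := hg.mono.monotone ht.1; rwa [gx] at this, ?_⟩
    have h1 := Mxd_up hg hNg.1 le_rfl ht.1 (by linarith [ht.2])
    rw [gx] at h1
    have : 0 ≤ t - x := by linarith [ht.1]
    nlinarith
  have hmf : ∀ t ∈ Icc x (x + R / 2), x ≤ f t ∧ f t - x ≤ 101 / 100 * (t - x) := by
    intro t ht
    refine ⟨by have := hf.mono.monotone ht.1; rwa [fx] at this, ?_⟩
    have h1 := Mxd_up hf hNf.1 le_rfl ht.1 ht.2
    rw [fx] at h1
    have : 0 ≤ t - x := by linarith [ht.1]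
    nlinarith
  have hg1 : ∀ t ∈ Icc x (x + R / 4), g t ∈ Icc x (x + R / 2) := by
    intro t ht
    obtain ⟨h1, h2⟩ := hmg t ht
    exact ⟨h1, by nlinarith [ht.2]⟩
  have hf1 : ∀ t ∈ Icc x (x + R / 4), f (g t) ∈ Icc x (x + R / 2) := by
    intro t ht
    obtain ⟨h1, h2⟩ := hmg t ht
    obtain ⟨h3, h4⟩ := hmf (g t) (hg1 t ht)
    exact ⟨h3, by nlinarith [ht.2]⟩
  have hlog : ∀ t, Real.log (deriv (⇑(f * f * g)) t) = Real.log (deriv (⇑f) (f (g t))) +
      Real.log (deriv (⇑f) (g t)) + Real.log (deriv (⇑g) t) := by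
    intro t
    rw [(hf.mul hf).deriv_mul hg, hf.deriv_mul hf, Real.log_mul (mul_pos (hf.pos _) (hf.pos _)).ne'
      (hg.pos _).ne', Real.log_mul (hf.pos _).ne' (hf.pos _).ne']
  have hsub : ∀ t ∈ Icc x (x + R / 4), t ∈ Icc x (x + R / 2) := fun t ht =>
    ⟨ht.1, by linarith [ht.2]⟩
  refine ⟨fun t ht => ?_, fun u hu v hv => ?_⟩
  · rw [hlog]
    have h1 := hNf.1 _ (hf1 t ht)
    have h2 := hNf.1 _ (hg1 t ht)
    have h3 := hNg.1 _ (hsub t ht)
    have h4 := abs_add_three (Real.log (deriv (⇑f) (f (g t)))) (Real.log (deriv (⇑f) (g t)))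
      (Real.log (deriv (⇑g) t))
    linarith
  · rw [hlog, hlog]
    have h1 := hNf.2 _ (hf1 u hu) _ (hf1 v hv)
    have h2 := hNf.2 _ (hg1 u hu) _ (hg1 v hv)
    have h3 := hNg.2 _ (hsub u hu) _ (hsub v hv)
    have h4 := abs_add_three (Real.log (deriv (⇑f) (f (g u))) - Real.log (deriv (⇑f) (f (g v))))
      (Real.log (deriv (⇑f) (g u)) - Real.log (deriv (⇑f) (g v)))
      (Real.log (deriv (⇑g) u) - Real.log (deriv (⇑g) v))
    have h5 := Mxd_up_abs hg hNg.1 (hsub u hu) (hsub v hv)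
    have h6 := Mxd_up_abs hf hNf.1 (hg1 u hu) (hg1 v hv)
    have h7 : |g u - g v| ≤ 101 / 100 * |u - v| :=
      h5.trans (mul_le_mul_of_nonneg_right e2 (abs_nonneg _))
    have h8 : |f (g u) - f (g v)| ≤ 101 / 100 * |g u - g v| :=
      h6.trans (mul_le_mul_of_nonneg_right e2 (abs_nonneg _))
    have h9 := abs_nonneg (u - v)
    have h10 : 2 * β * |f (g u) - f (g v)| ≤ 2 * β * (101 / 100 * (101 / 100 * |u - v|)) :=
      mul_le_mul_of_nonneg_left (by linarith) (by linarith)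
    have h11 : 2 * β * |g u - g v| ≤ 2 * β * (101 / 100 * |u - v|) :=
      mul_le_mul_of_nonneg_left h7 (by linarith)
    have h12 : 0 ≤ β * |u - v| := mul_nonneg hβ h9
    rw [show Real.log (deriv (⇑f) (f (g u))) + Real.log (deriv (⇑f) (g u)) +
      Real.log (deriv (⇑g) u) - (Real.log (deriv (⇑f) (f (g v))) + Real.log (deriv (⇑f) (g v)) +
      Real.log (deriv (⇑g) v)) = (Real.log (deriv (⇑f) (f (g u))) - Real.log (deriv (⇑f) (f (g v)))) +
      (Real.log (deriv (⇑f) (g u)) - Real.log (deriv (⇑f) (g v))) +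
      (Real.log (deriv (⇑g) u) - Real.log (deriv (⇑g) v)) by ring]
    nlinarith

lemma free_elt (A : Sys) {x ε β R : ℝ} (Lp : Set (Equiv.Perm ℝ)) (hR : 0 < R) (hε : 0 < ε)
    (hε1 : ε ≤ 1 / 200) (hβ : 0 ≤ β) (hβR : β * R ≤ ε)
    (hLp : ∀ l ∈ Lp, l ∈ A.G ∧ l x = x ∧ NId l (x - R) (x + R) ε β)
    (hmove : ∀ p, x < p → p < x + R → ∃ l ∈ Lp, l p ≠ p) (hacc : AccR A.L x) : StarR A x := by
  obtain ⟨e1, e2, e3⟩ := Mxd_exp hε hε1
  -- the symmetrised family
  set Lq : Set (Equiv.Perm ℝ) := {l | l ∈ Lp ∨ l⁻¹ ∈ Lp} with hLq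
  have hLqi : ∀ l ∈ Lq, l⁻¹ ∈ Lq := by
    rintro l (hl | hl)
    · right; simpa using hl
    · left; exact hl
  have hLqP : ∀ l ∈ Lq, l ∈ A.G ∧ l x = x ∧ NId l x (x + R / 2) ε (2 * β) := by
    rintro l (hl | hl)
    · obtain ⟨h1, h2, h3⟩ := hLp l hl
      exact ⟨h1, h2, Mxd_sub h3 (by linarith) (by linarith) le_rfl (by linarith)⟩
    · obtain ⟨h1, h2, h3⟩ := hLp _ hl
      have h4 : NId l⁻¹⁻¹ x (x + R / 2) ε (2 * β) :=
        Mxd_inv (A.good h1) hR hε hε1 hβ h2 (Mxd_sub h3 (by linarith) le_rfl le_rfl le_rfl)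
      rw [inv_inv] at h4
      refine ⟨by simpa using Subgroup.inv_mem _ h1, ?_, h4⟩
      rw [Equiv.Perm.inv_eq_iff_eq] at h2
      exact h2.symm
  obtain ⟨v, hv, hvL⟩ := hacc (R / 4) (by linarith)
  -- displacement at `v`
  have hdisp : ∀ l ∈ Lq, |l v - v| ≤ (1 / 100) * (v - x) := by
    intro l hl
    obtain ⟨h1, h2, h3⟩ := hLqP l hl
    have h4 := Mxd_up (A.good h1) h3.1 le_rfl hv.1.le (by linarith [hv.2])
    have h5 := Mxd_lo (A.good h1) h3.1 le_rfl hv.1.le (by linarith [hv.2])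
    rw [h2] at h4 h5
    have : 0 < v - x := by linarith [hv.1]
    rw [abs_le]
    constructor <;> nlinarith
  set DS : Set ℝ := {d | ∃ l ∈ Lq, d = |l v - v|} with hDS
  have hbdd : BddAbove DS := ⟨(1 / 100) * (v - x), by
    rintro d ⟨l, hl, rfl⟩; exact hdisp l hl⟩
  set D := sSup DS with hD
  obtain ⟨l0, hl0, hl0v⟩ := hmove v hv.1 (by linarith [hv.2])
  have hDpos : 0 < D := by
    have h1 : |l0 v - v| ≤ D := le_csSup hbdd ⟨l0, Or.inl hl0, rfl⟩
    have h2 : 0 < |l0 v - v| := abs_pos.mpr (sub_ne_zero.mpr hl0v)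
    linarith
  have hne : DS.Nonempty := ⟨_, l0, Or.inl hl0, rfl⟩
  obtain ⟨_, ⟨l, hl, rfl⟩, hlD⟩ := exists_lt_of_lt_csSup hne (show (3 / 4) * D < D by linarith)
  -- the element `f`
  obtain ⟨f, hfq, hX⟩ : ∃ f ∈ Lq, (2 / 3) * D ≤ v - f v := by
    rcases lt_or_ge (l v) v with hc | hc
    · refine ⟨l, hl, ?_⟩
      rw [abs_of_neg (by linarith)] at hlD
      linarith
    · refine ⟨l⁻¹, hLqi l hl, ?_⟩
      rw [abs_of_nonneg (by linarith)] at hlD
      obtain ⟨h1, h2, h3⟩ := hLqP l hl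
      have hix : l⁻¹ x = x := by rw [Equiv.Perm.inv_eq_iff_eq]; exact h2.symm
      have hmo := (A.good h1).inv.mono
      have h4 : l⁻¹ v ≤ v := by
        have := hmo.monotone hc
        simpa using this
      have h5 : x ≤ l⁻¹ v := by
        have := hmo.monotone hv.1.le
        rwa [hix] at this
      have h6 := Mxd_up (A.good h1) h3.1 h5 h4 (by linarith [hv.2])
      have h7 : l (l⁻¹ v) = v := by simp
      rw [h7] at h6
      nlinarith
  obtain ⟨hfG, fx, hNf⟩ := hLqP f hfq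
  have hfg := A.good hfG
  have hXpos : 0 < v - f v := by linarith
  obtain ⟨p, hxp, hpv, fp, flt⟩ := Mxd_last hfg.cont hv.1.le fx (by linarith)
  rcases hxp.eq_or_lt with hxp | hxp
  · subst hxp
    exact ⟨f, hfG, v, hvL, hv.1, fx, flt⟩
  exfalso
  -- the element `g`
  obtain ⟨g, hgq, hgp⟩ : ∃ g ∈ Lq, p < g p := by
    obtain ⟨l1, hl1, hl1p⟩ := hmove p hxp (by linarith [hv.2])
    rcases lt_or_gt_of_ne hl1p with hc | hc
    · refine ⟨l1⁻¹, hLqi l1 (Or.inl hl1), ?_⟩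
      have := (A.good (hLp l1 hl1).1).inv.mono hc
      simpa using this
    · exact ⟨l1, Or.inl hl1, hc⟩
  obtain ⟨hgG, gx, hNg⟩ := hLqP g hgq
  have hgg := A.good hgG
  have hv4 := hv.2
  have hv3 := hv.1
  by_cases hcase : ∃ t ∈ Icc p v, g t ≤ t
  · -- (3a)
    obtain ⟨q, hpq, hqv, gq, ggt⟩ := Mxd_first hgg.cont hgp hcase
    refine crossing A hfG hgG hpq fp (fun t ht => flt t ⟨ht.1, ht.2.trans hqv⟩) gq ggt hε.le
      (by linarith) (by linarith : 0 ≤ 2 * β) ?_ (Mxd_sub hNf hxp.le (by linarith) le_rfl le_rfl)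
      (Mxd_sub hNg hxp.le (by linarith) le_rfl le_rfl) (acc_down A hfG fp hpv flt hvL hpq)
    have : 2 * β * (q - p) ≤ 2 * β * (R / 4) := mul_le_mul_of_nonneg_left (by linarith) (by linarith)
    nlinarith
  · -- (3b)
    push Not at hcase
    have hgv := hcase v ⟨hpv.le, le_rfl⟩
    have hYD : g v - v ≤ D := by
      have h1 : |g v - v| ≤ D := le_csSup hbdd ⟨g, hgq, rfl⟩
      exact (le_abs_self _).trans h1
    have hYx : g v - v ≤ (1 / 100) * (v - x) := (le_abs_self _).trans (hdisp g hgq)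
    set X := v - f v with hXd
    set Y := g v - v with hYd
    have hY0 : 0 < Y := by linarith
    have hYX : Y ≤ 3 / 2 * X := by linarith
    have hkp : p < (f * f * g) p := by
      have h1 := hfg.mono hgp
      rw [fp] at h1
      have h2 := hfg.mono h1
      rw [fp] at h2
      exact h2
    have hkv : (f * f * g) v < v := by
      show f (f (g v)) < v
      have h1 := Mxd_up hfg hNf.1 hv3.le hgv.le (by linarith)
      have h1' : f (g v) ≤ v - X + 101 / 100 * Y := by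
        have : Real.exp ε * (g v - v) ≤ 101 / 100 * (g v - v) :=
          mul_le_mul_of_nonneg_right e2 hY0.le
        linarith
      rcases le_or_gt (f (g v)) v with hc | hc
      · have := hfg.mono.monotone hc
        linarith
      · have h2 := Mxd_up hfg hNf.1 hv3.le hc.le (by nlinarith)
        have h2' : f (f (g v)) - f v ≤ 101 / 100 * (f (g v) - v) :=
          h2.trans (mul_le_mul_of_nonneg_right e2 (by linarith))
        nlinarith
    have hkG : f * f * g ∈ A.G := Subgroup.mul_mem _ (Subgroup.mul_mem _ hfG hfG) hgG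
    have hkg := A.good hkG
    obtain ⟨q, hpq, hqv, kq, kgt⟩ := Mxd_first hkg.cont hkp ⟨v, ⟨hpv.le, le_rfl⟩, hkv.le⟩
    have hNk := Mxd_comp hfg hgg hR hε hε1 hβ fx gx hNf hNg
    refine crossing A hfG hkG hpq fp (fun t ht => flt t ⟨ht.1, ht.2.trans hqv⟩) kq kgt
      (by linarith : 0 ≤ 3 * ε) (by linarith) (by linarith : 0 ≤ 8 * β) ?_
      (Mxd_sub hNf hxp.le (by linarith) (by linarith) (by linarith))
      (Mxd_sub hNk hxp.le (by linarith) le_rfl le_rfl) (acc_down A hfG fp hpv flt hvL hpq)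
    have : 8 * β * (q - p) ≤ 8 * β * (R / 4) := mul_le_mul_of_nonneg_left (by linarith) (by linarith)
    nlinarith

end Pool.Agent.H42.EM
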