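/-
LOCR : local expansion on the right of a point with property (★).

PROOF of exd_right (x ∈ L, StarR A x).  f, v as in StarR, C₁ the Lipschitz constant of log f' (Good.lip),
I = [f³ v, v] ⊆ (x, v], E₃ := 3 C₁ (v - x).  For s, s' ∈ I and l : ℕ: log (f^l)'(s) - log (f^l)'(s') is at most
C₁ ∑_{m<l} |f^m s - f^m s'| ≤ C₁ ∑_{m<l} (f^m v - f^(m+3) v) ≤ 3 C₁ (v - x) = E₃ (telescoping, three times).
So (f^l)'(s) ≤ exp E₃ (f^l v - f^(l+3) v) / (v - f³ v) (mean value on I) and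
|f^l s - f^l s'| ≤ exp E₃ (f^l v - f^(l+3) v) / (v - f³ v) |s - s'|, hence
|log (f^j)'(s) - log (f^j)'(s')| ≤ C₁ ∑_{l<j} ... ≤ C |s - s'| with C := C₁ exp E₃ 3 (v - x) / (v - f³ v).
r := min (v - f v) (f² v - f³ v).  For t ∈ (x, x + δ): exists_down (b := f v, c := t; t ≤ f v for δ small) gives j with
f^(j+1) (f v) < t ≤ f^j (f v); c₀ := (f^j)⁻¹ t ∈ (f² v, f v], [c₀ - r, c₀ + r] ⊆ I; γ := (f^j)⁻¹.  γ⁻¹ = f^j has
derivative ≤ exp E₃ (f^j v - x) / (v - f³ v) on I, and f^j v = f⁻² (f^(j+2) v) < f⁻² t ≤ f⁻² (x + δ): choose δ with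
exp E₃ (f⁻² (x + δ) - x) / (v - f³ v) ≤ 1/2 (continuity of f⁻² at x = f⁻² x).  lam = 1/2.
-/
import Mathlib
import Pool.Agent.H42.EM.Mxd

set_option autoImplicit false

namespace Pool.Agent.H42.EM

open Set

/-- `γ` expands at `t` with good control of the inverse on `[γ t - r, γ t + r]` -/
def ExpAt (A : Sys) (t r C lam : ℝ) : Prop :=
  ∃ γ ∈ A.G, (∀ s ∈ Icc (γ t - r) (γ t + r), deriv (⇑γ⁻¹) s ≤ lam) ∧
    ∀ s ∈ Icc (γ t - r) (γ t + r), ∀ s' ∈ Icc (γ t - r) (γ t + r),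
      |Real.log (deriv (⇑γ⁻¹) s) - Real.log (deriv (⇑γ⁻¹) s')| ≤ C * |s - s'|

lemma LOCR_good {f : Equiv.Perm ℝ} (hf : Good f) (l : ℕ) : Good (f ^ l) := by
  induction l with
  | zero => rw [pow_zero]; exact Good.one
  | succ l ih => rw [pow_succ']; exact hf.mul ih

lemma LOCR_log {f : Equiv.Perm ℝ} (hf : Good f) (l : ℕ) (s : ℝ) :
    Real.log (deriv (⇑(f ^ l)) s) = ∑ m ∈ Finset.range l, Real.log (deriv (⇑f) ((f ^ m) s)) := by
  induction l with
  | zero =>
    have : (⇑(f ^ 0) : ℝ → ℝ) = id := by rw [pow_zero]; rfl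
    rw [this]; simp
  | succ l ih =>
    rw [pow_succ', hf.deriv_mul (LOCR_good hf l), Finset.sum_range_succ, ← ih,
      Real.log_mul (hf.pos _).ne' ((LOCR_good hf l).pos _).ne']
    ring

lemma LOCR_sum (a : ℕ → ℝ) (l : ℕ) : ∑ m ∈ Finset.range l, (a m - a (m + 3)) =
    a 0 + a 1 + a 2 - (a l + a (l + 1) + a (l + 2)) := by
  induction l with
  | zero => simp
  | succ l ih => rw [Finset.sum_range_succ, ih]; ring

lemma exd_right (A : Sys) {x : ℝ} (h : StarR A x) : ∃ δ > 0, ∃ r > 0, ∃ C ≥ 0, ∃ lam < 1, 0 < lam ∧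
    ∀ t ∈ Ioo x (x + δ), ExpAt A t r C lam := by
  obtain ⟨f, hfG, v, _, hxv, fx, flt⟩ := h
  have hf : Good f := A.good hfG
  obtain ⟨C₁, hC₁, hlip⟩ := hf.lip
  have hmono : StrictMono (⇑f) := hf.mono
  have hpm : ∀ l : ℕ, StrictMono (⇑(f ^ l)) := fun l => (LOCR_good hf l).mono
  -- the orbit of `v`
  set a : ℕ → ℝ := fun m => (f ^ m) v with ha
  have asucc : ∀ m, a (m + 1) = f (a m) := by
    intro m
    simp only [ha]
    rw [pow_succ', Equiv.Perm.mul_apply]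
  have a0 : a 0 = v := by simp [ha]
  have hax : ∀ m, x < a m ∧ a m ≤ v := by
    intro m
    induction m with
    | zero => rw [a0]; exact ⟨hxv, le_rfl⟩
    | succ m ih =>
      rw [asucc]
      refine ⟨?_, ((flt _ ⟨ih.1, ih.2⟩).le).trans ih.2⟩
      have := hmono ih.1
      rwa [fx] at this
  have hdec : ∀ m, a (m + 1) < a m := by
    intro m
    rw [asucc]
    exact flt _ ⟨(hax m).1, (hax m).2⟩
  have h01 : a 1 < v := by have := hdec 0; rwa [a0] at this
  have h12 : a 2 < a 1 := hdec 1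
  have h23 : a 3 < a 2 := hdec 2
  have hx3 : x < a 3 := (hax 3).1
  have hadd : ∀ m k : ℕ, (f ^ m) (a k) = a (m + k) := by
    intro m k
    simp only [ha]
    rw [pow_add, Equiv.Perm.mul_apply]
  have hsum : ∀ l : ℕ, ∑ m ∈ Finset.range l, (a m - a (m + 3)) ≤ 3 * (v - x) := by
    intro l
    rw [LOCR_sum]
    have e0 := (hax 0).2
    have e1 := (hax 1).2
    have e2 := (hax 2).2
    have e3 := (hax l).1
    have e4 := (hax (l + 1)).1
    have e5 := (hax (l + 2)).1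
    linarith
  -- images of points of `[a 3, v]`
  have hI : ∀ m : ℕ, ∀ s ∈ Icc (a 3) v, (f ^ m) s ∈ Icc (a (m + 3)) (a m) := by
    intro m s hs
    constructor
    · rw [← hadd m 3]; exact (hpm m).monotone hs.1
    · have := (hpm m).monotone hs.2
      simpa [ha] using this
  have hdiff : ∀ m : ℕ, ∀ s ∈ Icc (a 3) v, ∀ s' ∈ Icc (a 3) v,
      |(f ^ m) s - (f ^ m) s'| ≤ a m - a (m + 3) := by
    intro m s hs s' hs'
    have h1 := hI m s hs
    have h2 := hI m s' hs'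
    rw [abs_sub_le_iff]
    constructor <;> linarith [h1.1, h1.2, h2.1, h2.2]
  set E : ℝ := C₁ * (3 * (v - x)) with hE
  have hE0 : 0 ≤ E := by
    rw [hE]; exact mul_nonneg hC₁ (by linarith)
  have hlog : ∀ l : ℕ, ∀ s ∈ Icc (a 3) v, ∀ s' ∈ Icc (a 3) v,
      |Real.log (deriv (⇑(f ^ l)) s) - Real.log (deriv (⇑(f ^ l)) s')| ≤ E := by
    intro l s hs s' hs'
    rw [LOCR_log hf, LOCR_log hf, ← Finset.sum_sub_distrib]
    calc |∑ m ∈ Finset.range l, (Real.log (deriv (⇑f) ((f ^ m) s)) -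
          Real.log (deriv (⇑f) ((f ^ m) s')))|
        ≤ ∑ m ∈ Finset.range l, |Real.log (deriv (⇑f) ((f ^ m) s)) -
          Real.log (deriv (⇑f) ((f ^ m) s'))| := Finset.abs_sum_le_sum_abs _ _
      _ ≤ ∑ m ∈ Finset.range l, C₁ * (a m - a (m + 3)) := by
          refine Finset.sum_le_sum fun m _ => (hlip _ _).trans ?_
          exact mul_le_mul_of_nonneg_left (hdiff m s hs s' hs') hC₁
      _ = C₁ * ∑ m ∈ Finset.range l, (a m - a (m + 3)) := by rw [Finset.mul_sum]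
      _ ≤ E := mul_le_mul_of_nonneg_left (hsum l) hC₁
  have hv3 : 0 < v - a 3 := by linarith
  -- bound of the derivative
  have hder : ∀ l : ℕ, ∀ s ∈ Icc (a 3) v,
      deriv (⇑(f ^ l)) s ≤ Real.exp E * (a l - a (l + 3)) / (v - a 3) := by
    intro l s hs
    obtain ⟨ξ, hξ, hξe⟩ := (LOCR_good hf l).mvt (show a 3 < v by linarith)
    have h1 : (f ^ l) v - (f ^ l) (a 3) = a l - a (l + 3) := by rw [hadd l 3]
    rw [h1] at hξe
    have h2 := hlog l s hs ξ ⟨hξ.1.le, hξ.2.le⟩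
    have p1 := (LOCR_good hf l).pos s
    have p2 := (LOCR_good hf l).pos ξ
    have h3 : Real.log (deriv (⇑(f ^ l)) s) ≤ E + Real.log (deriv (⇑(f ^ l)) ξ) := by
      have := (abs_sub_le_iff.1 h2).1
      linarith
    have h4 : deriv (⇑(f ^ l)) s ≤ Real.exp E * deriv (⇑(f ^ l)) ξ := by
      rw [← Real.exp_log p1, ← Real.exp_log p2, ← Real.exp_add, Real.exp_le_exp]
      exact h3
    have h5 : deriv (⇑(f ^ l)) ξ = (a l - a (l + 3)) / (v - a 3) := by
      rw [hξe]; field_simp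
    rw [h5] at h4
    rw [mul_div_assoc]
    exact h4
  have hnn : ∀ l : ℕ, 0 ≤ a l - a (l + 3) := by
    intro l
    have := hdiff l v ⟨by linarith, le_rfl⟩ v ⟨by linarith, le_rfl⟩
    exact (abs_nonneg _).trans this
  have hlipl : ∀ l : ℕ, ∀ s ∈ Icc (a 3) v, ∀ s' ∈ Icc (a 3) v,
      |(f ^ l) s - (f ^ l) s'| ≤ Real.exp E * (a l - a (l + 3)) / (v - a 3) * |s - s'| := by
    intro l s hs s' hs'
    have key : ∀ s ∈ Icc (a 3) v, ∀ s' ∈ Icc (a 3) v, s < s' →
        |(f ^ l) s - (f ^ l) s'| ≤ Real.exp E * (a l - a (l + 3)) / (v - a 3) * |s - s'| := by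
      intro s hs s' hs' hlt
      obtain ⟨ξ, hξ, hξe⟩ := (LOCR_good hf l).mvt hlt
      have hpos := (LOCR_good hf l).pos ξ
      rw [abs_sub_comm, hξe, abs_sub_comm s s', abs_mul, abs_of_pos hpos]
      exact mul_le_mul_of_nonneg_right
        (hder l ξ ⟨hs.1.trans hξ.1.le, hξ.2.le.trans hs'.2⟩) (abs_nonneg _)
    rcases lt_trichotomy s s' with hlt | rfl | hlt
    · exact key s hs s' hs' hlt
    · simp
    · rw [abs_sub_comm, abs_sub_comm s s']
      exact key s' hs' s hs hlt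
  set C : ℝ := C₁ * (Real.exp E * (3 * (v - x)) / (v - a 3)) with hC
  have hC0 : 0 ≤ C := by
    rw [hC]
    have : 0 ≤ v - x := by linarith
    positivity
  have hlog2 : ∀ l : ℕ, ∀ s ∈ Icc (a 3) v, ∀ s' ∈ Icc (a 3) v,
      |Real.log (deriv (⇑(f ^ l)) s) - Real.log (deriv (⇑(f ^ l)) s')| ≤ C * |s - s'| := by
    intro l s hs s' hs'
    rw [LOCR_log hf, LOCR_log hf, ← Finset.sum_sub_distrib]
    calc |∑ m ∈ Finset.range l, (Real.log (deriv (⇑f) ((f ^ m) s)) -
          Real.log (deriv (⇑f) ((f ^ m) s')))|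
        ≤ ∑ m ∈ Finset.range l, |Real.log (deriv (⇑f) ((f ^ m) s)) -
          Real.log (deriv (⇑f) ((f ^ m) s'))| := Finset.abs_sum_le_sum_abs _ _
      _ ≤ ∑ m ∈ Finset.range l,
          C₁ * (Real.exp E * (a m - a (m + 3)) / (v - a 3) * |s - s'|) := by
          refine Finset.sum_le_sum fun m _ => (hlip _ _).trans ?_
          exact mul_le_mul_of_nonneg_left (hlipl m s hs s' hs') hC₁
      _ = C₁ * (Real.exp E / (v - a 3) * |s - s'|) * ∑ m ∈ Finset.range l, (a m - a (m + 3)) := by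
          rw [Finset.mul_sum]
          refine Finset.sum_congr rfl fun m _ => ?_
          ring
      _ ≤ C₁ * (Real.exp E / (v - a 3) * |s - s'|) * (3 * (v - x)) := by
          refine mul_le_mul_of_nonneg_left (hsum l) ?_
          positivity
      _ = C * |s - s'| := by rw [hC]; ring
  -- the choice of `δ`
  have hc2 : Continuous (⇑(f⁻¹ * f⁻¹) : ℝ → ℝ) := (hf.inv.mul hf.inv).cont
  have hfix : (f⁻¹ * f⁻¹) x = x := by
    have : f⁻¹ x = x := by rw [Equiv.Perm.inv_eq_iff_eq]; exact fx.symm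
    rw [Equiv.Perm.mul_apply, this, this]
  set η : ℝ := (v - a 3) / (2 * Real.exp E) with hη
  have hη0 : 0 < η := by rw [hη]; positivity
  obtain ⟨δ₀, hδ₀, hδ⟩ := Metric.continuousAt_iff.1 hc2.continuousAt η hη0
  rw [hfix] at hδ
  set δ : ℝ := min (δ₀ / 2) (a 1 - x) with hδdef
  have hδ0 : 0 < δ := lt_min (by linarith) (by linarith [(hax 1).1])
  set r : ℝ := min (v - a 1) (a 2 - a 3) with hr
  have hr0 : 0 < r := lt_min (by linarith) (by linarith)
  refine ⟨δ, hδ0, r, hr0, C, hC0, 1 / 2, by norm_num, by norm_num, ?_⟩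
  intro t ht
  have hta1 : t ≤ a 1 := by
    have h1 := ht.2
    have h2 : δ ≤ a 1 - x := min_le_right _ _
    linarith
  obtain ⟨j, hj1, hj2⟩ := exists_down hf fx flt ht.1 hta1 h01.le
  have hj1' : a (j + 2) < t := by
    have := hadd (j + 1) 1
    rw [this] at hj1
    exact hj1
  -- `a j` is close to `x`
  have haj : a j - x < η := by
    have h1 : a j = (f⁻¹ * f⁻¹) (a (j + 2)) := by
      have e1 : f⁻¹ (a (j + 2)) = a (j + 1) := by
        rw [Equiv.Perm.inv_eq_iff_eq]; exact asucc (j + 1)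
      have e2 : f⁻¹ (a (j + 1)) = a j := by
        rw [Equiv.Perm.inv_eq_iff_eq]; exact asucc j
      rw [Equiv.Perm.mul_apply, e1, e2]
    have h2 : dist (a (j + 2)) x < δ₀ := by
      rw [Real.dist_eq, abs_of_pos (by linarith [(hax (j + 2)).1])]
      have h3 : δ ≤ δ₀ / 2 := min_le_left _ _
      linarith [ht.2]
    have h3 := hδ h2
    rw [← h1, Real.dist_eq, abs_of_pos (by linarith [(hax j).1])] at h3
    exact h3
  refine ⟨(f ^ j)⁻¹, A.G.inv_mem (A.G.pow_mem hfG j), ?_⟩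
  rw [inv_inv]
  set c₀ : ℝ := (f ^ j)⁻¹ t with hc₀
  have hfc : (f ^ j) c₀ = t := by rw [hc₀]; simp
  have hc1 : c₀ ≤ a 1 := by
    by_contra hcon
    push Not at hcon
    have h1 := hpm j hcon
    rw [hfc] at h1
    linarith
  have hc3 : a 2 < c₀ := by
    by_contra hcon
    push Not at hcon
    have h1 := (hpm j).monotone hcon
    rw [hfc, hadd j 2] at h1
    linarith
  have hsub : ∀ s ∈ Icc (c₀ - r) (c₀ + r), s ∈ Icc (a 3) v := by
    intro s hs
    have h1 : r ≤ v - a 1 := min_le_left _ _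
    have h2 : r ≤ a 2 - a 3 := min_le_right _ _
    exact ⟨by linarith [hs.1], by linarith [hs.2]⟩
  refine ⟨fun s hs => ?_, fun s hs s' hs' => hlog2 j s (hsub s hs) s' (hsub s' hs')⟩
  refine (hder j s (hsub s hs)).trans ?_
  have h1 : a j - a (j + 3) ≤ η := by linarith [(hax (j + 3)).1]
  have h2 : Real.exp E * (a j - a (j + 3)) ≤ Real.exp E * η :=
    mul_le_mul_of_nonneg_left h1 (Real.exp_pos _).le
  have h3 : Real.exp E * η / (v - a 3) = 1 / 2 := by
    rw [hη]; field_simp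
  calc Real.exp E * (a j - a (j + 3)) / (v - a 3) ≤ Real.exp E * η / (v - a 3) :=
        div_le_div_of_nonneg_right h2 hv3.le
    _ = 1 / 2 := h3

end Pool.Agent.H42.EM
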