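/-
LOC : local expansion near every point of L.

`Exd A x` : uniform local expansion near x.

PROOF of exd_of_exp (x expandable: g ∈ G, g'(x) > 1).  g'(t) is continuous: choose r > 0 with deriv g⁻¹ s ≤ lam < 1
for |s - g x| ≤ 2 r (deriv g⁻¹ (g x) = 1 / g'(x) < 1) and δ with |g t - g x| ≤ r for |t - x| < δ; γ = g for all t;
C from Good.lip for g⁻¹.
PROOF of exd_left: mirror image (A.refl).
PROOF of exd: if ¬ NE x use exd_of_exp.  If NE x: on the right side either L accumulates (exd_right) or there are no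
t ∈ L in (x, x + δ); same on the left; take minima of δ, r and maxima of C, lam.
-/
import Mathlib
import Pool.Agent.H42.EM.Locr
import Pool.Agent.H42.EM.Refl

set_option autoImplicit false

namespace Pool.Agent.H42.EM

open Set

lemma ExpAt.mono {A : Sys} {t r C lam r' C' lam' : ℝ} (h : ExpAt A t r C lam) (hr : r' ≤ r)
    (hC : C ≤ C') (hl : lam ≤ lam') : ExpAt A t r' C' lam' := by
  obtain ⟨γ, hγ, h1, h2⟩ := h
  have hsub : ∀ s ∈ Icc (γ t - r') (γ t + r'), s ∈ Icc (γ t - r) (γ t + r) := fun s hs =>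
    ⟨by linarith [hs.1], by linarith [hs.2]⟩
  exact ⟨γ, hγ, fun s hs => (h1 s (hsub s hs)).trans hl, fun s hs s' hs' =>
    (h2 s (hsub s hs) s' (hsub s' hs')).trans (mul_le_mul_of_nonneg_right hC (abs_nonneg _))⟩

lemma exd_of_exp (A : Sys) {x : ℝ} (h : ¬ A.NE x) : ∃ δ > 0, ∃ r > 0, ∃ C ≥ 0, ∃ lam < 1, 0 < lam ∧
    ∀ t, |t - x| < δ → ExpAt A t r C lam := by
  unfold Sys.NE at h
  push Not at h
  obtain ⟨g, hg, hg1⟩ := h
  have hG := A.good hg
  have hd : deriv (⇑g⁻¹) (g x) = (deriv (⇑g) x)⁻¹ := by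
    rw [hG.deriv_inv]
    simp
  have hinv1 : (deriv (⇑g) x)⁻¹ < 1 := inv_lt_one_of_one_lt₀ hg1
  have hinv0 : 0 < (deriv (⇑g) x)⁻¹ := inv_pos.2 (hG.pos x)
  set lam : ℝ := (1 + (deriv (⇑g) x)⁻¹) / 2 with hlam
  have hl1 : lam < 1 := by linarith
  have hl2 : deriv (⇑g⁻¹) (g x) < lam := by rw [hd]; linarith
  have hc : Continuous (deriv (⇑g⁻¹)) := hG.inv.contDeriv
  obtain ⟨r₀, hr₀, hr₀'⟩ := Metric.eventually_nhds_iff.1 (hc.continuousAt.eventually_lt_const hl2)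
  obtain ⟨δ, hδ, hδ'⟩ := Metric.continuousAt_iff.1 (hG.cont.continuousAt (x := x)) (r₀ / 3)
    (by linarith)
  obtain ⟨M, hM0, hM⟩ := hG.inv.lip
  refine ⟨δ, hδ, r₀ / 3, by linarith, M, hM0, lam, hl1, by linarith, fun t ht => ?_⟩
  refine ⟨g, hg, fun s hs => ?_, fun s _ s' _ => hM s s'⟩
  have h1 := hδ' (x := t) (by rw [Real.dist_eq]; exact ht)
  rw [Real.dist_eq, abs_lt] at h1
  refine (hr₀' ?_).le
  rw [Real.dist_eq, abs_lt]
  constructor
  · linarith [hs.1, h1.1]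
  · linarith [hs.2, h1.2]

lemma exd_left (A : Sys) {x : ℝ} (h : StarR A.refl (-x)) : ∃ δ > 0, ∃ r > 0, ∃ C ≥ 0, ∃ lam < 1,
    0 < lam ∧ ∀ t ∈ Ioo (x - δ) x, ExpAt A t r C lam := by
  obtain ⟨δ, hδ, r, hr, C, hC, lam, hl1, hl0, hE⟩ := exd_right A.refl h
  refine ⟨δ, hδ, r, hr, C, hC, lam, hl1, hl0, fun t ht => ?_⟩
  obtain ⟨γ, hγ, h1, h2⟩ := hE (-t) ⟨by linarith [ht.2], by linarith [ht.1]⟩
  have hγ' : rf γ ∈ A.G := (A.refl_G γ).1 hγ
  have hmem : ∀ s ∈ Icc (rf γ t - r) (rf γ t + r), -s ∈ Icc (γ (-t) - r) (γ (-t) + r) := by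
    intro s hs
    rw [rf_apply] at hs
    exact ⟨by linarith [hs.2], by linarith [hs.1]⟩
  refine ⟨rf γ, hγ', fun s hs => ?_, fun s hs s' hs' => ?_⟩
  · rw [← rf_inv, deriv_rf]
    exact h1 _ (hmem s hs)
  · rw [← rf_inv, deriv_rf, deriv_rf]
    have h3 := h2 _ (hmem s hs) _ (hmem s' hs')
    have h4 : |-s - -s'| = |s - s'| := by
      rw [← abs_neg]
      congr 1
      ring
    rwa [h4] at h3

lemma exd (A : Sys) {x : ℝ}
    (hst : A.NE x → (AccR A.L x → StarR A x) ∧ (AccR A.refl.L (-x) → StarR A.refl (-x))) :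
    ∃ δ > 0, ∃ r > 0, ∃ C ≥ 0, ∃ lam < 1, 0 < lam ∧
    ∀ t ∈ A.L, |t - x| < δ → (t ≠ x ∨ ¬ A.NE x) → ExpAt A t r C lam := by
  by_cases hNE : A.NE x
  · have hR : ∃ δ > 0, ∃ r > 0, ∃ C ≥ 0, ∃ lam < 1, 0 < lam ∧
        ∀ t ∈ A.L, t ∈ Ioo x (x + δ) → ExpAt A t r C lam := by
      by_cases h : AccR A.L x
      · obtain ⟨δ, hδ, r, hr, C, hC, lam, hl1, hl0, hE⟩ := exd_right A ((hst hNE).1 h)
        exact ⟨δ, hδ, r, hr, C, hC, lam, hl1, hl0, fun t _ ht => hE t ht⟩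
      · unfold AccR at h
        push Not at h
        obtain ⟨δ, hδ, hδ'⟩ := h
        exact ⟨δ, hδ, 1, one_pos, 0, le_rfl, 1 / 2, by norm_num, by norm_num, fun t htL ht =>
          absurd htL (hδ' t ht)⟩
    have hL : ∃ δ > 0, ∃ r > 0, ∃ C ≥ 0, ∃ lam < 1, 0 < lam ∧
        ∀ t ∈ A.L, t ∈ Ioo (x - δ) x → ExpAt A t r C lam := by
      by_cases h : AccR A.refl.L (-x)
      · obtain ⟨δ, hδ, r, hr, C, hC, lam, hl1, hl0, hE⟩ := exd_left A ((hst hNE).2 h)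
        exact ⟨δ, hδ, r, hr, C, hC, lam, hl1, hl0, fun t _ ht => hE t ht⟩
      · unfold AccR at h
        push Not at h
        obtain ⟨δ, hδ, hδ'⟩ := h
        refine ⟨δ, hδ, 1, one_pos, 0, le_rfl, 1 / 2, by norm_num, by norm_num, fun t htL ht => ?_⟩
        have h1 := hδ' (-t) ⟨by linarith [ht.2], by linarith [ht.1]⟩
        rw [A.refl_L, neg_neg] at h1
        exact absurd htL h1
    obtain ⟨δ, hδ, r, hr, C, hC, lam, hl1, hl0, hE⟩ := hR
    obtain ⟨δ', hδ', r', hr', C', hC', lam', hl1', hl0', hE'⟩ := hL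
    refine ⟨min δ δ', lt_min hδ hδ', min r r', lt_min hr hr', max C C', le_max_of_le_left hC,
      max lam lam', max_lt hl1 hl1', lt_max_of_lt_left hl0, fun t htL ht hne => ?_⟩
    have h1 := ht.trans_le (min_le_left _ _)
    have h2 := ht.trans_le (min_le_right _ _)
    rw [abs_lt] at h1 h2
    have hne' : t ≠ x := hne.resolve_right (not_not.2 hNE)
    rcases lt_or_gt_of_ne hne' with h | h
    · exact (hE' t htL ⟨by linarith, h⟩).mono (min_le_right _ _) (le_max_right _ _)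
        (le_max_right _ _)
    · exact (hE t htL ⟨h, by linarith⟩).mono (min_le_left _ _) (le_max_left _ _)
        (le_max_left _ _)
  · obtain ⟨δ, hδ, r, hr, C, hC, lam, hl1, hl0, hE⟩ := exd_of_exp A hNE
    exact ⟨δ, hδ, r, hr, C, hC, lam, hl1, hl0, fun t _ ht _ => hE t ht⟩

end Pool.Agent.H42.EM
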