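/-
PE : uniform expansion at all points of L which are not non-expandable; the non-expandable points are separated.

PROOF.  ExpAt_add_int: use γ' = γ * T ^ (-k): γ' (t + k) = γ t and (γ')⁻¹ = T ^ k * γ⁻¹ has the same derivative as
γ⁻¹ up to the translation (Good.deriv_mul, deriv of T^k is 1).  NE is invariant under integer translations
(Good.deriv_add_int).  For each x ∈ L let δ x, r x, C x, lam x be given by `exd`.  Cover the compact set
L ∩ Icc 0 1 by finitely many balls B(x_i, δ x_i / 2); r := min r x_i, C := max, lam := max, d := min (δ x_i / 2).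
If t ∈ L is not NE, translate it into [0, 1] (t' = t - ⌊t⌋), t' ∈ B(x_i, δ x_i), ExpAt A t' (t' ≠ x_i or ¬ NE x_i
because ¬ NE t').  If t ≠ t' in L are both NE with |t - t'| < d, translate so that t ∈ [0, 1]; t ∈ B(x_i, δ x_i / 2),
t' ∈ B(x_i, δ x_i); an NE point s of L with |s - x_i| < δ x_i is equal to x_i: otherwise ExpAt A s .. gives γ with
deriv γ⁻¹ (γ s) ≤ lam < 1, i.e. deriv γ s ≥ 1 / lam > 1.  So t = x_i = t'.
-/
import Mathlib
import Pool.Agent.H42.EM.Loc

set_option autoImplicit false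

namespace Pool.Agent.H42.EM

open Set

lemma ExpAt.add_int {A : Sys} {t r C lam : ℝ} (h : ExpAt A t r C lam) (k : ℤ) :
    ExpAt A (t + k) r C lam := by
  obtain ⟨γ, hγ, h1, h2⟩ := h
  have hg : Good γ := A.good hγ
  have e1 : (γ * T ^ (-k)) (t + k) = γ t := by
    rw [Equiv.Perm.mul_apply, T_zpow]
    congr 1
    push_cast
    ring
  have e2 : (⇑(γ * T ^ (-k))⁻¹ : ℝ → ℝ) = fun s => γ⁻¹ s + (k : ℝ) := by
    funext s
    rw [mul_inv_rev, ← zpow_neg, neg_neg, Equiv.Perm.mul_apply, T_zpow]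
  have e3 : ∀ s, deriv (⇑(γ * T ^ (-k))⁻¹) s = deriv (⇑γ⁻¹) s := by
    intro s
    rw [e2, deriv_add_const]
  refine ⟨γ * T ^ (-k), Subgroup.mul_mem _ hγ (A.Tz_mem _), ?_, ?_⟩
  · intro s hs
    rw [e1] at hs
    rw [e3]
    exact h1 s hs
  · intro s hs s' hs'
    rw [e1] at hs hs'
    rw [e3, e3]
    exact h2 s hs s' hs'

lemma Sys.NE.add_int {A : Sys} {t : ℝ} (h : A.NE t) (k : ℤ) : A.NE (t + k) := by
  intro g hg
  rw [(A.good hg).deriv_add_int]
  exact h g hg

lemma Pe_contra {A : Sys} {s r C lam : ℝ} (hr : 0 < r) (hl : lam < 1) (h : ExpAt A s r C lam)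
    (hs : A.NE s) : False := by
  obtain ⟨γ, hγ, h1, -⟩ := h
  have hg : Good γ := A.good hγ
  have h2 := h1 (γ s) ⟨by linarith, by linarith⟩
  rw [hg.deriv_inv] at h2
  have e : γ⁻¹ (γ s) = s := by simp
  rw [e] at h2
  have h3 := hs γ hγ
  have h4 : 1 ≤ (deriv (⇑γ) s)⁻¹ := (one_le_inv₀ (hg.pos s)).mpr h3
  linarith

lemma Pe_monoE {A : Sys} {t r C lam r' C' lam' : ℝ} (h : ExpAt A t r C lam) (hr : r' ≤ r)
    (hC : C ≤ C') (hl : lam ≤ lam') : ExpAt A t r' C' lam' := h.mono hr hC hl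

theorem unif_exp (A : Sys)
    (hst : ∀ x ∈ A.L, A.NE x →
      (AccR A.L x → StarR A x) ∧ (AccR A.refl.L (-x) → StarR A.refl (-x))) :
    ∃ r > 0, ∃ C ≥ 0, ∃ lam < 1, 0 < lam ∧ ∃ d > 0,
      (∀ t ∈ A.L, ¬ A.NE t → ExpAt A t r C lam) ∧
      (∀ t ∈ A.L, ∀ t' ∈ A.L, A.NE t → A.NE t' → t ≠ t' → d ≤ |t - t'|) := by
  have hK : IsCompact (A.L ∩ Icc (0:ℝ) 1) := isCompact_Icc.inter_left A.closed
  have key : ∃ r > 0, ∃ C ≥ 0, ∃ lam < 1, 0 < lam ∧ ∃ d > 0,
      (∀ t ∈ A.L ∩ Icc (0:ℝ) 1, ¬ A.NE t → ExpAt A t r C lam) ∧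
      (∀ t ∈ A.L ∩ Icc (0:ℝ) 1, ∀ t' ∈ A.L, A.NE t → A.NE t' → t ≠ t' → d ≤ |t - t'|) := by
    refine IsCompact.induction_on (p := fun S => ∃ r > 0, ∃ C ≥ 0, ∃ lam < 1, 0 < lam ∧ ∃ d > 0,
      (∀ t ∈ S, ¬ A.NE t → ExpAt A t r C lam) ∧
      (∀ t ∈ S, ∀ t' ∈ A.L, A.NE t → A.NE t' → t ≠ t' → d ≤ |t - t'|)) hK ?_ ?_ ?_ ?_
    · exact ⟨1, one_pos, 0, le_rfl, 1 / 2, by norm_num, by norm_num, 1, one_pos,
        fun t ht => absurd ht (Set.notMem_empty t), fun t ht => absurd ht (Set.notMem_empty t)⟩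
    · rintro S S' hSS ⟨r, hr, C, hC, lam, hl, hl0, d, hd, h1, h2⟩
      exact ⟨r, hr, C, hC, lam, hl, hl0, d, hd, fun t ht => h1 t (hSS ht),
        fun t ht => h2 t (hSS ht)⟩
    · rintro S S' ⟨r, hr, C, hC, lam, hl, hl0, d, hd, h1, h2⟩
        ⟨r', hr', C', hC', lam', hl', hl0', d', hd', h1', h2'⟩
      refine ⟨min r r', lt_min hr hr', max C C', le_max_of_le_left hC, max lam lam', max_lt hl hl',
        lt_max_of_lt_left hl0, min d d', lt_min hd hd', ?_, ?_⟩
      · rintro t (ht | ht) hn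
        · exact (h1 t ht hn).mono (min_le_left _ _) (le_max_left _ _) (le_max_left _ _)
        · exact (h1' t ht hn).mono (min_le_right _ _) (le_max_right _ _) (le_max_right _ _)
      · rintro t (ht | ht) t' ht' hn hn' hne
        · exact (min_le_left _ _).trans (h2 t ht t' ht' hn hn' hne)
        · exact (min_le_right _ _).trans (h2' t ht t' ht' hn hn' hne)
    · intro x hx
      obtain ⟨δ, hδ, r, hr, C, hC, lam, hl, hl0, h⟩ := exd A (x := x) (fun hn => hst x hx.1 hn)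
      have huniq : ∀ s ∈ A.L, |s - x| < δ → A.NE s → s = x := by
        intro s hs hsx hn
        by_contra hne
        exact Pe_contra hr hl (h s hs hsx (Or.inl hne)) hn
      refine ⟨Metric.ball x (δ / 2) ∩ (A.L ∩ Icc (0:ℝ) 1), ?_, r, hr, C, hC, lam, hl, hl0, δ / 2,
        by linarith, ?_, ?_⟩
      · rw [Set.inter_comm (Metric.ball x (δ / 2))]
        exact inter_mem_nhdsWithin _ (Metric.ball_mem_nhds x (half_pos hδ))
      · intro t ht hn
        have h1 : |t - x| < δ / 2 := by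
          have := ht.1
          rwa [Metric.mem_ball, Real.dist_eq] at this
        refine h t ht.2.1 (by linarith) ?_
        by_cases e : t = x
        · right; rw [← e]; exact hn
        · left; exact e
      · intro t ht t' ht' hn hn' hne
        have h1 : |t - x| < δ / 2 := by
          have := ht.1
          rwa [Metric.mem_ball, Real.dist_eq] at this
        by_contra hlt
        push Not at hlt
        have h2 : |t' - x| < δ := by
          have e : t' - x = -(t - t') + (t - x) := by ring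
          rw [e]
          calc |-(t - t') + (t - x)| ≤ |-(t - t')| + |t - x| := abs_add_le _ _
            _ = |t - t'| + |t - x| := by rw [abs_neg]
            _ < δ := by linarith
        apply hne
        rw [huniq t ht.2.1 (by linarith) hn, huniq t' ht' h2 hn']
  obtain ⟨r, hr, C, hC, lam, hl, hl0, d, hd, h1, h2⟩ := key
  have hfr : ∀ t ∈ A.L, Int.fract t ∈ A.L ∩ Icc (0:ℝ) 1 := by
    intro t ht
    refine ⟨?_, Int.fract_nonneg t, (Int.fract_lt_one t).le⟩
    rw [← A.mem_add_int (Int.fract t) ⌊t⌋, Int.fract_add_floor]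
    exact ht
  refine ⟨r, hr, C, hC, lam, hl, hl0, d, hd, ?_, ?_⟩
  · intro t ht hn
    have hn' : ¬ A.NE (Int.fract t) := by
      intro h
      have := Sys.NE.add_int h ⌊t⌋
      rw [Int.fract_add_floor] at this
      exact hn this
    have := (h1 _ (hfr t ht) hn').add_int ⌊t⌋
    rwa [Int.fract_add_floor] at this
  · intro t ht t' ht' hn hn' hne
    have e1 : Int.fract t = t + ((-⌊t⌋ : ℤ) : ℝ) := by
      rw [Int.fract]; push_cast; ring
    have a1 : A.NE (Int.fract t) := by rw [e1]; exact Sys.NE.add_int hn _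
    have a2 : A.NE (t' + ((-⌊t⌋ : ℤ) : ℝ)) := Sys.NE.add_int hn' _
    have a3 : t' + ((-⌊t⌋ : ℤ) : ℝ) ∈ A.L := (A.mem_add_int _ _).mpr ht'
    have := h2 _ (hfr t ht) _ a3 a1 a2 (by rw [e1]; intro h; exact hne (by linarith))
    rw [e1] at this
    have e2 : t + ((-⌊t⌋ : ℤ) : ℝ) - (t' + ((-⌊t⌋ : ℤ) : ℝ)) = t - t' := by ring
    rwa [e2] at this

end Pool.Agent.H42.EM
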