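/-
FGO : finitely many orbits of gaps.

PROOF.  Take r, C, lam, d from the hypothesis (the conclusion of unif_exp) and η := min r d > 0.
(1) If (a, b) is a gap with b - a < η, there is γ ∈ G with b - a < γ b - γ a: not both a and b are NE (else
  d ≤ b - a).  If a is not NE take γ from ExpAt A a: if γ b - γ a > r ≥ η we are done; otherwise γ b ∈ [γ a, γ a + r]
  and by the mean value theorem for γ⁻¹ on [γ a, γ b], b - a ≤ lam (γ b - γ a) < γ b - γ a.  Same if b is not NE.
(2) For every gap (a, b) there is g ∈ G with η ≤ g b - g a.  Otherwise all the numbers g b - g a, g ∈ G, are < η; the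
  supremum is attained: let (gap_finset for η' = b - a) F be the finite set of left endpoints mod ℤ of the gaps of
  length ≥ b - a; the length of a gap depends only on its left endpoint mod ℤ, so {g b - g a | g ∈ G, g b - g a ≥ b - a}
  is a finite nonempty set; take g with maximal value; apply (1) to the gap (g a, g b): contradiction.
(3) F from gap_finset for η; for each q ∈ F let s q be the midpoint of the gap (q, q') with left endpoint q
  (choice), S = image.  s q ∉ L.  For x ∉ L: exists_gap (a, b) ∋ x; (2) gives g; g a = q + k, so T^(-k) g maps (a, b)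
  onto (q, q') (eq_of_left), and h = (T^(-k) g)⁻¹ ∈ G maps s q into Ioo a b.  Ioo a b is a preconnected subset of Lᶜ
  containing x and h (s q), so x ∈ connectedComponentIn Lᶜ (h (s q)) (IsPreconnected.subset_connectedComponentIn).
-/
import Mathlib
import Pool.Agent.H42.EM.Pe
import Pool.Agent.H42.EM.Fam

set_option autoImplicit false

namespace Pool.Agent.H42.EM

open Set

private lemma Fgo_step (A : Sys) {r C lam d : ℝ} (hl : lam < 1)
    (h1 : ∀ t ∈ A.L, ¬ A.NE t → ExpAt A t r C lam)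
    (h2 : ∀ t ∈ A.L, ∀ t' ∈ A.L, A.NE t → A.NE t' → t ≠ t' → d ≤ |t - t'|)
    {a b : ℝ} (hg : IsGap A.L a b) (hlr : b - a < r) (hld : b - a < d) :
    ∃ γ ∈ A.G, b - a < γ b - γ a := by
  obtain ⟨hab, ha, hb, -⟩ := hg
  have key : ∀ γ ∈ A.G, ∀ c : ℝ, (γ c - r ≤ γ a ∧ γ b ≤ γ c + r) →
      (∀ s ∈ Icc (γ c - r) (γ c + r), deriv (⇑γ⁻¹) s ≤ lam) → b - a < γ b - γ a := by
    intro γ hγ c hc hs
    have hgood := A.good hγ
    have hlt : γ a < γ b := hgood.mono hab
    obtain ⟨ξ, hξ, he⟩ := hgood.inv.mvt hlt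
    have e1 : γ⁻¹ (γ b) = b := by simp
    have e2 : γ⁻¹ (γ a) = a := by simp
    rw [e1, e2] at he
    have h5 := hs ξ ⟨hc.1.trans hξ.1.le, hξ.2.le.trans hc.2⟩
    have h6 : 0 < γ b - γ a := by linarith
    calc b - a = deriv (⇑γ⁻¹) ξ * (γ b - γ a) := he
      _ ≤ lam * (γ b - γ a) := mul_le_mul_of_nonneg_right h5 h6.le
      _ < 1 * (γ b - γ a) := mul_lt_mul_of_pos_right hl h6
      _ = γ b - γ a := one_mul _
  by_cases hNa : A.NE a
  · have hNb : ¬ A.NE b := by
      intro hNb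
      have h3 := h2 b hb a ha hNb hNa hab.ne'
      rw [abs_of_pos (by linarith)] at h3
      linarith
    obtain ⟨γ, hγ, hs, -⟩ := h1 b hb hNb
    refine ⟨γ, hγ, ?_⟩
    by_cases hr' : r < γ b - γ a
    · linarith
    · exact key γ hγ b ⟨by linarith, by linarith⟩ hs
  · obtain ⟨γ, hγ, hs, -⟩ := h1 a ha hNa
    refine ⟨γ, hγ, ?_⟩
    by_cases hr' : r < γ b - γ a
    · linarith
    · exact key γ hγ a ⟨by linarith, by linarith⟩ hs

private lemma Fgo_large (A : Sys) {r C lam d : ℝ} (hl : lam < 1)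
    (h1 : ∀ t ∈ A.L, ¬ A.NE t → ExpAt A t r C lam)
    (h2 : ∀ t ∈ A.L, ∀ t' ∈ A.L, A.NE t → A.NE t' → t ≠ t' → d ≤ |t - t'|)
    {a b : ℝ} (hg : IsGap A.L a b) : ∃ g ∈ A.G, min r d ≤ g b - g a := by
  by_contra hcon
  push Not at hcon
  have hpos : 0 < b - a := by linarith [hg.1]
  obtain ⟨F, hF1, hF2⟩ := gap_finset A hpos
  choose! q' hq' using hF1
  set V : Set ℝ := {v | ∃ g ∈ A.G, v = g b - g a ∧ b - a ≤ v} with hV
  have hfin : V.Finite := by
    refine (F.finite_toSet.image (fun q => q' q - q)).subset ?_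
    rintro v ⟨g, hgG, rfl, hv⟩
    have hgap := hg.image A hgG
    obtain ⟨q, hq, k, hk⟩ := hF2 (g a) (g b) hgap hv
    refine ⟨q, hq, ?_⟩
    have h3 := (hq' q hq).add_int A k
    rw [hk] at hgap
    have h4 := hgap.eq_of_left h3
    simp only
    rw [hk, h4]
    ring
  have hne : V.Nonempty := ⟨b - a, 1, Subgroup.one_mem _, by simp, le_refl _⟩
  obtain ⟨m, hm, hmax⟩ := Set.exists_max_image V id hfin hne
  obtain ⟨g, hgG, rfl, hv⟩ := hm
  have h3 := hcon g hgG
  obtain ⟨γ, hγ, h4⟩ := Fgo_step A hl h1 h2 (hg.image A hgG) (h3.trans_le (min_le_left _ _))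
    (h3.trans_le (min_le_right _ _))
  have h5 : γ (g b) - γ (g a) ∈ V := by
    refine ⟨γ * g, Subgroup.mul_mem _ hγ hgG, rfl, ?_⟩
    linarith
  have h6 := hmax _ h5
  simp only [id] at h6
  linarith

theorem fin_orbits (A : Sys) {r C lam d : ℝ} (hr : 0 < r) (hl : lam < 1) (hl0 : 0 < lam) (hd : 0 < d)
    (h1 : ∀ t ∈ A.L, ¬ A.NE t → ExpAt A t r C lam)
    (h2 : ∀ t ∈ A.L, ∀ t' ∈ A.L, A.NE t → A.NE t' → t ≠ t' → d ≤ |t - t'|) :
    ∃ S : Finset ℝ, (∀ s ∈ S, s ∉ A.L) ∧
      ∀ x : ℝ, x ∉ A.L → ∃ s ∈ S, ∃ g ∈ A.G, x ∈ connectedComponentIn (A.L)ᶜ (g s) := by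
  classical
  have hη : 0 < min r d := lt_min hr hd
  obtain ⟨F, hF1, hF2⟩ := gap_finset A hη
  choose! q' hq' using hF1
  refine ⟨F.image fun q => (q + q' q) / 2, ?_, ?_⟩
  · intro s hs
    obtain ⟨q, hq, rfl⟩ := Finset.mem_image.1 hs
    have h3 := hq' q hq
    have h4 := h3.1
    exact h3.2.2.2 _ ⟨by linarith, by linarith⟩
  · intro x hx
    obtain ⟨a, b, hgap, hxab⟩ := A.exists_gap hx
    obtain ⟨g, hgG, hge⟩ := Fgo_large A hl h1 h2 hgap
    have hgap' := hgap.image A hgG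
    obtain ⟨q, hq, k, hk⟩ := hF2 (g a) (g b) hgap' hge
    have h3 := (hq' q hq).add_int A k
    have h4 : g b = q' q + k := by
      rw [hk] at hgap'
      exact hgap'.eq_of_left h3
    refine ⟨(q + q' q) / 2, Finset.mem_image_of_mem _ hq, g⁻¹ * T ^ k,
      Subgroup.mul_mem _ (Subgroup.inv_mem _ hgG) (A.Tz_mem k), ?_⟩
    have h5 := (hq' q hq).1
    have hmem : (g⁻¹ * T ^ k) ((q + q' q) / 2) ∈ Ioo a b := by
      rw [Equiv.Perm.mul_apply, T_zpow]
      have hmono := (A.good hgG).inv.mono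
      have e1 : g⁻¹ (g b) = b := by simp
      have e2 : g⁻¹ (g a) = a := by simp
      constructor
      · rw [← e2]
        apply hmono
        rw [hk]
        linarith
      · have : g⁻¹ ((q + q' q) / 2 + k) < g⁻¹ (g b) := by
          apply hmono
          rw [h4]
          linarith
        rwa [e1] at this
    have hsub : Ioo a b ⊆ (A.L)ᶜ := fun t ht => hgap.2.2.2 t ht
    exact isPreconnected_Ioo.subset_connectedComponentIn hmem hsub hxab

end Pool.Agent.H42.EM
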