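/-
GED : non-expandable endpoints of gaps are summable.

PROOF of sumB_right (b is the right endpoint of the gap (a, b), NE b).  M : A.LipS M, E := 2 * M,
δ := (b - a) * exp (-E) / 2.  As in Sac.lean (1): if (n, w) is a path such that w i b ≠ w j b + k for
i < j ≤ n, k : ℤ, then Osc (w i) (a - δ) (b + δ) E for all i ≤ n (ctrl with c i = 2 (w i b - w i a); the left endpoints
w i a are also pairwise different mod ℤ: equal left endpoints mod ℤ give equal right endpoints mod ℤ by eq_of_left; so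
gap_sum applies).  Hence deriv (w i) b ≤ C (w i b - w i a), C := exp E / (b - a) (osc_deriv_le/osc_le_deriv).
For g ∈ G: min_path with Z = {b}: w n b = g b + k; deriv g b = deriv (w n) b (NE.deriv_congr), and (g a + k, g b + k),
(w n a, w n b) are gaps with the same right endpoint, so g b - g a = w n b - w n a.  So deriv g b ≤ C (g b - g a) for
all g ∈ G.  For a family s as in SumB, the gaps (g a, g b), g ∈ s, have pairwise different left endpoints mod ℤ
(otherwise equal right endpoints mod ℤ), so ∑ deriv g b ≤ C * 1.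
PROOF of sumB_oneSided.  If (x - δ, x) is free of L: exists_gap around a point t ∈ (x - δ, x): (a, b) ∋ t; b ≥ x is
impossible to exceed: x ∈ L so b ≤ x, and b ∈ L, b > t, (t, x) ∩ L = ∅, so b = x.  sumB_right.
If (x, x + δ) is free of L: apply the previous case to A.refl at -x (Refl.lean).
-/
import Mathlib
import Pool.Agent.H42.EM.Lps
import Pool.Agent.H42.EM.Refl
import Pool.Agent.H42.EM.Sac

set_option autoImplicit false

namespace Pool.Agent.H42.EM

open Set

lemma Ged_ne (A : Sys) {a b : ℝ} (h : IsGap A.L a b) {g g' : Equiv.Perm ℝ} (hg : g ∈ A.G)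
    (hg' : g' ∈ A.G) (hne : ∀ k : ℤ, g b ≠ g' b + k) (k : ℤ) : g a ≠ g' a + k := by
  intro e
  have h1 := h.image A hg
  have h2 := (h.image A hg').add_int A k
  rw [← e] at h2
  exact hne k (h1.eq_of_left h2)

lemma Ged_osc (A : Sys) {a b : ℝ} (h : IsGap A.L a b) {M : ℝ} (hM : A.LipS M) {n : ℕ}
    {w : ℕ → Equiv.Perm ℝ} (hw : A.Path n w)
    (hne : ∀ i j, i < j → j ≤ n → ∀ k : ℤ, w i b ≠ w j b + k) :
    ∀ i, i ≤ n → Osc (w i) (a - (b - a) * Real.exp (-(2 * M)) / 2)
      (b + (b - a) * Real.exp (-(2 * M)) / 2) (2 * M) := by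
  have hab : 0 < b - a := sub_pos.mpr h.1
  have he : 0 < Real.exp (-(2 * M)) := Real.exp_pos _
  set δ := (b - a) * Real.exp (-(2 * M)) / 2 with hδ
  have hδ0 : 0 < δ := by positivity
  have heδ : Real.exp (2 * M) * δ = (b - a) / 2 := by
    rw [hδ]
    have : Real.exp (2 * M) * Real.exp (-(2 * M)) = 1 := by rw [← Real.exp_add]; simp
    linear_combination (b - a) / 2 * this
  refine ctrl hM hw (by linarith) (fun i => 2 * (w i b - w i a)) ?_ ?_
  · intro i hi hO
    have hG := A.good (hw.mem hi.le)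
    have hm := hG.mono
    have h1 := osc_ratio hG hO (u := b) (v := b + δ) (u' := a) (v' := b)
      ⟨by linarith, by linarith⟩ ⟨by linarith, by linarith⟩ (by linarith)
      ⟨by linarith, by linarith⟩ ⟨by linarith, by linarith⟩ (by linarith)
    have h2 := osc_ratio hG hO (u := a - δ) (v := a) (u' := a) (v' := b)
      ⟨by linarith, by linarith⟩ ⟨by linarith, by linarith⟩ (by linarith)
      ⟨by linarith, by linarith⟩ ⟨by linarith, by linarith⟩ (by linarith)
    have h3 : Real.exp (2 * M) * ((w i b - w i a) * (b + δ - b)) = (w i b - w i a) / 2 * (b - a) := by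
      linear_combination (w i b - w i a) * heδ
    have h4 : Real.exp (2 * M) * ((w i b - w i a) * (a - (a - δ))) = (w i b - w i a) / 2 * (b - a) := by
      linear_combination (w i b - w i a) * heδ
    rw [h3] at h1
    rw [h4] at h2
    have h5 := le_of_mul_le_mul_right h1 hab
    have h6 := le_of_mul_le_mul_right h2 hab
    show w i (b + δ) - w i (a - δ) ≤ 2 * (w i b - w i a)
    linarith
  · intro i hi
    have h1 := gap_sum A (Finset.range i) (fun l => w l a) (fun l => w l b)
      (fun l hl => h.image A (hw.mem ((Finset.mem_range.mp hl).le.trans hi)))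
      (fun l hl l' hl' hll' k => by
        have e1 := Finset.mem_range.mp hl
        have e2 := Finset.mem_range.mp hl'
        refine Ged_ne A h (hw.mem (e1.le.trans hi)) (hw.mem (e2.le.trans hi)) (fun k => ?_) k
        rcases lt_or_gt_of_ne hll' with h3 | h3
        · exact hne l l' h3 (e2.le.trans hi) k
        · intro e
          refine hne l' l h3 (e1.le.trans hi) (-k) ?_
          rw [e]; push_cast; ring)
    rw [← Finset.mul_sum]
    have hM0 := hM.1
    nlinarith

lemma Ged_bd (A : Sys) {a b : ℝ} (h : IsGap A.L a b) (hNE : A.NE b) {M : ℝ} (hM : A.LipS M)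
    {g : Equiv.Perm ℝ} (hg : g ∈ A.G) :
    deriv (⇑g) b ≤ Real.exp (2 * M) / (b - a) * (g b - g a) := by
  have hab : 0 < b - a := sub_pos.mpr h.1
  obtain ⟨n, w, hw, ⟨k, hk⟩, hmin⟩ := A.min_path {b} hg
  have hkb : w n b = g b + k := hk b rfl
  have hne : ∀ i j, i < j → j ≤ n → ∀ k : ℤ, w i b ≠ w j b + k := by
    intro i j hij hj k' e
    refine hmin i j hij hj ⟨k', fun z hz => ?_⟩
    rw [mem_singleton_iff.mp hz]
    exact e
  have hO := Ged_osc A h hM hw hne n le_rfl
  have hδ0 : 0 < (b - a) * Real.exp (-(2 * M)) / 2 := by positivity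
  have hwm : w n ∈ A.G := hw.mem le_rfl
  have h1 := osc_le_deriv (A.good hwm) hO (x := b) (u := a) (v := b)
    ⟨by linarith, by linarith⟩ ⟨by linarith, by linarith⟩ ⟨by linarith, by linarith⟩ (by linarith)
  have h2 : deriv (⇑g) b = deriv (⇑(w n)) b :=
    hNE.deriv_congr hg hwm (k := -k) (by rw [hkb]; push_cast; ring)
  have h3 := h.image A hwm
  have h4 := (h.image A hg).add_int A k
  rw [← hkb] at h4
  have h5 : w n a = g a + k := h3.eq_of_right h4
  rw [h2, div_mul_eq_mul_div, le_div_iff₀ hab]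
  have h6 : w n b - w n a = g b - g a := by rw [hkb, h5]; ring
  rw [h6] at h1
  exact h1

lemma sumB_right (A : Sys) {a b : ℝ} (h : IsGap A.L a b) (hNE : A.NE b) : ∃ W, A.SumB b W := by
  obtain ⟨M, hM⟩ := A.exists_lip
  have hab : 0 < b - a := sub_pos.mpr h.1
  refine ⟨Real.exp (2 * M) / (b - a), fun s hs hne => ?_⟩
  have h1 := gap_sum A s (fun g => g a) (fun g => g b) (fun g hg => h.image A (hs g hg))
    (fun g hg g' hg' hgg' => Ged_ne A h (hs g hg) (hs g' hg') (hne g hg g' hg' hgg'))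
  have hC : 0 ≤ Real.exp (2 * M) / (b - a) := by positivity
  calc ∑ g ∈ s, deriv (⇑g) b ≤ ∑ g ∈ s, Real.exp (2 * M) / (b - a) * (g b - g a) :=
        Finset.sum_le_sum fun g hg => Ged_bd A h hNE hM (hs g hg)
    _ = Real.exp (2 * M) / (b - a) * ∑ g ∈ s, (g b - g a) := by rw [Finset.mul_sum]
    _ ≤ Real.exp (2 * M) / (b - a) * 1 := mul_le_mul_of_nonneg_left h1 hC
    _ = Real.exp (2 * M) / (b - a) := mul_one _

lemma Ged_left (A : Sys) {x : ℝ} (hx : x ∈ A.L) (hNE : A.NE x) {δ : ℝ} (hδ : 0 < δ)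
    (h : ∀ t ∈ Ioo (x - δ) x, t ∉ A.L) : ∃ W, A.SumB x W := by
  have ht : x - δ / 2 ∉ A.L := h _ ⟨by linarith, by linarith⟩
  obtain ⟨a, b, hg, hab⟩ := A.exists_gap ht
  have h1 : b ≤ x := by
    by_contra hcon
    push Not at hcon
    exact hg.2.2.2 x ⟨by linarith [hab.1], hcon⟩ hx
  have h2 : b = x := by
    by_contra hcon
    exact h b ⟨by linarith [hab.2], lt_of_le_of_ne h1 hcon⟩ hg.2.2.1
  subst h2
  exact sumB_right A hg hNE

lemma sumB_oneSided (A : Sys) {x : ℝ} (hx : x ∈ A.L) (hNE : A.NE x) (h : OneSided A.L x) :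
    ∃ W, A.SumB x W := by
  obtain ⟨δ, hδ, h | h⟩ := h
  · have h1 : ∃ W, A.refl.SumB (-x) W := by
      refine Ged_left A.refl ?_ ?_ hδ ?_
      · rw [Sys.refl_L, neg_neg]; exact hx
      · rw [Sys.refl_NE, neg_neg]; exact hNE
      · intro t ht
        rw [Sys.refl_L]
        exact h (-t) ⟨by linarith [ht.2], by linarith [ht.1]⟩
    obtain ⟨W, hW⟩ := h1
    rw [Sys.refl_SumB, neg_neg] at hW
    exact ⟨W, hW⟩
  · exact Ged_left A hx hNE hδ h

end Pool.Agent.H42.EM
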