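/-
MZA : L is porous at every point whose orbit avoids the non-expandable points.

PROOF.  κ₀: there is κ₀ > 0 such that every interval [z - r, z + r], z ∈ L, contains a gap-free-of-L interval
(c, c + κ₀) (Sys.nowhere + compactness: for z ∈ L ∩ [0,1] choose a free interval inside (z - r/2, z + r/2), it works
for all z' with |z' - z| < r/2; finite subcover, integer translations).  WLOG κ₀ ≤ r.
Iteration: t₀ = t; t_n ∈ L with orbit avoiding NE, γ_{n+1} from ExpAt A t_n, t_{n+1} = γ_{n+1} t_n, φ_0 = 1,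
φ_{n+1} = φ_n * γ_{n+1}⁻¹, I_n = [t_n - r, t_n + r], D := C / (1 - lam).  Claim by induction on n (state it as an
existence statement: for every n there are z ∈ L with orbit avoiding NE and φ ∈ G with φ z = t and):
   (φ_n)' ≤ lam^n on I_n  and  |log φ_n'(s) - log φ_n'(s')| ≤ D |s - s'| for s, s' ∈ I_n.
Step: γ⁻¹ := γ_{n+1}⁻¹ maps I_{n+1} into I_n (|γ⁻¹ s - t_n| ≤ lam |s - t_{n+1}| ≤ r, mean value theorem), and
φ_{n+1}' = φ_n'(γ⁻¹ s) (γ⁻¹)'(s) ≤ lam^n * lam; Lipschitz: D * lam + C = D.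
Conclusion: fix ρ > 0, κ := κ₀ exp(-2 D r·...)...: with z = t_n, φ = φ_n, e := φ'(z), and (c, c + κ₀) ⊆ [z - r, z + r]
free of L: by the mean value theorem and the Lipschitz bound (|s - s'| ≤ 2 r on I_n), with B := exp (2 D r),
φ maps (c, c + κ₀) onto an interval free of L of length ≥ e κ₀ / B, contained in [t - r', t + r'] with
r' := B e r (|φ s - t| = |φ s - φ z| ≤ B e |s - z|).  So κ := κ₀ / (B² r) works: κ r' = e κ₀ / B.
And 0 < r' = B e r ≤ B lam^n r → 0.
-/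
import Mathlib
import Pool.Agent.H42.EM.Pe

set_option autoImplicit false

namespace Pool.Agent.H42.EM

open Set

/-- weak porosity of `L` at `t` -/
def Por (L : Set ℝ) (t : ℝ) : Prop :=
  ∃ κ > 0, ∀ ρ > 0, ∃ r, 0 < r ∧ r < ρ ∧ ∃ c, t - r ≤ c ∧ c + κ * r ≤ t + r ∧
    ∀ s ∈ Set.Ioo c (c + κ * r), s ∉ L

lemma Mza_free (A : Sys) {r : ℝ} (hr : 0 < r) : ∃ κ > 0, ∀ z : ℝ, ∃ c, z - r ≤ c ∧ c + κ ≤ z + r ∧
    ∀ s ∈ Ioo c (c + κ), s ∉ A.L := by
  obtain ⟨N, hN⟩ := exists_nat_gt (1 / r)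
  have hN0 : (0 : ℝ) < N := lt_trans (by positivity) hN
  have hN1 : (1 : ℝ) / N < r := by
    rw [div_lt_iff₀ hN0]
    rw [div_lt_iff₀ hr] at hN
    linarith [mul_comm (N : ℝ) r]
  -- free intervals in the cells
  have h1 : ∀ i : ℕ, ∃ ε > 0, ∃ c, (i : ℝ) / N ≤ c ∧ c + ε ≤ ((i : ℝ) + 1) / N ∧
      ∀ s ∈ Ioo c (c + ε), s ∉ A.L := by
    intro i
    have hlt : (i : ℝ) / N < ((i : ℝ) + 1) / N := by
      apply div_lt_div_of_pos_right _ hN0
      linarith
    obtain ⟨t, ht, htL⟩ := A.nowhere hlt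
    have hopen : IsOpen (A.Lᶜ) := A.closed.isOpen_compl
    obtain ⟨ε, hε, hball⟩ := Metric.isOpen_iff.mp hopen t htL
    refine ⟨min ε (((i : ℝ) + 1) / N - t), lt_min hε (by linarith [ht.2]), t, ht.1.le, ?_, ?_⟩
    · have := min_le_right ε (((i : ℝ) + 1) / N - t)
      linarith
    · intro s hs
      have hsb : s ∈ Metric.ball t ε := by
        rw [Metric.mem_ball, Real.dist_eq, abs_lt]
        have := min_le_left ε (((i : ℝ) + 1) / N - t)
        constructor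
        · linarith [hs.1]
        · linarith [hs.2]
      exact hball hsb
  choose ε hε c hc1 hc2 hc3 using h1
  -- the minimum
  obtain ⟨κ, hκ, hκm⟩ : ∃ κ > 0, ∀ i < N, κ ≤ ε i := by
    clear hN hN0 hN1 hc1 hc2
    induction N with
    | zero => exact ⟨1, one_pos, fun i hi => absurd hi (Nat.not_lt_zero i)⟩
    | succ n ih =>
      obtain ⟨κ, hκ, h⟩ := ih
      refine ⟨min κ (ε n), lt_min hκ (hε n), fun i hi => ?_⟩
      rcases Nat.lt_succ_iff_lt_or_eq.mp hi with h' | rfl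
      · exact (min_le_left _ _).trans (h i h')
      · exact min_le_right _ _
  refine ⟨κ, hκ, fun z => ?_⟩
  set z' := Int.fract z with hz'
  have hz0 : 0 ≤ z' := Int.fract_nonneg z
  have hz1 : z' < 1 := Int.fract_lt_one z
  have hzz : z = z' + ⌊z⌋ := (Int.fract_add_floor z).symm
  set i := ⌊(N : ℝ) * z'⌋₊ with hi
  have hi1 : (i : ℝ) ≤ N * z' := Nat.floor_le (by positivity)
  have hi2 : (N : ℝ) * z' < i + 1 := Nat.lt_floor_add_one _
  have hiN : i < N := by
    have : (i : ℝ) < N := by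
      calc (i : ℝ) ≤ N * z' := hi1
        _ < N * 1 := by exact mul_lt_mul_of_pos_left hz1 hN0
        _ = N := mul_one _
    exact_mod_cast this
  have ha : (i : ℝ) / N ≤ z' := by
    rw [div_le_iff₀ hN0]; linarith [mul_comm (N : ℝ) z']
  have hb : z' < ((i : ℝ) + 1) / N := by
    rw [lt_div_iff₀ hN0]; linarith [mul_comm (N : ℝ) z']
  have hab : ((i : ℝ) + 1) / N = (i : ℝ) / N + 1 / N := add_div _ _ _
  have hk := hκm i hiN
  refine ⟨c i + ⌊z⌋, ?_, ?_, ?_⟩
  · have := hc1 i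
    linarith
  · have := hc2 i
    linarith
  · intro s hs hsL
    have h5 : s - ⌊z⌋ ∈ A.L := by
      have := A.mem_add_int (s - ⌊z⌋) ⌊z⌋
      rw [sub_add_cancel] at this
      exact this.mp hsL
    exact hc3 i (s - ⌊z⌋) ⟨by linarith [hs.1], by linarith [hs.2]⟩ h5

lemma Mza_lip {g : Equiv.Perm ℝ} (hg : Good g) {a b K : ℝ}
    (h : ∀ s ∈ Icc a b, deriv (⇑g) s ≤ K) {s s' : ℝ} (hs : s ∈ Icc a b) (hs' : s' ∈ Icc a b) :
    |g s - g s'| ≤ K * |s - s'| := by
  have key : ∀ u v : ℝ, u ∈ Icc a b → v ∈ Icc a b → u < v → |g v - g u| ≤ K * |v - u| := by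
    intro u v hu hv huv
    obtain ⟨ξ, hξ, he⟩ := hg.mvt huv
    rw [he, abs_mul, abs_of_pos (hg.pos ξ)]
    apply mul_le_mul_of_nonneg_right _ (abs_nonneg _)
    exact h ξ ⟨hu.1.trans hξ.1.le, hξ.2.le.trans hv.2⟩
  rcases lt_trichotomy s s' with h1 | h1 | h1
  · rw [abs_sub_comm, abs_sub_comm s s']
    exact key s s' hs hs' h1
  · subst h1; simp
  · exact key s' s hs' hs h1

lemma Mza_iter (A : Sys) {r C lam : ℝ} (hr : 0 < r) (hC : 0 ≤ C) (hl : lam < 1) (hl0 : 0 < lam)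
    (h1 : ∀ t ∈ A.L, ¬ A.NE t → ExpAt A t r C lam) {t : ℝ} (ht : t ∈ A.L)
    (hav : ∀ g ∈ A.G, ¬ A.NE (g t)) (n : ℕ) :
    ∃ z ∈ A.L, (∀ g ∈ A.G, ¬ A.NE (g z)) ∧ ∃ φ ∈ A.G, φ z = t ∧
      (∀ s ∈ Icc (z - r) (z + r), deriv (⇑φ) s ≤ lam ^ n) ∧
      ∀ s ∈ Icc (z - r) (z + r), ∀ s' ∈ Icc (z - r) (z + r),
        |Real.log (deriv (⇑φ) s) - Real.log (deriv (⇑φ) s')| ≤ C / (1 - lam) * |s - s'| := by
  have hD : 0 ≤ C / (1 - lam) := div_nonneg hC (by linarith)
  induction n with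
  | zero =>
    refine ⟨t, ht, hav, 1, Subgroup.one_mem _, rfl, ?_, ?_⟩
    · intro s _
      have : (⇑(1 : Equiv.Perm ℝ)) = id := rfl
      rw [this]; simp
    · intro s _ s' _
      have : (⇑(1 : Equiv.Perm ℝ)) = id := rfl
      rw [this]
      simp only [deriv_id', Real.log_one, sub_self, abs_zero]
      positivity
  | succ n ih =>
    obtain ⟨z, hz, hzav, φ, hφ, hφz, hφ1, hφ2⟩ := ih
    have hzNE : ¬ A.NE z := by
      have := hzav 1 (Subgroup.one_mem _)
      simpa using this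
    obtain ⟨γ, hγ, hγ1, hγ2⟩ := h1 z hz hzNE
    have hγi : γ⁻¹ ∈ A.G := Subgroup.inv_mem _ hγ
    have hgood : Good γ⁻¹ := A.good hγi
    have hmem : ∀ s ∈ Icc (γ z - r) (γ z + r), γ⁻¹ s ∈ Icc (z - r) (z + r) := by
      intro s hs
      have hc : γ z ∈ Icc (γ z - r) (γ z + r) := ⟨by linarith, by linarith⟩
      have h := Mza_lip hgood hγ1 hs hc
      have h2 : γ⁻¹ (γ z) = z := by simp
      rw [h2] at h
      have h3 : |s - γ z| ≤ r := by
        rw [abs_le]; constructor <;> linarith [hs.1, hs.2]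
      have h4 : |γ⁻¹ s - z| ≤ r := by
        calc |γ⁻¹ s - z| ≤ lam * |s - γ z| := h
          _ ≤ 1 * |s - γ z| := by
            apply mul_le_mul_of_nonneg_right hl.le (abs_nonneg _)
          _ ≤ r := by rw [one_mul]; exact h3
      rw [abs_le] at h4
      exact ⟨by linarith [h4.1], by linarith [h4.2]⟩
    refine ⟨γ z, (A.mem_iff hγ z).mpr hz, ?_, φ * γ⁻¹, Subgroup.mul_mem _ hφ hγi, ?_, ?_, ?_⟩
    · intro g hg
      have := hzav (g * γ) (Subgroup.mul_mem _ hg hγ)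
      simpa [Equiv.Perm.mul_apply] using this
    · rw [Equiv.Perm.mul_apply]
      have h2 : γ⁻¹ (γ z) = z := by simp
      rw [h2, hφz]
    · intro s hs
      rw [Good.deriv_mul (A.good hφ) hgood, pow_succ]
      apply mul_le_mul (hφ1 _ (hmem s hs)) (hγ1 s hs) (hgood.pos s).le (by positivity)
    · intro s hs s' hs'
      rw [Good.deriv_mul (A.good hφ) hgood, Good.deriv_mul (A.good hφ) hgood,
        Real.log_mul ((A.good hφ).pos _).ne' (hgood.pos _).ne',
        Real.log_mul ((A.good hφ).pos _).ne' (hgood.pos _).ne']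
      have e1 := hφ2 _ (hmem s hs) _ (hmem s' hs')
      have e2 := hγ2 s hs s' hs'
      have e3 := Mza_lip hgood hγ1 hs hs'
      have e4 : C / (1 - lam) * lam + C = C / (1 - lam) := by
        have : (1 - lam) ≠ 0 := by linarith
        field_simp
        ring
      have e5 : C / (1 - lam) * |γ⁻¹ s - γ⁻¹ s'| ≤ C / (1 - lam) * (lam * |s - s'|) :=
        mul_le_mul_of_nonneg_left e3 hD
      calc |Real.log (deriv (⇑φ) (γ⁻¹ s)) + Real.log (deriv (⇑γ⁻¹) s) -
            (Real.log (deriv (⇑φ) (γ⁻¹ s')) + Real.log (deriv (⇑γ⁻¹) s'))|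
          = |(Real.log (deriv (⇑φ) (γ⁻¹ s)) - Real.log (deriv (⇑φ) (γ⁻¹ s'))) +
              (Real.log (deriv (⇑γ⁻¹) s) - Real.log (deriv (⇑γ⁻¹) s'))| := by
            congr 1; ring
        _ ≤ _ := abs_add_le _ _
        _ ≤ C / (1 - lam) * (lam * |s - s'|) + C * |s - s'| := by linarith
        _ = (C / (1 - lam) * lam + C) * |s - s'| := by ring
        _ = C / (1 - lam) * |s - s'| := by rw [e4]

theorem por_of_avoid (A : Sys) {r C lam : ℝ} (hr : 0 < r) (hC : 0 ≤ C) (hl : lam < 1) (hl0 : 0 < lam)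
    (h1 : ∀ t ∈ A.L, ¬ A.NE t → ExpAt A t r C lam) {t : ℝ} (ht : t ∈ A.L)
    (hav : ∀ g ∈ A.G, ¬ A.NE (g t)) : Por A.L t := by
  obtain ⟨κ₀, hκ₀, hfree⟩ := Mza_free A hr
  set D := C / (1 - lam) with hDdef
  have hD : 0 ≤ D := div_nonneg hC (by linarith)
  set B := Real.exp (D * r) with hBdef
  have hB : 0 < B := Real.exp_pos _
  refine ⟨κ₀ / (B ^ 2 * r), by positivity, fun ρ hρ => ?_⟩
  obtain ⟨n, hn⟩ : ∃ n : ℕ, lam ^ n < ρ / (B * r) :=
    exists_pow_lt_of_lt_one (by positivity) hl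
  obtain ⟨z, hz, -, φ, hφ, hφz, hφ1, hφ2⟩ := Mza_iter A hr hC hl hl0 h1 ht hav n
  have hgood := A.good hφ
  have hzI : z ∈ Icc (z - r) (z + r) := ⟨by linarith, by linarith⟩
  set e := deriv (⇑φ) z with he
  have he0 : 0 < e := hgood.pos z
  have he1 : e ≤ lam ^ n := hφ1 z hzI
  -- bounds of the derivative
  have hbd : ∀ s ∈ Icc (z - r) (z + r), e / B ≤ deriv (⇑φ) s ∧ deriv (⇑φ) s ≤ e * B := by
    intro s hs
    have h2 := hφ2 s hs z hzI
    have h3 : |s - z| ≤ r := by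
      rw [abs_le]; constructor <;> linarith [hs.1, hs.2]
    have h4 : |Real.log (deriv (⇑φ) s) - Real.log e| ≤ D * r :=
      h2.trans (mul_le_mul_of_nonneg_left h3 hD)
    rw [abs_le] at h4
    have hps := hgood.pos s
    constructor
    · rw [div_le_iff₀ hB]
      have h5 : Real.log e ≤ Real.log (deriv (⇑φ) s) + D * r := by linarith [h4.1]
      calc e = Real.exp (Real.log e) := (Real.exp_log he0).symm
        _ ≤ Real.exp (Real.log (deriv (⇑φ) s) + D * r) := Real.exp_le_exp.mpr h5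
        _ = deriv (⇑φ) s * B := by rw [Real.exp_add, Real.exp_log hps]
    · have h5 : Real.log (deriv (⇑φ) s) ≤ Real.log e + D * r := by linarith [h4.2]
      calc deriv (⇑φ) s = Real.exp (Real.log (deriv (⇑φ) s)) := (Real.exp_log hps).symm
        _ ≤ Real.exp (Real.log e + D * r) := Real.exp_le_exp.mpr h5
        _ = e * B := by rw [Real.exp_add, Real.exp_log he0]
  obtain ⟨c, hc1, hc2, hc3⟩ := hfree z
  have hrho : B * e * r < ρ := by
    have h6 : e < ρ / (B * r) := lt_of_le_of_lt he1 hn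
    rw [lt_div_iff₀ (by positivity)] at h6
    linarith [mul_comm (B * e) r, mul_assoc B e r, mul_left_comm e B r]
  have hkr : κ₀ / (B ^ 2 * r) * (B * e * r) = e / B * κ₀ := by
    field_simp
  -- the length of the image
  have hlen : e / B * κ₀ ≤ φ (c + κ₀) - φ c := by
    obtain ⟨ξ, hξ, h7⟩ := hgood.mvt (show c < c + κ₀ by linarith)
    have h8 := (hbd ξ ⟨by linarith [hξ.1], by linarith [hξ.2]⟩).1
    rw [h7]
    have : c + κ₀ - c = κ₀ := by ring
    rw [this]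
    exact mul_le_mul_of_nonneg_right h8 hκ₀.le
  have hlip : ∀ s ∈ Icc (z - r) (z + r), |φ s - t| ≤ B * e * r := by
    intro s hs
    have h9 := Mza_lip hgood (fun s hs => (hbd s hs).2) hs hzI
    rw [hφz] at h9
    have h3 : |s - z| ≤ r := by
      rw [abs_le]; constructor <;> linarith [hs.1, hs.2]
    calc |φ s - t| ≤ e * B * |s - z| := h9
      _ ≤ e * B * r := mul_le_mul_of_nonneg_left h3 (by positivity)
      _ = B * e * r := by ring
  have hcI : c ∈ Icc (z - r) (z + r) := ⟨hc1, by linarith⟩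
  have hcI' : c + κ₀ ∈ Icc (z - r) (z + r) := ⟨by linarith, hc2⟩
  have a1 := hlip c hcI
  have a2 := hlip (c + κ₀) hcI'
  rw [abs_le] at a1 a2
  refine ⟨B * e * r, by positivity, hrho, φ c, by linarith [a1.1], ?_, ?_⟩
  · rw [hkr]; linarith [a2.2]
  · intro s hs hsL
    rw [hkr] at hs
    have hs2 : s < φ (c + κ₀) := by linarith [hs.2]
    have hinv : φ⁻¹ s ∈ A.L := (A.mem_iff (Subgroup.inv_mem _ hφ) s).mpr hsL
    refine hc3 (φ⁻¹ s) ⟨?_, ?_⟩ hinv
    · apply hgood.mono.lt_iff_lt.mp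
      simpa using hs.1
    · apply hgood.mono.lt_iff_lt.mp
      simpa using hs2

end Pool.Agent.H42.EM
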