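/-
MZB : the set of porosity points of a closed set of reals is a null set.

PROOF.  Lebesgue's density theorem: IsUnifLocDoublingMeasure.ae_tendsto_measure_inter_div volume L K (K = 1): for
a.e. t ∈ L, for every sequence δ_j → 0+, volume (L ∩ closedBall t (δ_j)) / volume (closedBall t (δ_j)) → 1.
If L is porous at t with constant κ, choose r_j < 1/(j+1) and the intervals (c_j, c_j + κ r_j) ⊆ [t - r_j, t + r_j]
free of L: volume (L ∩ closedBall t r_j) ≤ 2 r_j - κ r_j (if κ r_j > 0; note κ ≤ 2), so the quotient is
≤ 1 - κ/2 for all j: contradiction.  So the set of porosity points in L is contained in the exceptional null set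
(MeasureTheory.ae_restrict_iff' with L measurable (closed)).
-/
import Mathlib
import Pool.Agent.H42.EM.Mza

set_option autoImplicit false

namespace Pool.Agent.H42.EM

open Set MeasureTheory

open Filter Metric Topology in
theorem volume_por (L : Set ℝ) (hL : IsClosed L) : volume {t | t ∈ L ∧ Por L t} = 0 := by
  have h : ∀ᵐ x ∂(volume : Measure ℝ).restrict L, ∀ (w : ℕ → ℝ) (δ : ℕ → ℝ)
      (_ : Tendsto δ atTop (𝓝[>] 0)) (_ : ∀ᶠ j in atTop, x ∈ closedBall (w j) (1 * δ j)),
      Tendsto (fun j => volume (L ∩ closedBall (w j) (δ j)) / volume (closedBall (w j) (δ j)))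
        atTop (𝓝 1) := by
    filter_upwards [IsUnifLocDoublingMeasure.ae_tendsto_measure_inter_div
      (volume : Measure ℝ) L 1] with x hx w δ h1 h2
    exact hx w δ h1 h2
  rw [ae_restrict_iff' hL.measurableSet, ae_iff] at h
  refine measure_mono_null ?_ h
  rintro t ⟨htL, κ, hκ, hp⟩ hall
  have hall := hall htL
  choose r hr0 hr1 c hc1 hc2 hc3 using fun j : ℕ => hp (1 / ((j : ℝ) + 1)) (by positivity)
  have hlim : Tendsto r atTop (𝓝[>] 0) := by
    refine tendsto_nhdsWithin_iff.mpr ⟨?_, Eventually.of_forall hr0⟩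
    exact squeeze_zero (fun j => (hr0 j).le) (fun j => (hr1 j).le)
      tendsto_one_div_add_atTop_nhds_zero_nat
  have htd := hall (fun _ => t) r hlim (Eventually.of_forall fun j => by
    simp [(hr0 j).le])
  have hκ2 : κ ≤ 2 := by
    have h1 := hc1 0
    have h2 := hc2 0
    have h3 := hr0 0
    by_contra hlt
    push Not at hlt
    nlinarith
  have hle : ∀ j, volume (L ∩ closedBall t (r j)) / volume (closedBall t (r j)) ≤
      ENNReal.ofReal (1 - κ / 2) := by
    intro j
    have h3 := hr0 j
    have hsub : L ∩ closedBall t (r j) ⊆ closedBall t (r j) \ Ioo (c j) (c j + κ * r j) := by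
      rintro s ⟨hs1, hs2⟩
      exact ⟨hs2, fun hs3 => hc3 j s hs3 hs1⟩
    have hIsub : Ioo (c j) (c j + κ * r j) ⊆ closedBall t (r j) := by
      intro s hs
      rw [Real.closedBall_eq_Icc]
      exact ⟨by linarith [hs.1, hc1 j], by linarith [hs.2, hc2 j]⟩
    have hv : volume (closedBall t (r j) \ Ioo (c j) (c j + κ * r j)) =
        ENNReal.ofReal (2 * r j - κ * r j) := by
      rw [measure_sdiff hIsub measurableSet_Ioo.nullMeasurableSet (by simp), Real.volume_closedBall,
        Real.volume_Ioo, ← ENNReal.ofReal_sub _ (by nlinarith)]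
      congr 1; ring
    have hv2 : volume (closedBall t (r j)) = ENNReal.ofReal (2 * r j) := Real.volume_closedBall _ _
    calc volume (L ∩ closedBall t (r j)) / volume (closedBall t (r j))
        ≤ ENNReal.ofReal (2 * r j - κ * r j) / ENNReal.ofReal (2 * r j) := by
          rw [hv2, ← hv]
          exact ENNReal.div_le_div_right (measure_mono hsub) _
      _ = ENNReal.ofReal (1 - κ / 2) := by
          rw [← ENNReal.ofReal_div_of_pos (by linarith)]
          congr 1
          field_simp
  have h1 : (1 : ENNReal) ≤ ENNReal.ofReal (1 - κ / 2) :=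
    le_of_tendsto htd (Eventually.of_forall hle)
  have h2 : ENNReal.ofReal (1 - κ / 2) < 1 := by
    rw [ENNReal.ofReal_lt_one]; linarith
  exact absurd h1 (not_le.mpr h2)

end Pool.Agent.H42.EM
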