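/-
MZC : countability and measure zero.

PROOFS.
* countable_G: the group is generated by a finite set, hence countable (a Subgroup.closure of a countable set is
  countable: Subgroup.closure of a finite/countable set; e.g. `Subgroup.countable_closure`-type instance, or through
  FreeGroup.lift surjecting onto the closure / Set.range, FreeGroup of a countable type is countable).
* ne_countable: E = {t ∈ L | NE t}: two distinct points of E are at distance ≥ d > 0, so E is countable
  (Set.Countable of a separated set: e.g. the map t ↦ ⌊t / d⌋ (or ⌊2 t / d⌋) into ℤ is injective on E).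
* volume_L: L = {t ∈ L | orbit avoids NE} ∪ ⋃_{g ∈ G} g⁻¹(E): the first set is null (por_of_avoid, volume_por),
  the second is countable.
-/
import Mathlib
import Pool.Agent.H42.EM.Mzb

set_option autoImplicit false

namespace Pool.Agent.H42.EM

open Set MeasureTheory

lemma Sys.countable_G (A : Sys) : (A.G : Set (Equiv.Perm ℝ)).Countable := by
  have hF : Set.range (fun o : Option (Fin A.n) => o.elim (T : Equiv.Perm ℝ) A.f) =
      insert (Equiv.addRight (1 : ℝ) : Equiv.Perm ℝ) (Set.range A.f) := by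
    ext g
    simp only [mem_range, mem_insert_iff]
    constructor
    · rintro ⟨o, rfl⟩
      cases o with
      | none => exact Or.inl rfl
      | some i => exact Or.inr ⟨i, rfl⟩
    · rintro (rfl | ⟨i, rfl⟩)
      · exact ⟨none, rfl⟩
      · exact ⟨some i, rfl⟩
  have hG : A.G = (FreeGroup.lift (fun o : Option (Fin A.n) => o.elim (T : Equiv.Perm ℝ) A.f)).range := by
    rw [FreeGroup.range_lift_eq_closure, hF]
  have hc : Countable (FreeGroup (Option (Fin A.n))) := by
    unfold FreeGroup
    infer_instance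
  rw [hG, MonoidHom.coe_range]
  exact Set.countable_range _

private lemma mzc_countable {E : Set ℝ} {d : ℝ} (hd : 0 < d)
    (h : ∀ t ∈ E, ∀ t' ∈ E, t ≠ t' → d ≤ |t - t'|) : E.Countable := by
  refine Set.MapsTo.countable_of_injOn (f := fun t : ℝ => ⌊t / d⌋) (t := (univ : Set ℤ))
    (fun _ _ => mem_univ _) ?_ (Set.to_countable _)
  intro t ht t' ht' heq
  by_contra hne
  have h1 := h t ht t' ht' hne
  have h2 : |t / d - t' / d| < 1 := Int.abs_sub_lt_one_of_floor_eq_floor heq
  rw [← sub_div, abs_div, abs_of_pos hd, div_lt_one hd] at h2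
  linarith

theorem volume_L (A : Sys) {r C lam d : ℝ} (hr : 0 < r) (hC : 0 ≤ C) (hl : lam < 1) (hl0 : 0 < lam)
    (hd : 0 < d) (h1 : ∀ t ∈ A.L, ¬ A.NE t → ExpAt A t r C lam)
    (h2 : ∀ t ∈ A.L, ∀ t' ∈ A.L, A.NE t → A.NE t' → t ≠ t' → d ≤ |t - t'|) :
    volume A.L = 0 := by
  have hE : {t | t ∈ A.L ∧ A.NE t}.Countable :=
    mzc_countable hd fun t ht t' ht' hne => h2 t ht.1 t' ht'.1 ht.2 ht'.2 hne
  have hU : (⋃ g ∈ (A.G : Set (Equiv.Perm ℝ)), (fun x => g x) ⁻¹' {t | t ∈ A.L ∧ A.NE t}).Countable := by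
    refine A.countable_G.biUnion fun g _ => ?_
    exact hE.preimage g.injective
  have hsub : A.L ⊆ {t | t ∈ A.L ∧ Por A.L t} ∪
      ⋃ g ∈ (A.G : Set (Equiv.Perm ℝ)), (fun x => g x) ⁻¹' {t | t ∈ A.L ∧ A.NE t} := by
    intro t ht
    by_cases hav : ∀ g ∈ A.G, ¬ A.NE (g t)
    · exact Or.inl ⟨ht, por_of_avoid A hr hC hl hl0 h1 ht hav⟩
    · push Not at hav
      obtain ⟨g, hg, hgt⟩ := hav
      refine Or.inr ?_
      simp only [mem_iUnion]
      exact ⟨g, hg, (A.mem_iff hg t).mpr ht, hgt⟩
  refine measure_mono_null hsub (measure_union_null (volume_por A.L A.closed) ?_)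
  exact hU.measure_zero _

end Pool.Agent.H42.EM
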