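/-
PORC : core of the porosity theorem.

PROOF of por_core.  M : A.LipS M.  Put E := 1 / (8 C₀²) (so 0 < E ≤ 1/8 and (exp (2E) - 1) * C₀² < 1, from
exp t ≤ 1 + 2 t for 0 ≤ t ≤ 1), ε₁ := E / ((M + 1) * exp E * C₀) and ρ₁ from gap_tail for ε₁; ρ := ρ₁ / exp E.
Suppose a < b ≤ x ≤ c, b < c < d as in the statement, m := b - a ≤ ρ.  K = [a, d] ∋ x.
(1) For g ∈ G let (n, w) be given by min_path with Z = {b, c}.  Claim: Osc (w i) a d E for all i ≤ n.
 Strong induction on i.  Suppose Osc (w l) a d E for all l < i.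
 - w l b - w l a ≤ exp E * deriv (w l) x * m ≤ exp E * m ≤ ρ₁ (osc_deriv_le, NE).
 - for l < l' < i (or l ≠ l') and k : ℤ we have w l a ≠ w l' a + k.  Otherwise (w l a, w l b) and
   (w l' a + k, w l' b + k) are gaps with the same left endpoint, so w l b = w l' b + k.  Put
   μ = (w l b - w l a) / m = (w l' b - w l' a) / m.  By osc_ratio both (w l c - w l b) and (w l' c - w l' b) are
   between exp (-E) μ (c - b) and exp E μ (c - b), so y := w l c and y' := w l' c + k satisfy
   |y - y'| ≤ (exp E - exp (-E)) μ (c - b) ≤ (exp E - exp (-E)) μ C₀ m.  Both y and y' are in L and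
   (y, y + e), (y', y' + e) are free of L, with e = exp (-E) μ m / C₀ ≤ exp (-E) μ (d - c) (osc_ratio again).
   As (exp E - exp (-E)) C₀ < exp (-E) / C₀ we get |y - y'| < e, so y = y'.  So Eqv {b, c} (w l) (w l'),
   contradiction with min_path.
 - gap_tail for the family l ∈ range i: ∑ (w l b - w l a) ≤ ε₁; and w l d - w l a ≤ exp E * C₀ * (w l b - w l a)
   (osc_ratio), so for u, v ∈ K: ∑_{l<i} |w l u - w l v| ≤ exp E * C₀ * ε₁ = E / (M + 1), and lip_path gives
   Osc (w i) a d E.
(2) Apply finite_index with α = b, β = c.  b ∈ L, b < c; (b, c) meets L by Sys.accR_of_gap.  Let η > 0, F from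
 gap_finset_right for η' := η * exp (-E) / C₀... precisely: let g ∈ G with η ≤ g c - g b.  With w as in (1) for g,
 g c - g b = w n c - w n b (Eqv) ≤ exp E * (w n b - w n a) * (c - b) / m ≤ exp E * C₀ * (w n b - w n a).  So the gap
 (w n a, w n b) has length ≥ η / (exp E * C₀), and w n b is in F mod ℤ, hence so is g b (Eqv).
-/
import Mathlib
import Pool.Agent.H42.EM.Fix
import Pool.Agent.H42.EM.Fam
import Pool.Agent.H42.EM.Refl

set_option autoImplicit false

namespace Pool.Agent.H42.EM

open Set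

lemma Porc_exp {C₀ : ℝ} (hC : 1 ≤ C₀) :
    (Real.exp (2 * (1 / (8 * C₀ ^ 2))) - 1) * C₀ ^ 2 < 1 := by
  have hC2 : 1 ≤ C₀ ^ 2 := by nlinarith
  have hC0 : 0 < C₀ ^ 2 := by linarith
  set t : ℝ := 2 * (1 / (8 * C₀ ^ 2)) with ht
  have ht1 : t * C₀ ^ 2 = 1 / 4 := by
    rw [ht]; field_simp; norm_num
  have ht0 : 0 ≤ t := by rw [ht]; positivity
  have ht2 : t ≤ 1 / 4 := by nlinarith
  have h1 : 1 - t ≤ Real.exp (-t) := Real.one_sub_le_exp_neg t
  have h2 : Real.exp t * Real.exp (-t) = 1 := by rw [← Real.exp_add]; simp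
  have h3 : 0 < Real.exp t := Real.exp_pos t
  have h4 : Real.exp t * (1 - t) ≤ 1 := by
    have := mul_le_mul_of_nonneg_left h1 h3.le
    linarith
  have h5 : Real.exp t - 1 ≤ 2 * t := by nlinarith
  have h6 : (Real.exp t - 1) * C₀ ^ 2 ≤ 2 * t * C₀ ^ 2 := mul_le_mul_of_nonneg_right h5 hC0.le
  nlinarith

lemma Porc_lt {A : Sys} {g h : Equiv.Perm ℝ} (hg : g ∈ A.G) (hh : h ∈ A.G) {a b c d E C₀ : ℝ}
    {k : ℤ} (gap : IsGap A.L a b) (hbc : b < c) (hcd : c < d) (hc : c ∈ A.L)
    (hfree : ∀ t ∈ Ioo c d, t ∉ A.L) (h1 : d - a ≤ C₀ * (b - a)) (h2 : b - a ≤ C₀ * (d - c))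
    (hC : 1 ≤ C₀) (hE0 : 0 ≤ E) (hE : (Real.exp (2 * E) - 1) * C₀ ^ 2 < 1) (og : Osc g a d E)
    (oh : Osc h a d E) (ha : g a = h a + k) (hb : g b = h b + k) : ¬ g c < h c + k := by
  intro hlt
  have hab := gap.1
  have hga := A.good hg
  have hha := A.good hh
  have m : ∀ {t : ℝ}, a ≤ t → t ≤ d → t ∈ Icc a d := fun h h' => ⟨h, h'⟩
  have r1 := osc_ratio hga og (u := a) (v := b) (u' := b) (v' := c) (m le_rfl (by linarith))
    (m hab.le (by linarith)) hab.le (m hab.le (by linarith)) (m (by linarith) hcd.le) hbc.le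
  have r2 := osc_ratio hha oh (u := b) (v := c) (u' := a) (v' := b) (m hab.le (by linarith))
    (m (by linarith) hcd.le) hbc.le (m le_rfl (by linarith)) (m hab.le (by linarith)) hab.le
  have r3 := osc_ratio hga og (u := a) (v := b) (u' := c) (v' := d) (m le_rfl (by linarith))
    (m hab.le (by linarith)) hab.le (m (by linarith) hcd.le) (m (by linarith) le_rfl) hcd.le
  -- the point h c + k is to the right of g d
  have hcL : h c + k ∈ A.L := by
    rw [A.mem_add_int, A.mem_iff hh]; exact hc
  have hgd : g d ≤ h c + k := by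
    by_contra hlt2
    push Not at hlt2
    have hs : g⁻¹ (h c + k) ∈ Ioo c d := by
      constructor
      · have := (A.good (Subgroup.inv_mem _ hg)).mono hlt
        simpa using this
      · have := (A.good (Subgroup.inv_mem _ hg)).mono hlt2
        simpa using this
    exact hfree _ hs ((A.mem_iff (Subgroup.inv_mem _ hg) _).2 hcL)
  set e : ℝ := Real.exp E with he
  have he1 : 1 ≤ e := by rw [he]; exact Real.one_le_exp hE0
  have he2 : Real.exp (2 * E) = e * e := by rw [he, ← Real.exp_add]; ring_nf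
  rw [he2] at hE
  have hP : 0 < g b - g a := sub_pos.2 (hga.mono hab)
  have hPh : h b - h a = g b - g a := by rw [ha, hb]; ring
  rw [hPh] at r2
  set P : ℝ := g b - g a with hPdef
  set X : ℝ := h c - h b with hX
  set Y : ℝ := g c - g b with hY
  have hm : 0 < b - a := sub_pos.2 hab
  have hdc : 0 < d - c := sub_pos.2 hcd
  have hZ : g d - g c ≤ X - Y := by rw [hX, hY, hb]; linarith
  have e0 : 0 < e := by linarith
  have hC0 : 0 < C₀ := by linarith
  have hcb : c - b ≤ C₀ * (b - a) := by linarith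
  have k1 : P * (d - c) ≤ e * ((X - Y) * (b - a)) :=
    r3.trans (mul_le_mul_of_nonneg_left (mul_le_mul_of_nonneg_right hZ hm.le) e0.le)
  have k2 : P * (b - a) ≤ C₀ * (e * ((X - Y) * (b - a))) := by
    calc P * (b - a) ≤ P * (C₀ * (d - c)) := mul_le_mul_of_nonneg_left h2 hP.le
      _ = C₀ * (P * (d - c)) := by ring
      _ ≤ _ := mul_le_mul_of_nonneg_left k1 hC0.le
  have k3 : e * (X * (b - a)) ≤ e * (e * (P * (c - b))) := mul_le_mul_of_nonneg_left r2 e0.le
  have k4 : e * ((X - Y) * (b - a)) ≤ (e * e - 1) * (P * (c - b)) := by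
    have : e * ((X - Y) * (b - a)) = e * (X * (b - a)) - e * (Y * (b - a)) := by ring
    rw [this]
    nlinarith
  have he3 : 0 ≤ e * e - 1 := by nlinarith
  have k5 : (e * e - 1) * (P * (c - b)) ≤ (e * e - 1) * (P * (C₀ * (b - a))) :=
    mul_le_mul_of_nonneg_left (mul_le_mul_of_nonneg_left hcb hP.le) he3
  have k6 : P * (b - a) ≤ C₀ * ((e * e - 1) * (P * (C₀ * (b - a)))) :=
    k2.trans (mul_le_mul_of_nonneg_left (k4.trans k5) hC0.le)
  have k7 : C₀ * ((e * e - 1) * (P * (C₀ * (b - a)))) = ((e * e - 1) * C₀ ^ 2) * (P * (b - a)) := by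
    ring
  rw [k7] at k6
  have k8 : 0 < P * (b - a) := mul_pos hP hm
  nlinarith

lemma Porc_eqv {A : Sys} {g h : Equiv.Perm ℝ} (hg : g ∈ A.G) (hh : h ∈ A.G) {a b c d E C₀ : ℝ}
    {k : ℤ} (gap : IsGap A.L a b) (hbc : b < c) (hcd : c < d) (hc : c ∈ A.L)
    (hfree : ∀ t ∈ Ioo c d, t ∉ A.L) (h1 : d - a ≤ C₀ * (b - a)) (h2 : b - a ≤ C₀ * (d - c))
    (hC : 1 ≤ C₀) (hE0 : 0 ≤ E) (hE : (Real.exp (2 * E) - 1) * C₀ ^ 2 < 1) (og : Osc g a d E)
    (oh : Osc h a d E) (ha : g a = h a + k) : Eqv {b, c} g h := by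
  have g1 := gap.image A hg
  have g2 := gap.image A (Subgroup.mul_mem _ (A.Tz_mem k) hh)
  rw [Equiv.Perm.mul_apply, Equiv.Perm.mul_apply, T_zpow, T_zpow] at g2
  rw [ha] at g1
  have hb : g b = h b + k := g1.eq_of_left g2
  have l1 := Porc_lt hg hh gap hbc hcd hc hfree h1 h2 hC hE0 hE og oh ha hb
  have l2 := Porc_lt (k := -k) hh hg gap hbc hcd hc hfree h1 h2 hC hE0 hE oh og
    (by rw [ha]; push_cast; ring) (by rw [hb]; push_cast; ring)
  refine ⟨k, ?_⟩
  intro z hz
  rcases hz with rfl | hz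
  · exact hb
  · rw [mem_singleton_iff] at hz
    subst hz
    push_cast at l2
    push Not at l1 l2
    linarith

lemma por_core (A : Sys) {x : ℝ} (hNE : A.NE x) {C₀ : ℝ} (hC : 1 ≤ C₀) : ∃ ρ > 0,
    ∀ a b c d : ℝ, IsGap A.L a b → b - a ≤ ρ → b ≤ x → x ≤ c → b < c → c < d → c ∈ A.L →
      (∀ t ∈ Ioo c d, t ∉ A.L) → d - a ≤ C₀ * (b - a) → b - a ≤ C₀ * (d - c) → False := by
  obtain ⟨M, hM⟩ := A.exists_lip
  have hM0 : 0 ≤ M := hM.1
  have hC2 : 1 ≤ C₀ ^ 2 := by nlinarith
  have hC0 : 0 < C₀ := by linarith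
  set E : ℝ := 1 / (8 * C₀ ^ 2) with hEdef
  have hE0 : 0 < E := by rw [hEdef]; positivity
  have hE := Porc_exp hC
  rw [← hEdef] at hE
  have e0 : 0 < Real.exp E := Real.exp_pos E
  set ε₁ : ℝ := E / ((M + 1) * Real.exp E * C₀) with hε
  have hε0 : 0 < ε₁ := by rw [hε]; positivity
  obtain ⟨ρ₁, hρ₁, htail⟩ := gap_tail A hε0
  refine ⟨ρ₁ / Real.exp E, by positivity, ?_⟩
  intro a b c d gap hρ hbx hxc hbc hcd hc hfree h1 h2
  have hab := gap.1
  have hm : 0 < b - a := sub_pos.2 hab
  have hbL : b ∈ A.L := gap.2.2.1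
  have m : ∀ {t : ℝ}, a ≤ t → t ≤ d → t ∈ Icc a d := fun h h' => ⟨h, h'⟩
  have hρ' : Real.exp E * (b - a) ≤ ρ₁ := by
    rw [le_div_iff₀ e0] at hρ
    linarith
  have main : ∀ g ∈ A.G, ∃ (n : ℕ) (w : ℕ → Equiv.Perm ℝ), A.Path n w ∧ Eqv {b, c} (w n) g ∧
      Osc (w n) a d E := by
    intro g hg
    obtain ⟨n, w, hw, hwg, hne⟩ := A.min_path {b, c} hg
    refine ⟨n, w, hw, hwg, ?_⟩
    have hosc : ∀ i, i ≤ n → Osc (w i) a d E := by
      intro i
      induction i using Nat.strong_induction_on with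
      | _ i ih =>
        intro hi
        have ho : ∀ l, l < i → Osc (w l) a d E := fun l hl => ih l hl (by omega)
        have hG : ∀ l, l < i → w l ∈ A.G := fun l hl => hw.mem (by omega)
        have t1 : ∑ l ∈ Finset.range i, (w l b - w l a) ≤ ε₁ := by
          refine htail (Finset.range i) (fun l => w l a) (fun l => w l b) ?_ ?_ ?_
          · intro l hl
            exact gap.image A (hG l (Finset.mem_range.1 hl))
          · intro l hl l' hl' hll' k he
            rw [Finset.mem_range] at hl hl'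
            have hq := Porc_eqv (hG l hl) (hG l' hl') gap hbc hcd hc hfree h1 h2 hC hE0.le hE
              (ho l hl) (ho l' hl') he
            rcases lt_or_gt_of_ne hll' with h | h
            · exact hne l l' h (by omega) hq
            · exact hne l' l h (by omega) hq.symm
          · intro l hl
            rw [Finset.mem_range] at hl
            have h3 := osc_deriv_le (A.good (hG l hl)) (ho l hl) (x := x) (u := a) (v := b)
              (m (by linarith) (by linarith)) (m le_rfl (by linarith)) (m hab.le (by linarith)) hab.le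
            refine h3.trans (le_trans ?_ hρ')
            refine mul_le_mul_of_nonneg_right ?_ hm.le
            calc Real.exp E * deriv (⇑(w l)) x ≤ Real.exp E * 1 :=
                  mul_le_mul_of_nonneg_left (hNE _ (hG l hl)) e0.le
              _ = Real.exp E := mul_one _
        have t2 : ∀ l ∈ Finset.range i, w l d - w l a ≤ Real.exp E * C₀ * (w l b - w l a) := by
          intro l hl
          rw [Finset.mem_range] at hl
          have h3 := osc_ratio (A.good (hG l hl)) (ho l hl) (u := a) (v := d) (u' := a) (v' := b)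
            (m le_rfl (by linarith)) (m (by linarith) le_rfl) (by linarith) (m le_rfl (by linarith))
            (m hab.le (by linarith)) hab.le
          have h4 : 0 < w l b - w l a := sub_pos.2 ((A.good (hG l hl)).mono hab)
          have h5 : Real.exp E * ((w l b - w l a) * (d - a)) ≤
              Real.exp E * ((w l b - w l a) * (C₀ * (b - a))) :=
            mul_le_mul_of_nonneg_left (mul_le_mul_of_nonneg_left h1 h4.le) e0.le
          have h6 : (w l d - w l a) * (b - a) ≤ (Real.exp E * C₀ * (w l b - w l a)) * (b - a) := by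
            refine h3.trans (h5.trans (le_of_eq ?_))
            ring
          exact le_of_mul_le_mul_right h6 hm
        intro u hu v hv
        have h3 := lip_path hM hw hi u v
        have h4 : ∑ l ∈ Finset.range i, |w l u - w l v| ≤ Real.exp E * C₀ * ε₁ := by
          calc ∑ l ∈ Finset.range i, |w l u - w l v|
              ≤ ∑ l ∈ Finset.range i, Real.exp E * C₀ * (w l b - w l a) := by
                refine Finset.sum_le_sum fun l hl => ?_
                refine le_trans ?_ (t2 l hl)
                have hmono := (A.good (hG l (Finset.mem_range.1 hl))).mono.monotone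
                have a1 := hmono hu.1
                have a2 := hmono hu.2
                have a3 := hmono hv.1
                have a4 := hmono hv.2
                rw [abs_le]
                constructor <;> linarith
            _ = Real.exp E * C₀ * ∑ l ∈ Finset.range i, (w l b - w l a) := by
                rw [Finset.mul_sum]
            _ ≤ Real.exp E * C₀ * ε₁ := mul_le_mul_of_nonneg_left t1 (by positivity)
        have h5 : Real.exp E * C₀ * ε₁ = E / (M + 1) := by
          rw [hε]; field_simp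
        rw [h5] at h4
        refine h3.trans ((mul_le_mul_of_nonneg_left h4 hM0).trans ?_)
        rw [← mul_div_assoc, div_le_iff₀ (by linarith)]
        nlinarith
    exact hosc n le_rfl
  refine finite_index A hbL hbc ?_ ?_
  · obtain ⟨t, ht, htL⟩ := A.accR_of_gap gap (c - b) (sub_pos.2 hbc)
    exact ⟨t, ⟨ht.1, by linarith [ht.2]⟩, htL⟩
  · intro η hη
    obtain ⟨F, hF⟩ := gap_finset_right A (η := η / (Real.exp E * C₀)) (by positivity)
    refine ⟨F, fun g hg hηg => ?_⟩
    obtain ⟨n, w, hw, ⟨k, hk⟩, ho⟩ := main g hg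
    have hwG := hw.mem le_rfl
    have hkb := hk b (by simp)
    have hkc := hk c (by simp)
    have h3 := osc_ratio (A.good hwG) ho (u := b) (v := c) (u' := a) (v' := b)
      (m hab.le (by linarith)) (m (by linarith) hcd.le) hbc.le (m le_rfl (by linarith))
      (m hab.le (by linarith)) hab.le
    have h4 : 0 < w n b - w n a := sub_pos.2 ((A.good hwG).mono hab)
    have h5 : Real.exp E * ((w n b - w n a) * (c - b)) ≤
        Real.exp E * ((w n b - w n a) * (C₀ * (b - a))) :=
      mul_le_mul_of_nonneg_left (mul_le_mul_of_nonneg_left (by linarith) h4.le) e0.le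
    have h6 : (w n c - w n b) * (b - a) ≤ ((w n b - w n a) * (Real.exp E * C₀)) * (b - a) := by
      refine h3.trans (h5.trans (le_of_eq ?_))
      ring
    have h7 := le_of_mul_le_mul_right h6 hm
    obtain ⟨q, hq, l, hl⟩ := hF (w n a) (w n b) (gap.image A hwG) (by
      rw [div_le_iff₀ (by positivity)]
      linarith)
    refine ⟨q, hq, l - k, ?_⟩
    push_cast
    linarith

end Pool.Agent.H42.EM
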