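/-
POR : a non-expandable point is not a point of bilateral porosity (from por_core, file Porc.lean).

PROOF of porous_false.  Bip gives κ (WLOG κ ≤ 1) and for every ρ' > 0 a scale r < ρ' with a free interval of length
 κ r in [x - r, x] and one in [x, x + r].  The left one is contained in a gap (a⁻, b⁻) with b⁻ ≤ x (x ∈ L), of length
 ≥ κ r, with b⁻ ≥ x - r; the right one in a gap (a⁺, b⁺), x ≤ a⁺ ≤ x + r, of length ≥ κ r.
 Case A: b⁻ - a⁻ ≤ b⁺ - a⁺ =: longer.  Take a = a⁻, b = b⁻, c = a⁺, d = a⁺ + (b⁻ - a⁻) ≤ b⁺.  b < c, since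
 otherwise b⁻ = x = a⁺ is an isolated point of L (Sys.acc).  d - a = (d - c) + (c - b) + (b - a) ≤ 2 (b - a) + 2 r
 ≤ (2 + 2/κ) (b - a), and b - a = d - c.  So por_core applies with C₀ = 2 + 2/κ as soon as b - a ≤ ρ.
 Case B: b⁺ - a⁺ < b⁻ - a⁻: the mirror image of case A: apply por_core to A.refl at -x (Refl.lean).
 Smallness: the smaller of the two gaps has length → 0 as r → 0: Suppose b⁻ - a⁻ > ρ and b⁺ - a⁺ > ρ for all small
 scales: by gap_finset_right/gap_finset there are finitely many gaps of length > ρ mod ℤ, so finitely many near x, so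
 b⁻ = x and a⁺ = x once r is small (b⁻ ∈ [x - r, x]), contradiction with Sys.acc.
 (So choose ρ = min of the two ρ's from por_core for A and A.refl, then r so small that b⁻ or a⁺ cannot be an
 endpoint ≠ x of a gap of length > ρ in [x - r, x + r].)
-/
import Mathlib
import Pool.Agent.H42.EM.Porc

set_option autoImplicit false

namespace Pool.Agent.H42.EM

open Set

private lemma Por_int (y : ℝ) : ∃ δ > 0, ∀ k : ℤ, y + k ≠ 0 → δ ≤ |y + k| := by
  by_cases hf : Int.fract y = 0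
  · refine ⟨1, one_pos, fun k hk => ?_⟩
    have h1 : y = (⌊y⌋ : ℝ) := by
      have := Int.floor_add_fract y
      rw [hf, add_zero] at this
      exact this.symm
    have h2 : y + k = ((⌊y⌋ + k : ℤ) : ℝ) := by
      push_cast
      rw [← h1]
    rw [h2] at hk ⊢
    have h3 : (⌊y⌋ + k : ℤ) ≠ 0 := by
      intro h
      rw [h] at hk
      exact hk Int.cast_zero
    have h4 : (1 : ℤ) ≤ |⌊y⌋ + k| := Int.one_le_abs h3
    exact_mod_cast h4
  · have h0 : 0 < Int.fract y := lt_of_le_of_ne (Int.fract_nonneg y) (Ne.symm hf)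
    have h1 : Int.fract y < 1 := Int.fract_lt_one y
    refine ⟨min (Int.fract y) (1 - Int.fract y), lt_min h0 (by linarith), fun k _ => ?_⟩
    have h2 : y + k = ((⌊y⌋ + k : ℤ) : ℝ) + Int.fract y := by
      push_cast
      have := Int.floor_add_fract y
      linarith
    rcases le_or_gt 0 (⌊y⌋ + k) with h3 | h3
    · have h4 : (0 : ℝ) ≤ ((⌊y⌋ + k : ℤ) : ℝ) := by exact_mod_cast h3
      refine (min_le_left _ _).trans ?_
      rw [h2, abs_of_nonneg (by linarith)]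
      linarith
    · have h4 : ((⌊y⌋ + k : ℤ) : ℝ) ≤ -1 := by
        have : ⌊y⌋ + k ≤ -1 := by omega
        exact_mod_cast this
      refine (min_le_right _ _).trans ?_
      rw [h2, abs_of_nonpos (by linarith)]
      linarith

private lemma Por_fin (F : Finset ℝ) (x : ℝ) :
    ∃ δ > 0, ∀ q ∈ F, ∀ k : ℤ, q + k ≠ x → δ ≤ |q + k - x| := by
  classical
  induction F using Finset.induction_on with
  | empty => exact ⟨1, one_pos, fun q hq => absurd hq (Finset.notMem_empty q)⟩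
  | insert p F hp ih =>
    obtain ⟨δ, hδ, h⟩ := ih
    obtain ⟨δ', hδ', h'⟩ := Por_int (p - x)
    refine ⟨min δ δ', lt_min hδ hδ', fun q hq k hk => ?_⟩
    rcases Finset.mem_insert.mp hq with rfl | hq
    · refine (min_le_right _ _).trans ?_
      have h1 := h' k (by intro h0; exact hk (by linarith))
      have h2 : q - x + k = q + k - x := by ring
      rwa [h2] at h1
    · exact (min_le_left _ _).trans (h q hq k hk)

private lemma Por_left (A : Sys) {x c l : ℝ} (hx : x ∈ A.L) (hl : 0 < l) (h1 : c + l ≤ x)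
    (h : ∀ t ∈ Ioo c (c + l), t ∉ A.L) : ∃ a b, IsGap A.L a b ∧ a ≤ c ∧ c + l ≤ b ∧ b ≤ x := by
  obtain ⟨a, b, hab, ht⟩ := A.exists_gap (h (c + l / 2) ⟨by linarith, by linarith⟩)
  refine ⟨a, b, hab, ?_, ?_, ?_⟩
  · by_contra hcon
    push Not at hcon
    exact h a ⟨hcon, by linarith [ht.1]⟩ hab.2.1
  · by_contra hcon
    push Not at hcon
    exact h b ⟨by linarith [ht.2], hcon⟩ hab.2.2.1
  · by_contra hcon
    push Not at hcon
    exact hab.2.2.2 x ⟨by linarith [ht.1], hcon⟩ hx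

private lemma Por_right (A : Sys) {x c l : ℝ} (hx : x ∈ A.L) (hl : 0 < l) (h1 : x ≤ c)
    (h : ∀ t ∈ Ioo c (c + l), t ∉ A.L) : ∃ a b, IsGap A.L a b ∧ a ≤ c ∧ c + l ≤ b ∧ x ≤ a := by
  obtain ⟨a, b, hab, ht⟩ := A.exists_gap (h (c + l / 2) ⟨by linarith, by linarith⟩)
  refine ⟨a, b, hab, ?_, ?_, ?_⟩
  · by_contra hcon
    push Not at hcon
    exact h a ⟨hcon, by linarith [ht.1]⟩ hab.2.1
  · by_contra hcon
    push Not at hcon
    exact h b ⟨by linarith [ht.2], hcon⟩ hab.2.2.1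
  · by_contra hcon
    push Not at hcon
    exact hab.2.2.2 x ⟨hcon, by linarith [ht.2]⟩ hx

theorem porous_false (A : Sys) {x : ℝ} (hx : x ∈ A.L) (hNE : A.NE x) (hB : Bip A.L x) : False := by
  obtain ⟨κ, hκ, hB⟩ := hB
  have hC : (1 : ℝ) ≤ 2 + 2 / κ := by
    have : 0 < 2 / κ := by positivity
    linarith
  obtain ⟨ρ₁, hρ₁, core₁⟩ := por_core A hNE hC
  have hNE' : A.refl.NE (-x) := by
    rw [Sys.refl_NE, neg_neg]
    exact hNE
  obtain ⟨ρ₂, hρ₂, core₂⟩ := por_core A.refl hNE' hC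
  have hρ : 0 < min ρ₁ ρ₂ := lt_min hρ₁ hρ₂
  obtain ⟨F₁, -, hF₁⟩ := gap_finset A hρ
  obtain ⟨F₂, hF₂⟩ := gap_finset_right A hρ
  obtain ⟨δ₁, hδ₁, hd₁⟩ := Por_fin F₁ x
  obtain ⟨δ₂, hδ₂, hd₂⟩ := Por_fin F₂ x
  obtain ⟨r, hr, hrδ, ⟨c₁, hc₁, hc₁', hf₁⟩, c₂, hc₂, hc₂', hf₂⟩ := hB (min δ₁ δ₂) (lt_min hδ₁ hδ₂)
  have hr₁ : r < δ₁ := hrδ.trans_le (min_le_left _ _)
  have hr₂ : r < δ₂ := hrδ.trans_le (min_le_right _ _)
  have hκr : 0 < κ * r := mul_pos hκ hr
  obtain ⟨a₁, b₁, hg₁, h11, h12, h13⟩ := Por_left A hx hκr hc₁' hf₁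
  obtain ⟨a₂, b₂, hg₂, h21, h22, h23⟩ := Por_right A hx hκr hc₂ hf₂
  have hne : ¬ (b₁ = x ∧ a₂ = x) := by
    rintro ⟨e1, e2⟩
    rcases A.acc hx with h | h
    · obtain ⟨t, ht, htL⟩ := h (b₂ - x) (by linarith)
      exact hg₂.2.2.2 t ⟨by linarith [ht.1], by linarith [ht.2]⟩ htL
    · obtain ⟨t, ht, htL⟩ := h (x - a₁) (by linarith)
      exact hg₁.2.2.2 t ⟨by linarith [ht.1], by linarith [ht.2]⟩ htL
  have hlt : b₁ < a₂ := by
    rcases lt_or_eq_of_le (h13.trans h23) with h | h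
    · exact h
    · exact absurd ⟨by linarith, by linarith⟩ hne
  -- a long gap on the left (right) side ends (starts) at x
  have hL : min ρ₁ ρ₂ ≤ b₁ - a₁ → b₁ = x := by
    intro h
    obtain ⟨q, hq, k, hk⟩ := hF₂ a₁ b₁ hg₁ h
    by_contra hcon
    have h1 := hd₂ q hq k (by rw [← hk]; exact hcon)
    rw [← hk, abs_of_nonpos (by linarith)] at h1
    linarith
  have hR : min ρ₁ ρ₂ ≤ b₂ - a₂ → a₂ = x := by
    intro h
    obtain ⟨q, hq, k, hk⟩ := hF₁ a₂ b₂ hg₂ h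
    by_contra hcon
    have h1 := hd₁ q hq k (by rw [← hk]; exact hcon)
    rw [← hk, abs_of_nonneg (by linarith)] at h1
    linarith
  have hsum : ∀ m : ℝ, κ * r ≤ m → 2 * m + 2 * r ≤ (2 + 2 / κ) * m := by
    intro m hm
    have h1 : r ≤ m / κ := by
      rw [le_div_iff₀ hκ]
      linarith
    have h2 : (2 + 2 / κ) * m = 2 * m + 2 * (m / κ) := by ring
    rw [h2]
    linarith
  have hcm : ∀ m : ℝ, 0 < m → m ≤ (2 + 2 / κ) * m := by
    intro m hm
    nlinarith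
  rcases le_or_gt (b₁ - a₁) (b₂ - a₂) with hcase | hcase
  · refine core₁ a₁ b₁ a₂ (a₂ + (b₁ - a₁)) hg₁ ?_ h13 h23 hlt (by linarith [hg₁.1]) hg₂.2.1 ?_ ?_ ?_
    · by_contra hcon
      push Not at hcon
      have h1 : min ρ₁ ρ₂ ≤ b₁ - a₁ := (min_le_left _ _).trans hcon.le
      exact hne ⟨hL h1, hR (h1.trans hcase)⟩
    · intro t ht
      exact hg₂.2.2.2 t ⟨ht.1, by linarith [ht.2]⟩
    · have h1 := hsum (b₁ - a₁) (by linarith)
      linarith
    · have h1 := hcm (b₁ - a₁) (by linarith [hg₁.1])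
      have h2 : a₂ + (b₁ - a₁) - a₂ = b₁ - a₁ := by ring
      rw [h2]
      exact h1
  · refine core₂ (-b₂) (-a₂) (-b₁) (-b₁ + (b₂ - a₂)) ?_ ?_ (by linarith) (by linarith)
      (by linarith) (by linarith [hg₂.1]) ?_ ?_ ?_ ?_
    · rw [Sys.refl_gap, neg_neg, neg_neg]
      exact hg₂
    · by_contra hcon
      push Not at hcon
      have h1 : min ρ₁ ρ₂ ≤ b₂ - a₂ := (min_le_right _ _).trans (by linarith)
      exact hne ⟨hL (h1.trans hcase.le), hR h1⟩
    · rw [Sys.refl_L, neg_neg]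
      exact hg₁.2.2.1
    · intro t ht
      rw [Sys.refl_L]
      exact hg₁.2.2.2 (-t) ⟨by linarith [ht.2], by linarith [ht.1]⟩
    · have h1 := hsum (b₂ - a₂) (by linarith)
      have h2 : -a₂ - -b₂ = b₂ - a₂ := by ring
      rw [h2]
      linarith
    · have h1 := hcm (b₂ - a₂) (by linarith [hg₂.1])
      have h2 : -a₂ - -b₂ = b₂ - a₂ := by ring
      have h3 : -b₁ + (b₂ - a₂) - -b₁ = b₂ - a₂ := by ring
      rw [h2, h3]
      exact h1

end Pool.Agent.H42.EM
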