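/-
STAR : property (★) at summable non-expandable points (assembly of loops, confine, free_elt).
-/
import Mathlib
import Pool.Agent.H42.EM.Mxd
import Pool.Agent.H42.EM.Cnf

set_option autoImplicit false

namespace Pool.Agent.H42.EM

open Set

theorem starR (A : Sys) {x W : ℝ} (hx : x ∈ A.L) (hNE : A.NE x) (hW : A.SumB x W)
    (hacc : AccR A.L x) : StarR A x := by
  obtain ⟨R, β, Lp, rep, hR, hβ, hβR, hLp, hrep⟩ := loops A hNE hW (E := 1 / 200) (by norm_num) (by norm_num)
  refine free_elt A Lp hR (by norm_num) le_rfl hβ hβR hLp ?_ hacc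
  intro p hxp hpR
  obtain ⟨t, ht, htL⟩ := hacc (p - x) (by linarith)
  exact confine A hx hW hR Lp rep hrep hxp hpR.le ⟨t, ⟨ht.1, by linarith [ht.2]⟩, htL⟩

end Pool.Agent.H42.EM
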