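/-
FIN : assembly.
-/
import Mathlib
import Pool.Agent.H42.EM.Star
import Pool.Agent.H42.EM.Ged
import Pool.Agent.H42.EM.Por
import Pool.Agent.H42.EM.Fgo
import Pool.Agent.H42.EM.Mzc

set_option autoImplicit false

namespace Pool.Agent.H42.EM

open Set MeasureTheory

theorem main_sys (A : Sys)
    (h : ∀ x ∈ A.L, A.NE x → OneSided A.L x ∨ (∃ W, A.SumB x W) ∨ Bip A.L x) :
    volume A.L = 0 ∧ ∃ S : Finset ℝ, (∀ s ∈ S, s ∉ A.L) ∧
      ∀ x : ℝ, x ∉ A.L → ∃ s ∈ S, ∃ g ∈ A.G, x ∈ connectedComponentIn (A.L)ᶜ (g s) := by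
  have hsum : ∀ x ∈ A.L, A.NE x → ∃ W, A.SumB x W := by
    intro x hx hNE
    rcases h x hx hNE with h1 | h1 | h1
    · exact sumB_oneSided A hx hNE h1
    · exact h1
    · exact (porous_false A hx hNE h1).elim
  have hst : ∀ x ∈ A.L, A.NE x →
      (AccR A.L x → StarR A x) ∧ (AccR A.refl.L (-x) → StarR A.refl (-x)) := by
    intro x hx hNE
    obtain ⟨W, hW⟩ := hsum x hx hNE
    refine ⟨starR A hx hNE hW, ?_⟩
    have h1 : (-x) ∈ A.refl.L := by rw [Sys.refl_L]; simpa using hx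
    have h2 : A.refl.NE (-x) := by rw [Sys.refl_NE]; simpa using hNE
    have h3 : A.refl.SumB (-x) W := by rw [Sys.refl_SumB]; simpa using hW
    exact starR A.refl h1 h2 h3
  obtain ⟨r, hr, C, hC, lam, hl, hl0, d, hd, h1, h2⟩ := unif_exp A hst
  exact ⟨volume_L A hr hC hl hl0 hd h1 h2, fin_orbits A hr hl hl0 hd h1 h2⟩

end Pool.Agent.H42.EM
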